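import Mathlib

/-! Sums over primes of `log p · min(w, w²)`. -/

set_option autoImplicit false

open Finset

namespace Pool.Agent.NH14.LI

/-- `min(w, w²)` -/
noncomputable def H (w : ℝ) : ℝ := min w (w^2)

lemma H_nonneg {w : ℝ} (h : 0 ≤ w) : 0 ≤ H w := le_min h (sq_nonneg w)

lemma H_le (w : ℝ) : H w ≤ w := min_le_left _ _

lemma H_le_sq (w : ℝ) : H w ≤ w^2 := min_le_right _ _

lemma H_mono {w z : ℝ} (h0 : 0 ≤ w) (h : w ≤ z) : H w ≤ H z :=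
  min_le_min h (by gcongr)

/-- `H w ≤ w ^ s` for `1 ≤ s ≤ 2` -/
lemma H_le_rpow {w s : ℝ} (h0 : 0 ≤ w) (h1 : 1 ≤ s) (h2 : s ≤ 2) : H w ≤ w ^ s := by
  rcases h0.eq_or_lt with h | h
  · rw [← h, Real.zero_rpow (by linarith)]
    unfold H; simp
  rcases le_total w 1 with hw | hw
  · refine (H_le_sq w).trans ?_
    rw [← Real.rpow_natCast]
    exact Real.rpow_le_rpow_of_exponent_ge h hw (by exact_mod_cast h2)
  · refine (H_le w).trans ?_
    calc w = w ^ (1:ℝ) := (Real.rpow_one w).symm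
      _ ≤ _ := Real.rpow_le_rpow_of_exponent_le hw h1

/-- the fourth root of two -/
lemma q4 : (1.18:ℝ) ≤ (2:ℝ) ^ (1/4:ℝ) := by
  have h : ((1.18:ℝ)) = ((1.18:ℝ) ^ (4:ℝ)) ^ (1/4:ℝ) := by
    rw [← Real.rpow_mul (by norm_num)]; norm_num
  rw [h]
  apply Real.rpow_le_rpow (by positivity) _ (by norm_num)
  norm_num

lemma q4_sq : ((2:ℝ) ^ (1/4:ℝ))^2 = (2:ℝ)^(1/2:ℝ) := by
  rw [← Real.rpow_natCast, ← Real.rpow_mul (by norm_num)]; norm_num

lemma q2_sq : ((2:ℝ) ^ (1/2:ℝ))^2 = 2 := by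
  rw [← Real.rpow_natCast, ← Real.rpow_mul (by norm_num)]; norm_num

lemma q2_ge : (1.4:ℝ) ≤ (2:ℝ) ^ (1/2:ℝ) := by
  have h := q2_sq
  have h0 : (0:ℝ) < (2:ℝ) ^ (1/2:ℝ) := by positivity
  nlinarith

/-- geometric sum, growing -/
lemma geo_up {q : ℝ} (hq : 1.18 ≤ q) (n : ℕ) : ∑ i ∈ range n, q^i ≤ 6 * q^n := by
  induction n with
  | zero => simp
  | succ n ih =>
    rw [sum_range_succ, pow_succ]
    have : 0 < q^n := by positivity
    nlinarith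

/-- geometric sum, decaying -/
lemma geo_down {r : ℝ} (hr0 : 0 < r) (hr : r ≤ 0.72) (n : ℕ) : ∑ i ∈ range n, r^i ≤ 4 := by
  have h : (∑ i ∈ range n, r^i) * (1 - r) = 1 - r^n := by
    induction n with
    | zero => simp
    | succ n ih =>
      rw [sum_range_succ, add_mul, ih, pow_succ]
      ring
  have h1 : 0 < r^n := by positivity
  have h2 : 0 ≤ ∑ i ∈ range n, r^i := sum_nonneg fun i _ => by positivity
  nlinarith

lemma rp_i (i : ℕ) (s : ℝ) : ((2:ℝ)^i) ^ s = ((2:ℝ)^s)^i := by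
  rw [← Real.rpow_natCast, ← Real.rpow_mul (by norm_num), mul_comm, Real.rpow_mul (by norm_num), Real.rpow_natCast]

/-- the terms of the dyadic sum, small `A / 2^i` -/
lemma term_hi {A : ℝ} (hA : 0 < A) (i : ℕ) :
    (2:ℝ)^i * (A / 2^i) ^ (3/2:ℝ) = A ^ (3/2:ℝ) * (((2:ℝ)^(1/2:ℝ))⁻¹)^i := by
  rw [Real.div_rpow hA.le (by positivity), rp_i]
  have h1 : (2:ℝ)^(3/2:ℝ) = 2 * (2:ℝ)^(1/2:ℝ) := by
    rw [show (3/2:ℝ) = 1 + 1/2 by norm_num, Real.rpow_add (by norm_num), Real.rpow_one]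
  rw [h1, mul_pow, inv_pow]
  field_simp

lemma term_lo {A : ℝ} (hA : 0 < A) (i : ℕ) :
    (2:ℝ)^i * (A / 2^i) ^ (3/4:ℝ) = A ^ (3/4:ℝ) * ((2:ℝ)^(1/4:ℝ))^i := by
  rw [Real.div_rpow hA.le (by positivity), rp_i]
  have h1 : (2:ℝ) = (2:ℝ)^(3/4:ℝ) * (2:ℝ)^(1/4:ℝ) := by
    rw [← Real.rpow_add (by norm_num)]; norm_num
  have h2 : (2:ℝ)^i = ((2:ℝ)^(3/4:ℝ))^i * ((2:ℝ)^(1/4:ℝ))^i := by
    rw [← mul_pow, ← h1]
  rw [h2]
  field_simp

lemma r_bd : (((2:ℝ)^(1/2:ℝ))⁻¹) ≤ 0.72 := by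
  have h := q2_ge
  rw [inv_le_comm₀ (by positivity) (by norm_num)]
  refine le_trans ?_ h
  norm_num

/-- the dyadic sum -/
lemma dyad_sum {A : ℝ} (hA : 0 < A) (n : ℕ) :
    ∑ i ∈ range n, (2:ℝ)^i * min ((A / 2^i) ^ (3/4:ℝ)) ((A / 2^i) ^ (3/2:ℝ)) ≤ 20 * min A (A ^ (3/2:ℝ)) := by
  have hr0 : 0 < (((2:ℝ)^(1/2:ℝ))⁻¹) := by positivity
  rcases le_total A 1 with h1 | h1
  · have h2 : A ^ (3/2:ℝ) ≤ A := by
      calc A ^ (3/2:ℝ) ≤ A ^ (1:ℝ) := Real.rpow_le_rpow_of_exponent_ge hA h1 (by norm_num)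
        _ = A := Real.rpow_one A
    rw [min_eq_right h2]
    calc ∑ i ∈ range n, (2:ℝ)^i * min ((A / 2^i) ^ (3/4:ℝ)) ((A / 2^i) ^ (3/2:ℝ))
        ≤ ∑ i ∈ range n, A ^ (3/2:ℝ) * (((2:ℝ)^(1/2:ℝ))⁻¹)^i := by
          apply sum_le_sum
          intro i _
          rw [← term_hi hA]
          exact mul_le_mul_of_nonneg_left (min_le_right _ _) (by positivity)
      _ = A ^ (3/2:ℝ) * ∑ i ∈ range n, (((2:ℝ)^(1/2:ℝ))⁻¹)^i := by rw [mul_sum]
      _ ≤ A ^ (3/2:ℝ) * 4 := by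
          gcongr
          exact geo_down hr0 r_bd n
      _ ≤ 20 * A ^ (3/2:ℝ) := by
          have : 0 < A ^ (3/2:ℝ) := by positivity
          linarith
  · have h2 : A ≤ A ^ (3/2:ℝ) := by
      calc A = A ^ (1:ℝ) := (Real.rpow_one A).symm
        _ ≤ A ^ (3/2:ℝ) := Real.rpow_le_rpow_of_exponent_le h1 (by norm_num)
    rw [min_eq_left h2]
    obtain ⟨i0, hi1, hi2⟩ := exists_nat_pow_near h1 (by norm_num : (1:ℝ) < 2)
    have hA34 : 0 < A ^ (3/4:ℝ) := by positivity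
    have hA32 : 0 < A ^ (3/2:ℝ) := by positivity
    have hq := q4
    have hq0 : (0:ℝ) < (2:ℝ)^(1/4:ℝ) := by positivity
    have h3 : ∀ i : ℕ, (2:ℝ)^i * min ((A / 2^i) ^ (3/4:ℝ)) ((A / 2^i) ^ (3/2:ℝ)) ≤
        (if i < i0 + 1 then A ^ (3/4:ℝ) * ((2:ℝ)^(1/4:ℝ))^i else 0) +
        (if i0 + 1 ≤ i then A ^ (3/2:ℝ) * ((((2:ℝ)^(1/2:ℝ))⁻¹)^(i0+1) * (((2:ℝ)^(1/2:ℝ))⁻¹)^(i - (i0+1))) else 0) := by
      intro i
      by_cases hi : i < i0 + 1
      · rw [if_pos hi, if_neg (by omega), add_zero, ← term_lo hA]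
        exact mul_le_mul_of_nonneg_left (min_le_left _ _) (by positivity)
      · rw [if_neg hi, if_pos (by omega), zero_add, ← pow_add, show i0 + 1 + (i - (i0+1)) = i by omega, ← term_hi hA]
        exact mul_le_mul_of_nonneg_left (min_le_right _ _) (by positivity)
    refine (sum_le_sum fun i _ => h3 i).trans ?_
    rw [sum_add_distrib]
    have h4 : ∑ i ∈ range n, (if i < i0 + 1 then A ^ (3/4:ℝ) * ((2:ℝ)^(1/4:ℝ))^i else 0) ≤
        A ^ (3/4:ℝ) * (6 * ((2:ℝ)^(1/4:ℝ))^(i0+1)) := by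
      rw [← sum_filter]
      calc ∑ i ∈ (range n).filter (fun i => i < i0 + 1), A ^ (3/4:ℝ) * ((2:ℝ)^(1/4:ℝ))^i
          ≤ ∑ i ∈ range (i0+1), A ^ (3/4:ℝ) * ((2:ℝ)^(1/4:ℝ))^i := by
            apply sum_le_sum_of_subset_of_nonneg
            · intro i hi
              rw [mem_filter] at hi
              exact mem_range.mpr hi.2
            · intro i _ _; positivity
        _ = A ^ (3/4:ℝ) * ∑ i ∈ range (i0+1), ((2:ℝ)^(1/4:ℝ))^i := by rw [mul_sum]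
        _ ≤ _ := by
            gcongr
            exact geo_up hq _
    have h5 : ∑ i ∈ range n, (if i0 + 1 ≤ i then A ^ (3/2:ℝ) * ((((2:ℝ)^(1/2:ℝ))⁻¹)^(i0+1) * (((2:ℝ)^(1/2:ℝ))⁻¹)^(i - (i0+1))) else 0)
        ≤ A ^ (3/2:ℝ) * ((((2:ℝ)^(1/2:ℝ))⁻¹)^(i0+1) * 4) := by
      rw [← sum_filter]
      have e1 : (range n).filter (fun i => i0 + 1 ≤ i) ⊆ (range n).image (fun j => i0 + 1 + j) := by
        intro i hi
        rw [mem_filter, mem_range] at hi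
        rw [mem_image]
        exact ⟨i - (i0+1), by rw [mem_range]; omega, by omega⟩
      calc ∑ i ∈ (range n).filter (fun i => i0 + 1 ≤ i), A ^ (3/2:ℝ) * ((((2:ℝ)^(1/2:ℝ))⁻¹)^(i0+1) * (((2:ℝ)^(1/2:ℝ))⁻¹)^(i - (i0+1)))
          ≤ ∑ i ∈ (range n).image (fun j => i0 + 1 + j), A ^ (3/2:ℝ) * ((((2:ℝ)^(1/2:ℝ))⁻¹)^(i0+1) * (((2:ℝ)^(1/2:ℝ))⁻¹)^(i - (i0+1))) := by
            apply sum_le_sum_of_subset_of_nonneg e1
            intro i _ _; positivity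
        _ = ∑ j ∈ range n, A ^ (3/2:ℝ) * ((((2:ℝ)^(1/2:ℝ))⁻¹)^(i0+1) * (((2:ℝ)^(1/2:ℝ))⁻¹)^j) := by
            rw [sum_image (by intro a _ b _ hab; simpa using hab)]
            apply sum_congr rfl
            intro j _
            rw [show i0 + 1 + j - (i0 + 1) = j by omega]
        _ = A ^ (3/2:ℝ) * ((((2:ℝ)^(1/2:ℝ))⁻¹)^(i0+1) * ∑ j ∈ range n, (((2:ℝ)^(1/2:ℝ))⁻¹)^j) := by
            rw [mul_sum, mul_sum]
        _ ≤ _ := by
            gcongr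
            exact geo_down hr0 r_bd n
    have h6 : A ^ (3/4:ℝ) * (6 * ((2:ℝ)^(1/4:ℝ))^(i0+1)) ≤ 12 * A := by
      have e1 : ((2:ℝ)^(1/4:ℝ))^(i0+1) ≤ 2 * A ^ (1/4:ℝ) := by
        rw [pow_succ, ← rp_i]
        have e2 : ((2:ℝ)^i0)^(1/4:ℝ) ≤ A ^ (1/4:ℝ) := Real.rpow_le_rpow (by positivity) hi1 (by norm_num)
        have e3 : (2:ℝ)^(1/4:ℝ) ≤ 2 := by
          calc (2:ℝ)^(1/4:ℝ) ≤ (2:ℝ)^(1:ℝ) := Real.rpow_le_rpow_of_exponent_le (by norm_num) (by norm_num)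
            _ = 2 := Real.rpow_one 2
        have e4 : 0 < ((2:ℝ)^i0)^(1/4:ℝ) := by positivity
        nlinarith
      have e5 : A ^ (3/4:ℝ) * A ^ (1/4:ℝ) = A := by
        rw [← Real.rpow_add hA]; norm_num
      nlinarith
    have h7 : A ^ (3/2:ℝ) * ((((2:ℝ)^(1/2:ℝ))⁻¹)^(i0+1) * 4) ≤ 4 * A := by
      have e1 : (((2:ℝ)^(1/2:ℝ))⁻¹)^(i0+1) ≤ (A ^ (1/2:ℝ))⁻¹ := by
        rw [inv_pow, ← rp_i]
        apply inv_anti₀ (by positivity)
        exact Real.rpow_le_rpow hA.le hi2.le (by norm_num)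
      have e5 : A ^ (3/2:ℝ) * (A ^ (1/2:ℝ))⁻¹ = A := by
        rw [← Real.rpow_neg hA.le, ← Real.rpow_add hA]; norm_num
      nlinarith [mul_le_mul_of_nonneg_left e1 hA32.le]
    linarith

/-- the weighted prime sum -/
theorem prime_sum (Y : ℕ) {v : ℝ} (hv : 0 < v) {η : ℝ} (h0 : 0 ≤ η) (h1 : η ≤ 2/3) :
    ∑ p ∈ (Icc 1 Y).filter Nat.Prime, Real.log p * H (v * (p:ℝ) ^ (-(3/4):ℝ)) ≤ 60 * v ^ (4/3 + η) := by
  set A := v ^ (4/3:ℝ) with hA
  have hA0 : 0 < A := by positivity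
  have hvA : v = A ^ (3/4:ℝ) := by
    rw [hA, ← Real.rpow_mul hv.le]; norm_num
  -- fibre over the dyadic block
  have hfib : ∑ p ∈ (Icc 1 Y).filter Nat.Prime, Real.log p * H (v * (p:ℝ) ^ (-(3/4):ℝ)) =
      ∑ i ∈ range (Y + 1), ∑ p ∈ ((Icc 1 Y).filter Nat.Prime).filter (fun p => Nat.log 2 p = i),
        Real.log p * H (v * (p:ℝ) ^ (-(3/4):ℝ)) := by
    rw [sum_fiberwise_of_maps_to]
    intro p hp
    rw [mem_filter, mem_Icc] at hp
    rw [mem_range]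
    have := Nat.log_lt_self 2 (x := p) (by omega)
    omega
  rw [hfib]
  have hblk : ∀ i ∈ range (Y+1), ∑ p ∈ ((Icc 1 Y).filter Nat.Prime).filter (fun p => Nat.log 2 p = i),
        Real.log p * H (v * (p:ℝ) ^ (-(3/4):ℝ)) ≤
      3 * ((2:ℝ)^i * min ((A / 2^i) ^ (3/4:ℝ)) ((A / 2^i) ^ (3/2:ℝ))) := by
    intro i _
    have hH : H (v * ((2:ℝ)^i) ^ (-(3/4):ℝ)) = min ((A / 2^i) ^ (3/4:ℝ)) ((A / 2^i) ^ (3/2:ℝ)) := by
      have e1 : v * ((2:ℝ)^i) ^ (-(3/4):ℝ) = (A / 2^i) ^ (3/4:ℝ) := by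
        rw [Real.div_rpow hA0.le (by positivity), ← hvA, Real.rpow_neg (by positivity)]
        rfl
      unfold H
      rw [e1]
      congr 1
      rw [← Real.rpow_natCast, ← Real.rpow_mul (by positivity)]
      norm_num
    have hle : ∀ p ∈ ((Icc 1 Y).filter Nat.Prime).filter (fun p => Nat.log 2 p = i),
        Real.log p * H (v * (p:ℝ) ^ (-(3/4):ℝ)) ≤ Real.log p * H (v * ((2:ℝ)^i) ^ (-(3/4):ℝ)) := by
      intro p hp
      rw [mem_filter, mem_filter, mem_Icc] at hp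
      obtain ⟨⟨⟨hp1, hp2⟩, hpp⟩, hpi⟩ := hp
      have h2i : (2:ℝ)^i ≤ p := by
        have := Nat.pow_log_le_self 2 (x := p) (by omega)
        rw [hpi] at this
        exact_mod_cast this
      apply mul_le_mul_of_nonneg_left _ (Real.log_nonneg (by exact_mod_cast hp1))
      apply H_mono (by positivity)
      apply mul_le_mul_of_nonneg_left _ hv.le
      exact Real.rpow_le_rpow_of_nonpos (by positivity) h2i (by norm_num)
    refine (sum_le_sum hle).trans ?_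
    rw [← sum_mul, hH]
    have hmin : 0 ≤ min ((A / 2^i) ^ (3/4:ℝ)) ((A / 2^i) ^ (3/2:ℝ)) := le_min (by positivity) (by positivity)
    have hth : ∑ p ∈ ((Icc 1 Y).filter Nat.Prime).filter (fun p => Nat.log 2 p = i), Real.log p ≤ 3 * (2:ℝ)^i := by
      have t1 := Chebyshev.theta_le_log4_mul_x (x := (2:ℝ)^(i+1)) (by positivity)
      have t2 : ∑ p ∈ ((Icc 1 Y).filter Nat.Prime).filter (fun p => Nat.log 2 p = i), Real.log p ≤
          Chebyshev.theta ((2:ℝ)^(i+1)) := by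
        rw [Chebyshev.theta_eq_sum_Icc]
        have hfl : ⌊(2:ℝ)^(i+1)⌋₊ = 2^(i+1) := by
          rw [show (2:ℝ)^(i+1) = ((2^(i+1) : ℕ) : ℝ) by push_cast; rfl, Nat.floor_natCast]
        rw [hfl]
        apply sum_le_sum_of_subset_of_nonneg
        · intro p hp
          rw [mem_filter, mem_filter, mem_Icc] at hp
          obtain ⟨⟨⟨hp1, hp2⟩, hpp⟩, hpi⟩ := hp
          rw [mem_filter, mem_Icc]
          have := Nat.lt_pow_succ_log_self (b := 2) (by norm_num) p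
          rw [hpi] at this
          exact ⟨⟨by omega, this.le⟩, hpp⟩
        · intro p hp _
          rw [mem_filter] at hp
          exact Real.log_nonneg (by exact_mod_cast hp.2.one_lt.le)
      have t3 : Real.log 4 ≤ 1.4 := by
        rw [show (4:ℝ) = 2^2 by norm_num, Real.log_pow]
        have := Real.log_two_lt_d9
        push_cast; linarith
      calc _ ≤ Real.log 4 * (2:ℝ)^(i+1) := t2.trans t1
        _ ≤ 1.4 * (2:ℝ)^(i+1) := by gcongr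
        _ ≤ 3 * (2:ℝ)^i := by rw [pow_succ]; nlinarith [show (0:ℝ) < 2^i by positivity]
    calc _ ≤ (3 * (2:ℝ)^i) * min ((A / 2^i) ^ (3/4:ℝ)) ((A / 2^i) ^ (3/2:ℝ)) := by gcongr
      _ = _ := by ring
  refine (sum_le_sum hblk).trans ?_
  rw [← mul_sum]
  have h5 := dyad_sum hA0 (Y+1)
  have h6 : min A (A ^ (3/2:ℝ)) ≤ v ^ (4/3 + η) := by
    have eA : A ^ (3/2:ℝ) = v^(2:ℝ) := by
      rw [hA, ← Real.rpow_mul hv.le]; norm_num
    rcases le_total v 1 with h | h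
    · refine (min_le_right _ _).trans ?_
      rw [eA]
      exact Real.rpow_le_rpow_of_exponent_ge hv h (by linarith)
    · refine (min_le_left _ _).trans ?_
      exact Real.rpow_le_rpow_of_exponent_le h (by linarith)
  linarith

end Pool.Agent.NH14.LI
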