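import Mathlib
import Pool.Agent.H383.Reg
import Pool.Agent.Y969.TM3
import Pool.Agent.R306.GP.Sums

/-! Linear independence, gaps and integrals of trigonometric sums. -/

set_option autoImplicit false

open MeasureTheory Filter Topology Set Real
open Pool.Agent.H469R2.NK (e norm_e e_add conj_e e_zero)
open Pool.Agent.R306.GP
open Pool.Agent.H383.Gauss (sf_indep bs)
open Pool.Agent.W24.Liou (vv vv_pos liou)

namespace Pool.Agent.NH14.LI

/-- independence of square roots of squarefree numbers -/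
lemma indep {S : Finset ℕ} (hS : ∀ s ∈ S, Squarefree s) {k : ℕ → ℤ} (h : ∑ s ∈ S, (k s : ℝ) * √(s:ℝ) = 0) :
    ∀ s ∈ S, k s = 0 := by
  classical
  have h1 := linearIndependent_iff'.mp sf_indep (S.subtype Squarefree) (fun i => ((k i.1 : ℤ) : ℚ)) (by
    have e1 : ∑ i ∈ S.subtype Squarefree, ((k i.1 : ℤ) : ℚ) • bs i = ∑ i ∈ S.subtype Squarefree, ((k i.1 : ℤ) : ℝ) * √((i.1:ℕ):ℝ) := by
      apply Finset.sum_congr rfl
      intro i _
      rw [Rat.smul_def]
      unfold bs
      push_cast
      rfl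
    refine e1.trans ?_
    rw [Finset.sum_subtype_of_mem (fun s : ℕ => (k s : ℝ) * √(s:ℝ)) hS]
    exact h)
  intro s hs
  have h2 := h1 ⟨s, hS s hs⟩ (Finset.mem_subtype.mpr hs)
  exact_mod_cast h2

/-- gaps -/
lemma gap_gen {ι : Type} [Fintype ι] [DecidableEq ι] {g : ι → ℕ} (hg1 : ∀ i, 1 ≤ g i) {k : ι → ℤ} (hk : ∀ i, |k i| ≤ 1)
    {B : ℝ} (hB1 : 1 ≤ B) (hB : ∑ i, √(g i : ℝ) ≤ B) (hne : ∑ i, (k i : ℝ) * √(g i : ℝ) ≠ 0) :
    1 ≤ |∑ i, (k i : ℝ) * √(g i : ℝ)| * B ^ (2 ^ Fintype.card ι) := by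
  set c : Finset ι → ℤ := fun T => ∑ i, if ({i} : Finset ι) = T then k i else 0 with hc
  have hv : ∀ i : ι, vv g {i} = √(g i : ℝ) := by
    intro i; unfold vv; rw [Finset.prod_singleton]
  have h1 : ∑ T, (c T : ℝ) * vv g T = ∑ i, (k i : ℝ) * √(g i : ℝ) := by
    simp only [hc]
    push_cast
    simp only [Finset.sum_mul]
    rw [Finset.sum_comm]
    apply Finset.sum_congr rfl
    intro i _
    rw [Finset.sum_eq_single ({i} : Finset ι)]
    · rw [if_pos rfl, hv]
    · intro T _ hT
      rw [if_neg (Ne.symm hT), zero_mul]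
    · intro h; exact absurd (Finset.mem_univ _) h
  have h2 : ∑ T, |(c T : ℝ)| * vv g T ≤ ∑ i, √(g i : ℝ) := by
    have h3 : ∀ T, |(c T : ℝ)| * vv g T ≤ ∑ i, (if ({i} : Finset ι) = T then (1:ℝ) else 0) * vv g T := by
      intro T
      rw [← Finset.sum_mul]
      apply mul_le_mul_of_nonneg_right _ (vv_pos hg1 T).le
      simp only [hc]
      push_cast
      refine (Finset.abs_sum_le_sum_abs _ _).trans ?_
      apply Finset.sum_le_sum
      intro i _
      split_ifs
      · have := hk i
        have h4 : |((k i : ℤ) : ℝ)| ≤ 1 := by exact_mod_cast this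
        exact h4
      · simp
    refine (Finset.sum_le_sum (fun T _ => h3 T)).trans (le_of_eq ?_)
    rw [Finset.sum_comm]
    apply Finset.sum_congr rfl
    intro i _
    rw [Finset.sum_eq_single ({i} : Finset ι)]
    · rw [if_pos rfl, one_mul, hv]
    · intro T _ hT
      rw [if_neg (Ne.symm hT), zero_mul]
    · intro h; exact absurd (Finset.mem_univ _) h
  have h5 := liou hg1 c hB1 (h2.trans hB) (by rw [h1]; exact hne)
  rwa [h1] at h5

variable {a b : ℕ → ℝ} {δ c d : ℝ}

/-- integrals of trigonometric sums -/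
lemma int_gen (h : Sq a b δ) (hc : 0 < c) (hcd : c ≤ d) {ι : Type} (S : Finset ι) (cc : ι → ℂ) (w : ι → ℝ) {G : ℝ} (hG0 : 0 ≤ G)
    (hG : ∀ x ∈ S, w x ≠ 0 → 1 ≤ |w x| * G) (n : ℕ) :
    ‖(∫ y in c..d, ∑ x ∈ S, cc x * e (pt a b n y * w x)) - (d - c : ℝ) * ∑ x ∈ S, (if w x = 0 then cc x else 0)‖ ≤
      (∑ x ∈ S, ‖cc x‖) * (2 * Cp c d δ * G / pt a b n c) := by
  have hCp := Cp_pos hc hcd h.dpos
  have hpt := pt_pos h n c
  rw [intervalIntegral.integral_finsetSum, Finset.mul_sum, ← Finset.sum_sub_distrib, Finset.sum_mul]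
  · refine (norm_sum_le _ _).trans (Finset.sum_le_sum fun x hx => ?_)
    rw [intervalIntegral.integral_const_mul]
    by_cases h0 : w x = 0
    · rw [if_pos h0, h0]
      simp only [mul_zero, e_zero]
      rw [intervalIntegral.integral_const]
      simp only [Complex.real_smul, mul_one]
      rw [mul_comm (cc x), sub_self, norm_zero]
      positivity
    · rw [if_neg h0, mul_zero, sub_zero, norm_mul]
      apply mul_le_mul_of_nonneg_left _ (norm_nonneg _)
      refine (single_phase h hc hcd h0 n).trans ?_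
      have hw : 0 < |w x| := abs_pos.mpr h0
      have h1 := hG x hx h0
      rw [div_le_div_iff₀ (by positivity) hpt]
      have h2 : 2 * Cp c d δ * (pt a b n c) * 1 ≤ 2 * Cp c d δ * (pt a b n c) * (|w x| * G) :=
        mul_le_mul_of_nonneg_left h1 (by positivity)
      calc 2 * Cp c d δ * pt a b n c = 2 * Cp c d δ * pt a b n c * 1 := (mul_one _).symm
        _ ≤ 2 * Cp c d δ * (pt a b n c) * (|w x| * G) := h2
        _ = _ := by ring
  · intro x _
    exact (continuous_const.mul (e_continuous.comp ((pt_cont a b n).mul continuous_const))).intervalIntegrable _ _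

/-- two phases -/
lemma two_phase (h : Sq a b δ) (hc : 0 < c) (hcd : c ≤ d) {n m : ℕ} (hnm : n < m) {ω ω' : ℝ} (hω' : ω' ≠ 0)
    (hdom : ∀ y ∈ Icc c d, 2 * (|ω| * pt a b n y) ≤ |ω'| * pt a b m y) :
    ‖∫ y in c..d, e (pt a b n y * ω + pt a b m y * ω')‖ ≤ (4 + 6 * (d - c)) / (|ω'| * pt a b m c) := by
  have hw : 0 < |ω'| := abs_pos.mpr hω'
  have hptm := pt_pos h m c
  have han := h.one n
  have ham := h.one m
  have hanm : a n ≤ a m := by have := h.gap' hnm; have := h.dpos; linarith
  have hder : ∀ k y, HasDerivAt (pt a b k) (a k * pt a b k y) y := by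
    intro k y
    have h1 := ((hasDerivAt_id y).const_mul (a k)).exp.const_mul (b k)
    simp only [id] at h1
    exact h1.congr_deriv (by unfold pt; ring)
  have hmono : ∀ y ∈ Icc c d, pt a b m c ≤ pt a b m y := by
    intro y hy
    unfold pt
    apply mul_le_mul_of_nonneg_left _ (h.pos m).le
    apply Real.exp_le_exp.mpr
    exact mul_le_mul_of_nonneg_left hy.1 (by linarith)
  set f' : ℝ → ℝ := fun y => a n * pt a b n y * ω + a m * pt a b m y * ω' with hf'
  set f'' : ℝ → ℝ := fun y => a n ^ 2 * pt a b n y * ω + a m ^ 2 * pt a b m y * ω' with hf''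
  have hlow : ∀ y ∈ Icc c d, a m * pt a b m y * |ω'| / 2 ≤ |f' y| := by
    intro y hy
    have hpn := pt_pos h n y
    have hpm := pt_pos h m y
    have h1 := hdom y hy
    have h2 := abs_sub_abs_le_abs_sub (a m * pt a b m y * ω') (-(a n * pt a b n y * ω))
    rw [abs_neg, sub_neg_eq_add, abs_mul, abs_mul (a n * pt a b n y), abs_of_pos (by positivity : 0 < a m * pt a b m y),
      abs_of_pos (by positivity : 0 < a n * pt a b n y)] at h2
    have h3 : f' y = a m * pt a b m y * ω' + a n * pt a b n y * ω := by simp only [hf']; ring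
    rw [h3]
    have h4 : a n * pt a b n y * |ω| ≤ a m * pt a b m y * |ω'| / 2 := by
      have h5 : a n * (2 * (|ω| * pt a b n y)) ≤ a m * (|ω'| * pt a b m y) := mul_le_mul hanm h1 (by positivity) (by linarith)
      linarith
    linarith
  have hup : ∀ y ∈ Icc c d, |f'' y| ≤ 3 / 2 * (a m ^ 2 * pt a b m y * |ω'|) := by
    intro y hy
    have hpn := pt_pos h n y
    have hpm := pt_pos h m y
    have h1 := hdom y hy
    simp only [hf'']
    refine (abs_add_le _ _).trans ?_
    rw [abs_mul, abs_mul (a m ^ 2 * pt a b m y), abs_of_pos (by positivity : 0 < a m ^ 2 * pt a b m y),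
      abs_of_pos (by positivity : 0 < a n ^ 2 * pt a b n y)]
    have h4 : a n ^ 2 * pt a b n y * |ω| ≤ a m ^ 2 * pt a b m y * |ω'| / 2 := by
      have h5 : a n ^ 2 * (2 * (|ω| * pt a b n y)) ≤ a m ^ 2 * (|ω'| * pt a b m y) :=
        mul_le_mul (pow_le_pow_left₀ (by linarith) hanm 2) h1 (by positivity) (by positivity)
      linarith
    linarith
  have hD := vdc (f := fun y => pt a b n y * ω + pt a b m y * ω') (f' := f') (f'' := f'') hcd
    (l := pt a b m c * |ω'| / 2) (Q := 6 / (|ω'| * pt a b m c)) ?_ ?_ ?_ ?_ ?_ ?_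
  · refine hD.trans (le_of_eq ?_)
    field_simp
    ring
  · intro y _
    have h1 := ((hder n y).mul_const ω).add ((hder m y).mul_const ω')
    exact h1
  · intro y _
    have h1 := (((hder n y).const_mul (a n)).mul_const ω).add (((hder m y).const_mul (a m)).mul_const ω')
    exact h1.congr_deriv (by simp only [hf'']; ring)
  · have c1 := (pt_cont a b n)
    have c2 := (pt_cont a b m)
    exact Continuous.continuousOn (by simp only [hf'']; fun_prop)
  · positivity
  · intro y hy
    refine le_trans ?_ (hlow y hy)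
    have h1 := hmono y hy
    have h2 : pt a b m c * |ω'| ≤ a m * pt a b m y * |ω'| := by
      apply mul_le_mul_of_nonneg_right _ hw.le
      nlinarith
    linarith
  · intro y hy
    have hpm := pt_pos h m y
    refine (hup y hy).trans ?_
    have h1 := hlow y hy
    have h2 : (a m * pt a b m y * |ω'| / 2) ^ 2 ≤ (f' y) ^ 2 := by
      rw [← sq_abs (f' y)]
      exact pow_le_pow_left₀ (by positivity) h1 2
    have h3 := hmono y hy
    calc 3 / 2 * (a m ^ 2 * pt a b m y * |ω'|) ≤ 6 / (|ω'| * pt a b m c) * (a m * pt a b m y * |ω'| / 2) ^ 2 := by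
          rw [div_mul_eq_mul_div 6, le_div_iff₀ (by positivity)]
          have h4 : 3 / 2 * (a m ^ 2 * pt a b m y * |ω'|) * (|ω'| * pt a b m c) ≤
              3 / 2 * (a m ^ 2 * pt a b m y * |ω'|) * (|ω'| * pt a b m y) := by gcongr
          refine h4.trans (le_of_eq ?_)
          ring
      _ ≤ _ := mul_le_mul_of_nonneg_left h2 (by positivity)

end Pool.Agent.NH14.LI
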