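import Mathlib
import Pool.Agent.NH14.LI.N10

/-! Riesz products. -/

set_option autoImplicit false

open Finset
open Pool.Agent.H469R2.NK (e norm_e e_add conj_e e_zero)
open Pool.Agent.H383.Gen (U Bd)
open Pool.Agent.Y969.TM

namespace Pool.Agent.NH14.LI

/-- the exponents -/
def T3 : Finset ℤ := {-1, 0, 1}

lemma mem_T3 {j : ℤ} : j ∈ T3 ↔ |j| ≤ 1 := by
  unfold T3
  simp only [mem_insert, mem_singleton]
  rw [abs_le]
  omega

/-- coefficients -/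
noncomputable def kap (σ φ : ℝ) (j : ℤ) : ℂ :=
  if j = 0 then 1 else ((σ / 2 : ℝ) : ℂ) * Complex.exp (((-(j : ℝ) * φ : ℝ) : ℂ) * Complex.I)

variable {Q : Finset ℕ} {σ φ : ℝ}

/-- sign patterns -/
def EE (Q : Finset ℕ) : Finset (Q → ℤ) := Fintype.piFinset (fun _ => T3)

/-- coefficients -/
noncomputable def ce (σ φ : ℝ) (ε : Q → ℤ) : ℂ := ∏ q, kap σ φ (ε q)

/-- frequencies -/
noncomputable def we (ε : Q → ℤ) : ℝ := ∑ q, (ε q : ℝ) * √((q : ℕ) : ℝ)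

/-- the Riesz product -/
noncomputable def Wr (σ φ : ℝ) (Q : Finset ℕ) (R : ℝ) : ℝ := ∏ q ∈ Q, (1 + σ * Real.cos (2 * Real.pi * (R * √(q:ℝ)) - φ))

lemma factor_exp (σ φ R : ℝ) (q : ℕ) : ((1 + σ * Real.cos (2 * Real.pi * (R * √(q:ℝ)) - φ) : ℝ) : ℂ) =
    ∑ j ∈ T3, kap σ φ j * e (R * ((j:ℝ) * √(q:ℝ))) := by
  unfold T3
  rw [sum_insert (by decide), sum_insert (by decide), sum_singleton]
  unfold kap e
  rw [if_neg (by decide), if_pos rfl, if_neg (by decide)]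
  push_cast
  have h1 : Complex.cos (2 * (Real.pi:ℂ) * ((R:ℂ) * ((√(q:ℝ) : ℝ) : ℂ)) - (φ:ℂ)) =
      (Complex.exp ((2 * (Real.pi:ℂ) * ((R:ℂ) * ((√(q:ℝ) : ℝ) : ℂ)) - (φ:ℂ)) * Complex.I) +
       Complex.exp (-(2 * (Real.pi:ℂ) * ((R:ℂ) * ((√(q:ℝ) : ℝ) : ℂ)) - (φ:ℂ)) * Complex.I)) / 2 := rfl
  rw [h1]
  have h2 : (2 * (Real.pi:ℂ) * ((R:ℂ) * ((√(q:ℝ) : ℝ) : ℂ)) - (φ:ℂ)) * Complex.I =
     (-1 * (φ:ℂ)) * Complex.I + (2 * (Real.pi:ℂ) * ((R:ℂ) * (1 * ((√(q:ℝ) : ℝ) : ℂ)))) * Complex.I := by ring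
  have h3 : -(2 * (Real.pi:ℂ) * ((R:ℂ) * ((√(q:ℝ) : ℝ) : ℂ)) - (φ:ℂ)) * Complex.I =
     (- -1 * (φ:ℂ)) * Complex.I + (2 * (Real.pi:ℂ) * ((R:ℂ) * (-1 * ((√(q:ℝ) : ℝ) : ℂ)))) * Complex.I := by ring
  rw [h2, h3, Complex.exp_add, Complex.exp_add]
  simp only [zero_mul, mul_zero, Complex.exp_zero, mul_one, neg_mul, one_mul]
  ring

lemma Wr_exp (σ φ : ℝ) (Q : Finset ℕ) (R : ℝ) : ((Wr σ φ Q R : ℝ) : ℂ) = ∑ ε ∈ EE Q, ce σ φ ε * e (R * we ε) := by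
  classical
  unfold Wr
  rw [Complex.ofReal_prod, prod_congr rfl (fun q _ => factor_exp σ φ R q),
    ← prod_coe_sort Q (fun q => ∑ j ∈ T3, kap σ φ j * e (R * ((j:ℝ) * √(q:ℝ)))), prod_univ_sum]
  unfold EE
  apply sum_congr rfl
  intro ε _
  unfold ce we
  rw [prod_mul_distrib, mul_sum, e_sum]

lemma norm_kap (hσ : |σ| ≤ 1) (j : ℤ) : ‖kap σ φ j‖ ≤ 1 ∧ (j ≠ 0 → ‖kap σ φ j‖ ≤ 1/2) := by
  unfold kap
  by_cases h : j = 0
  · rw [if_pos h]; simp [h]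
  · rw [if_neg h, norm_mul, Complex.norm_exp_ofReal_mul_I, mul_one, Complex.norm_real, Real.norm_eq_abs, abs_div,
      abs_of_pos (by norm_num : (0:ℝ) < 2)]
    exact ⟨by linarith, fun _ => by linarith⟩

lemma norm_ce_le (hσ : |σ| ≤ 1) (ε : Q → ℤ) : ‖ce σ φ ε‖ ≤ 1 := by
  unfold ce
  rw [norm_prod]
  exact prod_le_one (fun _ _ => norm_nonneg _) (fun q _ => (norm_kap hσ _).1)

lemma sum_norm_ce (hσ : |σ| ≤ 1) : ∑ ε ∈ EE Q, ‖ce σ φ ε‖ ≤ 2 ^ Q.card := by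
  classical
  have h1 : ∑ ε ∈ EE Q, ‖ce σ φ ε‖ = ∏ _q : Q, ∑ j ∈ T3, ‖kap σ φ j‖ := by
    rw [prod_univ_sum]
    unfold EE ce
    apply sum_congr rfl
    intro ε _
    rw [norm_prod]
  rw [h1]
  have h2 : ∑ j ∈ T3, ‖kap σ φ j‖ ≤ 2 := by
    unfold T3
    rw [sum_insert (by decide), sum_insert (by decide), sum_singleton]
    have a1 := (norm_kap (φ := φ) hσ (-1)).2 (by decide)
    have a2 := (norm_kap (φ := φ) hσ 0).1
    have a3 := (norm_kap (φ := φ) hσ 1).2 (by decide)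
    linarith
  calc ∏ _q : Q, ∑ j ∈ T3, ‖kap σ φ j‖ ≤ ∏ _q : Q, (2:ℝ) := prod_le_prod (fun _ _ => sum_nonneg fun _ _ => norm_nonneg _) (fun _ _ => h2)
    _ = 2 ^ Q.card := by rw [prod_const, card_univ, Fintype.card_coe]

lemma Wr_nonneg (hσ : |σ| ≤ 1) (R : ℝ) : 0 ≤ Wr σ φ Q R := by
  unfold Wr
  apply prod_nonneg
  intro q _
  have h1 := Real.abs_cos_le_one (2 * Real.pi * (R * √(q:ℝ)) - φ)
  have h2 : |σ * Real.cos (2 * Real.pi * (R * √(q:ℝ)) - φ)| ≤ 1 := by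
    rw [abs_mul]
    calc |σ| * |Real.cos (2 * Real.pi * (R * √(q:ℝ)) - φ)| ≤ 1 * 1 := mul_le_mul hσ h1 (abs_nonneg _) zero_le_one
      _ = 1 := one_mul _
  have := (abs_le.mp h2).1
  linarith

lemma Wr_le (hσ : |σ| ≤ 1) (R : ℝ) : Wr σ φ Q R ≤ 2 ^ Q.card := by
  unfold Wr
  rw [← prod_const]
  apply prod_le_prod
  · intro q _
    have h1 := Real.abs_cos_le_one (2 * Real.pi * (R * √(q:ℝ)) - φ)
    have h2 : |σ * Real.cos (2 * Real.pi * (R * √(q:ℝ)) - φ)| ≤ 1 := by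
      rw [abs_mul]
      calc |σ| * |Real.cos (2 * Real.pi * (R * √(q:ℝ)) - φ)| ≤ 1 * 1 := mul_le_mul hσ h1 (abs_nonneg _) zero_le_one
        _ = 1 := one_mul _
    have := (abs_le.mp h2).1
    linarith
  · intro q _
    have h1 := Real.abs_cos_le_one (2 * Real.pi * (R * √(q:ℝ)) - φ)
    have h2 : |σ * Real.cos (2 * Real.pi * (R * √(q:ℝ)) - φ)| ≤ 1 := by
      rw [abs_mul]
      calc |σ| * |Real.cos (2 * Real.pi * (R * √(q:ℝ)) - φ)| ≤ 1 * 1 := mul_le_mul hσ h1 (abs_nonneg _) zero_le_one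
        _ = 1 := one_mul _
    have := (abs_le.mp h2).2
    linarith

lemma Wr_cont (σ φ : ℝ) (Q : Finset ℕ) : Continuous (Wr σ φ Q) := by
  unfold Wr
  fun_prop

/-- extension by zero -/
def ext (ε : Q → ℤ) (s : ℕ) : ℤ := if h : s ∈ Q then ε ⟨s, h⟩ else 0

lemma ext_mem (ε : Q → ℤ) (q : Q) : ext ε q = ε q := by
  unfold ext; rw [dif_pos q.2]

lemma ext_abs {ε : Q → ℤ} (hε : ε ∈ EE Q) (s : ℕ) : |ext ε s| ≤ 1 := by
  unfold ext
  unfold EE at hε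
  rw [Fintype.mem_piFinset] at hε
  split_ifs with h
  · exact mem_T3.mp (hε _)
  · simp

lemma we_ext (ε : Q → ℤ) {S : Finset ℕ} (hS : Q ⊆ S) : we ε = ∑ s ∈ S, (ext ε s : ℝ) * √(s:ℝ) := by
  have h1 : we ε = ∑ s ∈ Q, (ext ε s : ℝ) * √(s:ℝ) := by
    unfold we
    rw [← sum_coe_sort Q (fun s => (ext ε s : ℝ) * √(s:ℝ))]
    apply sum_congr rfl
    intro q _
    rw [ext_mem]
  rw [h1]
  apply sum_subset hS
  intro s _ hs
  unfold ext
  rw [dif_neg hs]; simp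

lemma we_inj (hQ : ∀ q ∈ Q, Squarefree q) {ε ε' : Q → ℤ} (h : we ε = we ε') : ε = ε' := by
  funext q
  have h1 : ∑ s ∈ Q, ((ext ε s - ext ε' s : ℤ) : ℝ) * √(s:ℝ) = 0 := by
    have e1 : ∑ s ∈ Q, ((ext ε s - ext ε' s : ℤ) : ℝ) * √(s:ℝ) = we ε - we ε' := by
      rw [we_ext ε (Subset.refl Q), we_ext ε' (Subset.refl Q), ← sum_sub_distrib]
      apply sum_congr rfl
      intro s _
      push_cast; ring
    rw [e1, h, sub_self]
  have h2 := indep hQ h1 q q.2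
  rw [ext_mem, ext_mem] at h2
  omega

lemma we_zero : we (fun _ : Q => (0:ℤ)) = 0 := by unfold we; simp

lemma ce_zero : ce σ φ (fun _ : Q => (0:ℤ)) = 1 := by unfold ce kap; simp

/-- the mean of the Riesz product -/
lemma Z0 (hQ : ∀ q ∈ Q, Squarefree q) : ∑ ε ∈ EE Q, (if we ε = 0 then ce σ φ ε else 0) = 1 := by
  classical
  rw [sum_eq_single (fun _ : Q => (0:ℤ))]
  · rw [if_pos we_zero, ce_zero]
  · intro ε _ hne
    rw [if_neg]
    intro h0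
    apply hne
    exact we_inj hQ (h0.trans we_zero.symm)
  · intro h
    exfalso
    apply h
    unfold EE
    rw [Fintype.mem_piFinset]
    intro q
    unfold T3; simp

/-- gaps -/
lemma gapW {r M : ℕ} (hQ : ∀ q ∈ Q, Squarefree q ∧ q ≤ M^2) {ε : Q → ℤ} (hε : ε ∈ EE Q)
    {y : Fin r → ℕ × Bool} (hy : ∀ i, y i ∈ JS M) (hne : we ε + ∑ i, fq (y i) ≠ 0) :
    1 ≤ |we ε + ∑ i, fq (y i)| * ((((Q.card + r) * M + 1 : ℕ)) : ℝ) ^ (2 ^ (Q.card + r)) := by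
  classical
  set g : Q ⊕ Fin r → ℕ := Sum.elim (fun q => (q:ℕ)) (fun i => (y i).1) with hg
  set k : Q ⊕ Fin r → ℤ := Sum.elim ε (fun i => sb (y i).2) with hk
  have hsum : ∑ i, (k i : ℝ) * √(g i : ℝ) = we ε + ∑ i, fq (y i) := by
    rw [Fintype.sum_sum_type]
    rfl
  have h1 := gap_gen (g := g) (k := k) (B := (((Q.card + r) * M + 1 : ℕ) : ℝ)) ?_ ?_ ?_ ?_ ?_
  · rw [hsum, Fintype.card_sum, Fintype.card_coe, Fintype.card_fin] at h1
    exact h1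
  · rintro (q | i)
    · exact Nat.one_le_iff_ne_zero.mpr (hQ q q.2).1.ne_zero
    · have := hy i
      unfold JS at this
      rw [mem_product, mem_Icc] at this
      exact this.1.1
  · rintro (q | i)
    · unfold EE at hε
      rw [Fintype.mem_piFinset] at hε
      exact mem_T3.mp (hε q)
    · simp only [hk, Sum.elim_inr]
      unfold sb
      split_ifs <;> simp
  · push_cast
    have : (0:ℝ) ≤ (Q.card + r) * M := by positivity
    linarith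
  · have h2 : ∀ i, √(g i : ℝ) ≤ M := by
      rintro (q | i)
      · simp only [hg, Sum.elim_inl]
        rw [Real.sqrt_le_left (Nat.cast_nonneg _)]
        exact_mod_cast (hQ q q.2).2
      · have := hy i
        unfold JS at this
        rw [mem_product, mem_Icc] at this
        simp only [hg, Sum.elim_inr]
        rw [Real.sqrt_le_left (Nat.cast_nonneg _)]
        exact_mod_cast this.1.2
    calc ∑ i, √(g i : ℝ) ≤ ∑ _i : Q ⊕ Fin r, (M:ℝ) := sum_le_sum fun i _ => h2 i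
      _ = (Q.card + r) * M := by
          rw [sum_const, card_univ, Fintype.card_sum, Fintype.card_coe, Fintype.card_fin, nsmul_eq_mul]
          push_cast; ring
      _ ≤ _ := by push_cast; linarith
  · rw [hsum]; exact hne

end Pool.Agent.NH14.LI
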