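import Mathlib
import Pool.Agent.NH14.LI.N11
import Pool.Agent.H383.Exc

/-! Zero-frequency parts of products with the Riesz product. -/

set_option autoImplicit false

open Finset
open Pool.Agent.H469R2.NK (e norm_e e_add conj_e e_zero)
open Pool.Agent.H383.Gen (U Bd)
open Pool.Agent.Y969.TM

namespace Pool.Agent.NH14.LI

variable {Q : Finset ℕ} {σ φ : ℝ}

/-- the coefficients in `Q` -/
def aQ (a : ℕ → ℝ) (Q : Finset ℕ) (m : ℕ) : ℝ := if m ∈ Q then a m else 0

/-- the coefficients outside `Q` -/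
def aR (a : ℕ → ℝ) (Q : Finset ℕ) (m : ℕ) : ℝ := if m ∈ Q then 0 else a m

lemma U_split (a : ℕ → ℝ) (Q : Finset ℕ) (R : ℝ) (M : ℕ) : U a φ R M = U (aQ a Q) φ R M + U (aR a Q) φ R M := by
  unfold U
  rw [← sum_add_distrib]
  apply sum_congr rfl
  intro m _
  unfold aQ aR
  split_ifs <;> ring

lemma cf_aR (a : ℕ → ℝ) {y : ℕ × Bool} (hy : y.1 ∈ Q) : cf (aR a Q) φ y = 0 := by
  unfold cf aR
  rw [if_pos hy]; simp

lemma cf_aQ (a : ℕ → ℝ) {y : ℕ × Bool} (hy : y.1 ∉ Q) : cf (aQ a Q) φ y = 0 := by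
  unfold cf aQ
  rw [if_neg hy]; simp

/-- one point pattern -/
def one1 (q : Q) (j : ℤ) : Q → ℤ := fun q' => if q' = q then j else 0

lemma one1_mem (q : Q) {j : ℤ} (hj : |j| ≤ 1) : one1 q j ∈ EE Q := by
  unfold EE
  rw [Fintype.mem_piFinset]
  intro q'
  unfold one1
  split_ifs
  · exact mem_T3.mpr hj
  · exact mem_T3.mpr (by simp)

lemma we_one (q : Q) (j : ℤ) : we (one1 q j) = j * √((q:ℕ):ℝ) := by
  unfold we one1
  rw [Fintype.sum_eq_single q]
  · rw [if_pos rfl]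
  · intro q' hq'
    rw [if_neg hq']; simp

lemma ce_one (q : Q) (j : ℤ) : ce σ φ (one1 q j) = kap σ φ j := by
  unfold ce one1
  rw [Fintype.prod_eq_single q]
  · rw [if_pos rfl]
  · intro q' hq'
    rw [if_neg hq']
    unfold kap; simp

lemma Z1 (a : ℕ → ℝ) {M : ℕ} (hQ : ∀ q ∈ Q, Squarefree q ∧ q ≤ M^2) :
    ∑ x ∈ EE Q ×ˢ JS M, (if we x.1 + fq x.2 = 0 then ce σ φ x.1 * cf (aQ a Q) φ x.2 else 0) =
      ((σ / 2 * ∑ q ∈ Q, a q : ℝ) : ℂ) := by
  classical
  rw [sum_product_right]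
  unfold JS
  rw [sum_product]
  have hsub : Q ⊆ Icc 1 (M^2) := by
    intro q hq
    rw [mem_Icc]
    exact ⟨Nat.one_le_iff_ne_zero.mpr (hQ q hq).1.ne_zero, (hQ q hq).2⟩
  rw [← sum_subset hsub]
  · rw [mul_sum]
    push_cast
    apply sum_congr rfl
    intro q hq
    have key : ∀ b : Bool, ∑ ε ∈ EE Q, (if we ε + fq (q, b) = 0 then ce σ φ ε * cf (aQ a Q) φ (q, b) else 0) =
        ((σ * a q / 4 : ℝ) : ℂ) := by
      intro b
      have hsb : |(-sb b)| ≤ 1 := by unfold sb; split_ifs <;> simp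
      have hw0 : we (one1 ⟨q, hq⟩ (-sb b)) + fq (q, b) = 0 := by
        rw [we_one]
        unfold fq
        push_cast
        ring
      rw [sum_eq_single (one1 ⟨q, hq⟩ (-sb b))]
      · rw [if_pos hw0, ce_one]
        unfold kap cf aQ
        rw [if_neg (by unfold sb; split_ifs <;> simp), if_pos hq]
        have h1 : Complex.exp (((-((-sb b : ℤ) : ℝ) * φ : ℝ) : ℂ) * Complex.I) *
            Complex.exp (((-(sb b : ℝ) * φ : ℝ) : ℂ) * Complex.I) = 1 := by
          rw [← Complex.exp_add]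
          have : (((-((-sb b : ℤ) : ℝ) * φ : ℝ) : ℂ) * Complex.I) + (((-(sb b : ℝ) * φ : ℝ) : ℂ) * Complex.I) = 0 := by
            push_cast; ring
          rw [this, Complex.exp_zero]
        calc _ = (((σ / 2 : ℝ) : ℂ) * ((a q / 2 : ℝ) : ℂ)) * (Complex.exp (((-((-sb b : ℤ) : ℝ) * φ : ℝ) : ℂ) * Complex.I) *
            Complex.exp (((-(sb b : ℝ) * φ : ℝ) : ℂ) * Complex.I)) := by ring
          _ = _ := by rw [h1]; push_cast; ring
      · intro ε _ hne
        rw [if_neg]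
        intro h0
        apply hne
        apply we_inj (fun q hq => (hQ q hq).1)
        linarith
      · intro h
        exact absurd (one1_mem _ hsb) h
    rw [Fintype.sum_bool, key, key]
    push_cast; ring
  · intro m _ hm
    rw [sum_eq_zero]
    intro b _
    rw [sum_eq_zero]
    intro ε _
    rw [cf_aQ a (by exact hm)]
    simp

/-- the relation of resonance -/
def Rel (y y' : ℕ × Bool) : Prop := ∃ s t t' : ℕ, Squarefree s ∧ 1 ≤ t ∧ 1 ≤ t' ∧ y.1 = s * t^2 ∧ y'.1 = s * t'^2 ∧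
  y'.2 = !y.2 ∧ (t' = t ∨ t' = t + 1 ∨ t = t' + 1)

lemma Rel.symm {y y' : ℕ × Bool} (h : Rel y y') : Rel y' y := by
  obtain ⟨s, t, t', h1, h2, h3, h4, h5, h6, h7⟩ := h
  refine ⟨s, t', t, h1, h3, h2, h5, h4, ?_, by omega⟩
  rw [h6]; simp

lemma sqf_unique {s s' t t' : ℕ} (hs : Squarefree s) (hs' : Squarefree s') (ht : 1 ≤ t) (h : s * t^2 = s' * t'^2) :
    s = s' ∧ t = t' := by
  have h1 : s = s' := Pool.Agent.H383.Gen.inC_unique (m := s * t^2) hs hs' (by
    have := Nat.pos_of_ne_zero hs.ne_zero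
    have : 0 < s * t^2 := by positivity
    omega) ⟨t, rfl⟩ ⟨t', h⟩
  refine ⟨h1, ?_⟩
  rw [h1] at h
  have h2 := Nat.eq_of_mul_eq_mul_left (Nat.pos_of_ne_zero hs'.ne_zero) h
  exact Nat.pow_left_injective (n := 2) (by norm_num) h2

open Classical in
lemma Rel_card (y : ℕ × Bool) (J : Finset (ℕ × Bool)) : (J.filter (fun y' => Rel y y')).card ≤ 3 := by
  by_cases hex : ∃ y', Rel y y'
  · obtain ⟨y0, s, t, t0, h1, h2, h3, h4, h5, h6, h7⟩ := hex
    have hsub : J.filter (fun y' => Rel y y') ⊆ ({(s * t^2, !y.2), (s * (t+1)^2, !y.2), (s * (t-1)^2, !y.2)} : Finset (ℕ × Bool)) := by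
      intro y' hy'
      rw [mem_filter] at hy'
      obtain ⟨s', u, u', g1, g2, g3, g4, g5, g6, g7⟩ := hy'.2
      obtain ⟨e1, e2⟩ := sqf_unique h1 g1 h2 (h4.symm.trans g4)
      subst e1; subst e2
      simp only [mem_insert, mem_singleton]
      have hy2 : y' = (s * u'^2, !y.2) := Prod.ext g5 g6
      rcases g7 with g | g | g
      · left; rw [hy2, g]
      · right; left; rw [hy2, g]
      · right; right
        have : u' = t - 1 := by omega
        rw [hy2, this]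
    refine (card_le_card hsub).trans ?_
    exact (card_insert_le _ _).trans (by
      have := card_insert_le (s * (t+1)^2, !y.2) ({(s * (t-1)^2, !y.2)} : Finset (ℕ × Bool))
      rw [card_singleton] at this
      omega)
  · have : J.filter (fun y' => Rel y y') = ∅ := by
      rw [filter_eq_empty_iff]
      intro y' _ hr
      exact hex ⟨y', hr⟩
    rw [this]; simp

/-- resonances -/
lemma rel_of {M : ℕ} (hQ : ∀ q ∈ Q, Squarefree q) {ε : Q → ℤ} (hε : ε ∈ EE Q) {y y' : ℕ × Bool}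
    (hy : y ∈ JS M) (hy' : y' ∈ JS M) (hyQ : y.1 ∉ Q) (hyQ' : y'.1 ∉ Q) (h : we ε + (fq y + fq y') = 0) : Rel y y' := by
  classical
  obtain ⟨m, b⟩ := y
  obtain ⟨m', b'⟩ := y'
  unfold JS at hy hy'
  rw [mem_product, mem_Icc] at hy hy'
  simp only at hy hy' hyQ hyQ'
  obtain ⟨s, t, hst, hs⟩ := Nat.sq_mul_squarefree m
  obtain ⟨s', t', hst', hs'⟩ := Nat.sq_mul_squarefree m'
  have hm : m = s * t^2 := by rw [← hst]; ring
  have hm' : m' = s' * t'^2 := by rw [← hst']; ring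
  have ht : 1 ≤ t := by
    rcases Nat.eq_zero_or_pos t with h0 | h0
    · rw [h0] at hm; simp at hm; omega
    · exact h0
  have ht' : 1 ≤ t' := by
    rcases Nat.eq_zero_or_pos t' with h0 | h0
    · rw [h0] at hm'; simp at hm'; omega
    · exact h0
  have hf : fq (m, b) = ((sb b * t : ℤ) : ℝ) * √(s:ℝ) := by
    unfold fq
    rw [hm]
    push_cast
    rw [Real.sqrt_mul (Nat.cast_nonneg s), Real.sqrt_sq (Nat.cast_nonneg t)]
    ring
  have hf' : fq (m', b') = ((sb b' * t' : ℤ) : ℝ) * √(s':ℝ) := by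
    unfold fq
    rw [hm']
    push_cast
    rw [Real.sqrt_mul (Nat.cast_nonneg s'), Real.sqrt_sq (Nat.cast_nonneg t')]
    ring
  set S : Finset ℕ := Q ∪ {s, s'} with hS
  have hSs : ∀ r ∈ S, Squarefree r := by
    intro r hr
    rw [hS, mem_union, mem_insert, mem_singleton] at hr
    rcases hr with hr | rfl | rfl
    · exact hQ r hr
    · exact hs
    · exact hs'
  have hsS : s ∈ S := by rw [hS]; simp
  have hsS' : s' ∈ S := by rw [hS]; simp
  set k : ℕ → ℤ := fun r => ext ε r + ((if r = s then sb b * t else 0) + (if r = s' then sb b' * t' else 0)) with hk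
  have hsum : ∑ r ∈ S, (k r : ℝ) * √(r:ℝ) = 0 := by
    have e1 : ∑ r ∈ S, (k r : ℝ) * √(r:ℝ) = we ε + (fq (m, b) + fq (m', b')) := by
      rw [we_ext ε (S := S) (by rw [hS]; exact subset_union_left), hf, hf']
      have e2 : ((sb b * t : ℤ) : ℝ) * √(s:ℝ) = ∑ r ∈ S, (((if r = s then sb b * t else 0 : ℤ)) : ℝ) * √(r:ℝ) := by
        rw [sum_eq_single s]
        · rw [if_pos rfl]
        · intro r _ hr
          rw [if_neg hr]; simp
        · intro hn; exact absurd hsS hn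
      have e3 : ((sb b' * t' : ℤ) : ℝ) * √(s':ℝ) = ∑ r ∈ S, (((if r = s' then sb b' * t' else 0 : ℤ)) : ℝ) * √(r:ℝ) := by
        rw [sum_eq_single s']
        · rw [if_pos rfl]
        · intro r _ hr
          rw [if_neg hr]; simp
        · intro hn; exact absurd hsS' hn
      rw [e2, e3, ← sum_add_distrib, ← sum_add_distrib]
      apply sum_congr rfl
      intro r _
      simp only [hk]
      push_cast
      ring
    rw [e1, h]
  have hall := indep hSs hsum
  have ha := ext_abs hε s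
  have ha' := ext_abs hε s'
  have hsbb : sb b = 1 ∨ sb b = -1 := by unfold sb; split_ifs <;> simp
  have hsbb' : sb b' = 1 ∨ sb b' = -1 := by unfold sb; split_ifs <;> simp
  rw [abs_le] at ha ha'
  by_cases hss : s = s'
  · subst hss
    have h1 := hall s hsS
    simp only [hk, if_true] at h1
    refine ⟨s, t, t', hs, ht, ht', hm, hm', ?_, ?_⟩
    · -- signs
      simp only
      by_contra hne
      have hbb : b' = b := by
        revert hne; cases b <;> cases b' <;> simp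
      subst hbb
      rcases hsbb with hb | hb <;> rw [hb] at h1 <;> omega
    · rcases hsbb with hb | hb <;> rcases hsbb' with hb' | hb' <;> rw [hb, hb'] at h1 <;> omega
  · exfalso
    have h1 := hall s hsS
    simp only [hk, if_true] at h1
    rw [if_neg hss] at h1
    have ht1 : t = 1 := by
      rcases hsbb with hb | hb <;> rw [hb] at h1 <;> omega
    have hne : ext ε s ≠ 0 := by
      intro h0
      rw [h0, ht1] at h1
      rcases hsbb with hb | hb <;> rw [hb] at h1 <;> omega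
    apply hyQ
    rw [hm, ht1]
    by_contra hnot
    apply hne
    unfold ext
    rw [dif_neg]
    simpa using hnot

open Classical in
lemma Z2 (hσ : |σ| ≤ 1) (a : ℕ → ℝ) {M : ℕ} (hQ : ∀ q ∈ Q, Squarefree q ∧ q ≤ M^2) :
    ‖∑ x ∈ EE Q ×ˢ (JS M ×ˢ JS M), (if we x.1 + (fq x.2.1 + fq x.2.2) = 0 then
      ce σ φ x.1 * (cf (aR a Q) φ x.2.1 * cf (aR a Q) φ x.2.2) else 0)‖ ≤ 3 / 2 * ∑ m ∈ Icc 1 (M^2), (a m)^2 := by
  have hQ1 : ∀ q ∈ Q, Squarefree q := fun q hq => (hQ q hq).1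
  rw [sum_product_right]
  refine (norm_sum_le _ _).trans ?_
  have hterm : ∀ z ∈ JS M ×ˢ JS M, ‖∑ ε ∈ EE Q, (if we ε + (fq z.1 + fq z.2) = 0 then
      ce σ φ ε * (cf (aR a Q) φ z.1 * cf (aR a Q) φ z.2) else 0)‖ ≤
      if Rel z.1 z.2 then (‖cf (aR a Q) φ z.1‖^2 + ‖cf (aR a Q) φ z.2‖^2) / 2 else 0 := by
    rintro ⟨y, y'⟩ hz
    rw [mem_product] at hz
    simp only at hz ⊢
    by_cases hq : y.1 ∈ Q
    · rw [cf_aR a hq]
      simp only [zero_mul, mul_zero, ite_self, sum_const_zero, norm_zero]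
      split_ifs <;> positivity
    by_cases hq' : y'.1 ∈ Q
    · rw [cf_aR a hq']
      simp only [mul_zero, ite_self, sum_const_zero, norm_zero]
      split_ifs <;> positivity
    by_cases hex : ∃ ε ∈ EE Q, we ε + (fq y + fq y') = 0
    · obtain ⟨ε0, hε0, h0⟩ := hex
      have hrel := rel_of hQ1 hε0 hz.1 hz.2 hq hq' h0
      rw [if_pos hrel, sum_eq_single ε0]
      · rw [if_pos h0, norm_mul, norm_mul]
        have h1 := norm_ce_le (φ := φ) hσ ε0
        have h2 : ‖ce σ φ ε0‖ * (‖cf (aR a Q) φ y‖ * ‖cf (aR a Q) φ y'‖) ≤ 1 * (‖cf (aR a Q) φ y‖ * ‖cf (aR a Q) φ y'‖) := by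
          gcongr
        nlinarith [sq_nonneg (‖cf (aR a Q) φ y‖ - ‖cf (aR a Q) φ y'‖)]
      · intro ε _ hne
        rw [if_neg]
        intro h1
        apply hne
        apply we_inj hQ1
        linarith
      · intro hn; exact absurd hε0 hn
    · push Not at hex
      rw [sum_eq_zero (fun ε hε => by rw [if_neg (hex ε hε)]), norm_zero]
      split_ifs <;> positivity
  refine (sum_le_sum hterm).trans ?_
  rw [sum_product]
  -- split in two
  have h1 : ∑ y ∈ JS M, ∑ y' ∈ JS M, (if Rel y y' then (‖cf (aR a Q) φ y‖^2 + ‖cf (aR a Q) φ y'‖^2) / 2 else 0) =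
      (∑ y ∈ JS M, ∑ y' ∈ JS M, (if Rel y y' then ‖cf (aR a Q) φ y‖^2 / 2 else 0)) +
      ∑ y ∈ JS M, ∑ y' ∈ JS M, (if Rel y y' then ‖cf (aR a Q) φ y'‖^2 / 2 else 0) := by
    rw [← sum_add_distrib]
    apply sum_congr rfl
    intro y _
    rw [← sum_add_distrib]
    apply sum_congr rfl
    intro y' _
    split_ifs <;> ring
  have h2 : ∀ y : ℕ × Bool, ∑ y' ∈ JS M, (if Rel y y' then ‖cf (aR a Q) φ y‖^2 / 2 else 0) ≤ 3 / 2 * ‖cf (aR a Q) φ y‖^2 := by
    intro y
    rw [← sum_filter, sum_const, nsmul_eq_mul]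
    have h3 : (((JS M).filter (fun y' => Rel y y')).card : ℝ) ≤ 3 := by exact_mod_cast Rel_card y (JS M)
    have h4 : 0 ≤ ‖cf (aR a Q) φ y‖^2 / 2 := by positivity
    nlinarith
  have h3 : ∑ y ∈ JS M, ‖cf (aR a Q) φ y‖^2 ≤ 1 / 2 * ∑ m ∈ Icc 1 (M^2), (a m)^2 := by
    unfold JS
    rw [sum_product, mul_sum]
    apply sum_le_sum
    intro m _
    rw [Fintype.sum_bool, norm_cf, norm_cf]
    have h4 : |aR a Q m| ≤ |a m| := by
      unfold aR
      split_ifs <;> simp
    have h5 : |aR a Q m| ^ 2 ≤ (a m)^2 := by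
      rw [← sq_abs (a m)]
      exact pow_le_pow_left₀ (abs_nonneg _) h4 2
    simp only
    nlinarith
  have h5 : ∑ y ∈ JS M, ∑ y' ∈ JS M, (if Rel y y' then ‖cf (aR a Q) φ y'‖^2 / 2 else 0) ≤
      ∑ y' ∈ JS M, 3 / 2 * ‖cf (aR a Q) φ y'‖^2 := by
    rw [sum_comm]
    apply sum_le_sum
    intro y' _
    refine le_trans (sum_le_sum fun y _ => ?_) (h2 y')
    by_cases hr : Rel y y'
    · rw [if_pos hr, if_pos hr.symm]
    · rw [if_neg hr, if_neg (fun h => hr h.symm)]
  have h6 := sum_le_sum (s := JS M) (fun y _ => h2 y)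
  rw [← mul_sum] at h5 h6
  refine (le_of_eq h1).trans ?_
  linarith

end Pool.Agent.NH14.LI
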