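import Mathlib
import Pool.Agent.NH14.LI.N12
import Pool.Agent.R306.GP.AEb

/-! Integrals of the Riesz products along the sequence. -/

set_option autoImplicit false

open MeasureTheory Filter Topology Set Real
open Pool.Agent.H469R2.NK (e norm_e e_add conj_e e_zero)
open Pool.Agent.H383.Gen (U Bd)
open Pool.Agent.Y969.TM
open Pool.Agent.R306.GP

namespace Pool.Agent.NH14.LI

variable {Q Q' : Finset ℕ} {σ φ : ℝ} {a b : ℕ → ℝ} {δ c d : ℝ} {af : ℕ → ℝ}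

/-- the gap constant -/
noncomputable def GG2 (Q : Finset ℕ) (M : ℕ) : ℝ := ((((Q.card + 2) * M + 1 : ℕ)) : ℝ) ^ (2 ^ (Q.card + 2))

lemma GG2_ge (Q : Finset ℕ) (M : ℕ) : 1 ≤ GG2 Q M := by
  unfold GG2
  apply one_le_pow₀
  push_cast
  have : (0:ℝ) ≤ (Q.card + 2) * M := by positivity
  linarith

lemma le_GG2 {r : ℕ} (hr : r ≤ 2) (M : ℕ) :
    ((((Q.card + r) * M + 1 : ℕ)) : ℝ) ^ (2 ^ (Q.card + r)) ≤ GG2 Q M := by
  unfold GG2
  have h1 : ((((Q.card + r) * M + 1 : ℕ)) : ℝ) ≤ ((((Q.card + 2) * M + 1 : ℕ)) : ℝ) := by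
    have : (Q.card + r) * M + 1 ≤ (Q.card + 2) * M + 1 := by
      have := Nat.mul_le_mul_right M (show Q.card + r ≤ Q.card + 2 by omega)
      omega
    exact_mod_cast this
  have h2 : (1:ℝ) ≤ ((((Q.card + 2) * M + 1 : ℕ)) : ℝ) := by
    have : 1 ≤ (Q.card + 2) * M + 1 := by omega
    exact_mod_cast this
  calc ((((Q.card + r) * M + 1 : ℕ)) : ℝ) ^ (2 ^ (Q.card + r)) ≤ ((((Q.card + 2) * M + 1 : ℕ)) : ℝ) ^ (2 ^ (Q.card + r)) :=
        pow_le_pow_left₀ (Nat.cast_nonneg _) h1 _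
    _ ≤ _ := pow_le_pow_right₀ h2 (Nat.pow_le_pow_right (by norm_num) (by omega))

lemma gap0 {M : ℕ} (hQ : ∀ q ∈ Q, Squarefree q ∧ q ≤ M^2) {ε : Q → ℤ} (hε : ε ∈ EE Q) (hne : we ε ≠ 0) :
    1 ≤ |we ε| * GG2 Q M := by
  have h := gapW (r := 0) hQ hε (y := fun i => i.elim0) (fun i => i.elim0) (by simpa using hne)
  simp only [Finset.univ_eq_empty, Finset.sum_empty, add_zero] at h
  refine h.trans (mul_le_mul_of_nonneg_left ?_ (abs_nonneg _))
  have := le_GG2 (Q := Q) (r := 0) (by norm_num) M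
  simpa using this

lemma gap1 {M : ℕ} (hQ : ∀ q ∈ Q, Squarefree q ∧ q ≤ M^2) {ε : Q → ℤ} (hε : ε ∈ EE Q) {y : ℕ × Bool} (hy : y ∈ JS M)
    (hne : we ε + fq y ≠ 0) : 1 ≤ |we ε + fq y| * GG2 Q M := by
  have h := gapW (r := 1) hQ hε (y := fun _ => y) (fun _ => hy) (by simpa using hne)
  simp only [Fin.sum_univ_one] at h
  exact h.trans (mul_le_mul_of_nonneg_left (le_GG2 (by norm_num) M) (abs_nonneg _))

lemma gap2 {M : ℕ} (hQ : ∀ q ∈ Q, Squarefree q ∧ q ≤ M^2) {ε : Q → ℤ} (hε : ε ∈ EE Q) {y y' : ℕ × Bool} (hy : y ∈ JS M)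
    (hy' : y' ∈ JS M) (hne : we ε + (fq y + fq y') ≠ 0) : 1 ≤ |we ε + (fq y + fq y')| * GG2 Q M := by
  have h := gapW (r := 2) hQ hε (y := ![y, y']) (by
    intro i
    fin_cases i
    · exact hy
    · exact hy') (by simpa [Fin.sum_univ_two] using hne)
  simp only [Fin.sum_univ_two, Matrix.cons_val_zero, Matrix.cons_val_one] at h
  exact h

lemma AA_aQ (M : ℕ) : AA (aQ af Q) M ≤ AA af M := by
  unfold AA
  apply Finset.sum_le_sum
  intro m _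
  unfold aQ
  split_ifs <;> simp

lemma AA_aR (M : ℕ) : AA (aR af Q) M ≤ AA af M := by
  unfold AA
  apply Finset.sum_le_sum
  intro m _
  unfold aR
  split_ifs <;> simp

/-- the error -/
noncomputable def er (af : ℕ → ℝ) (a b : ℕ → ℝ) (δ c d : ℝ) (Q : Finset ℕ) (M n : ℕ) : ℝ :=
  2 ^ Q.card * (1 + AA af M) ^ 2 * (2 * Cp c d δ * GG2 Q M / pt a b n c)

lemma er_nonneg (h : Sq a b δ) (hc : 0 < c) (hcd : c ≤ d) (M n : ℕ) : 0 ≤ er af a b δ c d Q M n := by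
  have hCp := Cp_pos hc hcd h.dpos
  have hpt := pt_pos h n c
  have h1 := AA_nonneg af M
  have h2 := GG2_ge Q M
  unfold er
  positivity

lemma W0 (hσ : |σ| ≤ 1) (h : Sq a b δ) (hc : 0 < c) (hcd : c ≤ d) {M : ℕ} (hQ : ∀ q ∈ Q, Squarefree q ∧ q ≤ M^2) (n : ℕ) :
    |(∫ y in c..d, Wr σ φ Q (pt a b n y)) - (d - c)| ≤ er af a b δ c d Q M n := by
  have hCp := Cp_pos hc hcd h.dpos
  have hpt := pt_pos h n c
  have hG := GG2_ge Q M
  have h1 := int_gen h hc hcd (EE Q) (ce σ φ) we (G := GG2 Q M) (by linarith) (fun ε hε hne => gap0 hQ hε hne) n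
  rw [Z0 (fun q hq => (hQ q hq).1), mul_one] at h1
  have h2 : (((∫ y in c..d, Wr σ φ Q (pt a b n y)) - (d - c) : ℝ) : ℂ) =
      (∫ y in c..d, ∑ x ∈ EE Q, ce σ φ x * e (pt a b n y * we x)) - ((d - c : ℝ) : ℂ) := by
    rw [Complex.ofReal_sub, ← intervalIntegral.integral_ofReal]
    congr 1
    apply intervalIntegral.integral_congr
    intro y _
    exact Wr_exp σ φ Q _
  rw [← Real.norm_eq_abs, ← Complex.norm_real, h2]
  refine h1.trans ?_
  unfold er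
  apply mul_le_mul_of_nonneg_right _ (by positivity)
  have h3 := sum_norm_ce (Q := Q) (φ := φ) hσ
  have h4 : (1:ℝ) ≤ (1 + AA af M) ^ 2 := one_le_pow₀ (by linarith [AA_nonneg af M])
  have h5 : (0:ℝ) < 2 ^ Q.card := by positivity
  nlinarith

lemma W1 (hσ : |σ| ≤ 1) (h : Sq a b δ) (hc : 0 < c) (hcd : c ≤ d) {M : ℕ} (hQ : ∀ q ∈ Q, Squarefree q ∧ q ≤ M^2) (n : ℕ) :
    |(∫ y in c..d, Wr σ φ Q (pt a b n y) * U (aQ af Q) φ (pt a b n y) M) - (d - c) * (σ / 2 * ∑ q ∈ Q, af q)| ≤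
      er af a b δ c d Q M n := by
  have hCp := Cp_pos hc hcd h.dpos
  have hpt := pt_pos h n c
  have hG := GG2_ge Q M
  have h1 := int_gen h hc hcd (EE Q ×ˢ JS M) (fun x => ce σ φ x.1 * cf (aQ af Q) φ x.2) (fun x => we x.1 + fq x.2)
    (G := GG2 Q M) (by linarith) (fun x hx hne => by
      rw [Finset.mem_product] at hx
      exact gap1 hQ hx.1 hx.2 hne) n
  rw [Z1 af hQ] at h1
  have h2 : (((∫ y in c..d, Wr σ φ Q (pt a b n y) * U (aQ af Q) φ (pt a b n y) M) - (d - c) * (σ / 2 * ∑ q ∈ Q, af q) : ℝ) : ℂ) =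
      (∫ y in c..d, ∑ x ∈ EE Q ×ˢ JS M, ce σ φ x.1 * cf (aQ af Q) φ x.2 * e (pt a b n y * (we x.1 + fq x.2))) -
        ((d - c : ℝ) : ℂ) * ((σ / 2 * ∑ q ∈ Q, af q : ℝ) : ℂ) := by
    rw [Complex.ofReal_sub, ← intervalIntegral.integral_ofReal, Complex.ofReal_mul (d - c)]
    congr 1
    apply intervalIntegral.integral_congr
    intro y _
    simp only
    rw [Complex.ofReal_mul, Wr_exp, U_exp, Finset.sum_mul_sum, Finset.sum_product]
    apply Finset.sum_congr rfl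
    intro ε _
    apply Finset.sum_congr rfl
    intro z _
    rw [mul_add, e_add]
    ring
  rw [← Real.norm_eq_abs, ← Complex.norm_real, h2]
  refine h1.trans ?_
  unfold er
  apply mul_le_mul_of_nonneg_right _ (by positivity)
  have h3 : ∑ x ∈ EE Q ×ˢ JS M, ‖ce σ φ x.1 * cf (aQ af Q) φ x.2‖ = (∑ ε ∈ EE Q, ‖ce σ φ ε‖) * ∑ y ∈ JS M, ‖cf (aQ af Q) φ y‖ := by
    rw [Finset.sum_mul_sum, Finset.sum_product]
    apply Finset.sum_congr rfl
    intro ε _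
    apply Finset.sum_congr rfl
    intro z _
    rw [norm_mul]
  rw [h3, sum_norm_cf]
  have h4 := AA_aQ (af := af) (Q := Q) M
  have h5 := AA_nonneg af M
  have h6 := sum_norm_ce (Q := Q) (φ := φ) hσ
  have h7 : ∑ m ∈ Finset.Icc 1 (M^2), |aQ af Q m| ≤ (1 + AA af M) ^ 2 := by
    refine le_trans h4 ?_
    nlinarith
  exact mul_le_mul h6 h7 (Finset.sum_nonneg fun _ _ => abs_nonneg _) (by positivity)

lemma W2 (hσ : |σ| ≤ 1) (h : Sq a b δ) (hc : 0 < c) (hcd : c ≤ d) {M : ℕ} (hQ : ∀ q ∈ Q, Squarefree q ∧ q ≤ M^2) (n : ℕ) :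
    (∫ y in c..d, Wr σ φ Q (pt a b n y) * (U (aR af Q) φ (pt a b n y) M) ^ 2) ≤
      (d - c) * (3 / 2 * ∑ m ∈ Finset.Icc 1 (M^2), (af m)^2) + er af a b δ c d Q M n := by
  have hCp := Cp_pos hc hcd h.dpos
  have hpt := pt_pos h n c
  have hG := GG2_ge Q M
  have h1 := int_gen h hc hcd (EE Q ×ˢ (JS M ×ˢ JS M)) (fun x => ce σ φ x.1 * (cf (aR af Q) φ x.2.1 * cf (aR af Q) φ x.2.2))
    (fun x => we x.1 + (fq x.2.1 + fq x.2.2))
    (G := GG2 Q M) (by linarith) (fun x hx hne => by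
      rw [Finset.mem_product, Finset.mem_product] at hx
      exact gap2 hQ hx.1 hx.2.1 hx.2.2 hne) n
  have hz := Z2 (φ := φ) hσ af hQ
  have h2 : (((∫ y in c..d, Wr σ φ Q (pt a b n y) * (U (aR af Q) φ (pt a b n y) M) ^ 2) : ℝ) : ℂ) =
      (∫ y in c..d, ∑ x ∈ EE Q ×ˢ (JS M ×ˢ JS M), ce σ φ x.1 * (cf (aR af Q) φ x.2.1 * cf (aR af Q) φ x.2.2) *
        e (pt a b n y * (we x.1 + (fq x.2.1 + fq x.2.2)))) := by
    rw [← intervalIntegral.integral_ofReal]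
    apply intervalIntegral.integral_congr
    intro y _
    simp only
    rw [Complex.ofReal_mul, Complex.ofReal_pow, Wr_exp, U_exp, pow_two, Finset.sum_mul_sum, Finset.sum_mul, Finset.sum_product]
    apply Finset.sum_congr rfl
    intro ε _
    rw [Finset.mul_sum, Finset.sum_product]
    apply Finset.sum_congr rfl
    intro z _
    rw [Finset.mul_sum]
    apply Finset.sum_congr rfl
    intro z' _
    rw [mul_add, e_add, mul_add, e_add]
    ring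
  set T : ℂ := (∫ y in c..d, ∑ x ∈ EE Q ×ˢ (JS M ×ˢ JS M), ce σ φ x.1 * (cf (aR af Q) φ x.2.1 * cf (aR af Q) φ x.2.2) *
        e (pt a b n y * (we x.1 + (fq x.2.1 + fq x.2.2)))) with hT
  have h3 : (∫ y in c..d, Wr σ φ Q (pt a b n y) * (U (aR af Q) φ (pt a b n y) M) ^ 2) ≤ ‖T‖ := by
    rw [← h2, Complex.norm_real]; exact Real.le_norm_self _
  refine h3.trans ?_
  have h4 : ∑ x ∈ EE Q ×ˢ (JS M ×ˢ JS M), ‖ce σ φ x.1 * (cf (aR af Q) φ x.2.1 * cf (aR af Q) φ x.2.2)‖ ≤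
      2 ^ Q.card * (1 + AA af M) ^ 2 := by
    have e1 : ∑ x ∈ EE Q ×ˢ (JS M ×ˢ JS M), ‖ce σ φ x.1 * (cf (aR af Q) φ x.2.1 * cf (aR af Q) φ x.2.2)‖ =
        (∑ ε ∈ EE Q, ‖ce σ φ ε‖) * ((∑ y ∈ JS M, ‖cf (aR af Q) φ y‖) * ∑ y ∈ JS M, ‖cf (aR af Q) φ y‖) := by
      rw [Finset.sum_mul_sum, Finset.sum_mul, Finset.sum_product]
      apply Finset.sum_congr rfl
      intro ε _
      rw [Finset.mul_sum, Finset.sum_product]
      apply Finset.sum_congr rfl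
      intro z _
      rw [Finset.mul_sum]
      apply Finset.sum_congr rfl
      intro z' _
      rw [norm_mul, norm_mul]
    rw [e1, sum_norm_cf]
    have h4 : ∑ m ∈ Finset.Icc 1 (M^2), |aR af Q m| ≤ AA af M := AA_aR (af := af) (Q := Q) M
    have h5 := AA_nonneg af M
    have h6 := sum_norm_ce (Q := Q) (φ := φ) hσ
    have h8 : 0 ≤ ∑ m ∈ Finset.Icc 1 (M^2), |aR af Q m| := Finset.sum_nonneg fun _ _ => abs_nonneg _
    have h7 : (∑ m ∈ Finset.Icc 1 (M^2), |aR af Q m|) * (∑ m ∈ Finset.Icc 1 (M^2), |aR af Q m|) ≤ (1 + AA af M) ^ 2 := by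
      nlinarith
    exact mul_le_mul h6 h7 (by positivity) (by positivity)
  have hnD : ‖((d - c : ℝ) : ℂ)‖ = d - c := by
    rw [Complex.norm_real, Real.norm_eq_abs, abs_of_nonneg (by linarith)]
  set Zz : ℂ := ∑ x ∈ EE Q ×ˢ (JS M ×ˢ JS M), (if we x.1 + (fq x.2.1 + fq x.2.2) = 0 then
      ce σ φ x.1 * (cf (aR af Q) φ x.2.1 * cf (aR af Q) φ x.2.2) else 0) with hZz
  calc ‖T‖ = ‖((d - c : ℝ) : ℂ) * Zz + (T - ((d - c : ℝ) : ℂ) * Zz)‖ := by congr 1; ring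
    _ ≤ ‖((d - c : ℝ) : ℂ) * Zz‖ + ‖T - ((d - c : ℝ) : ℂ) * Zz‖ := norm_add_le _ _
    _ ≤ (d - c) * (3 / 2 * ∑ m ∈ Finset.Icc 1 (M^2), (af m)^2) + er af a b δ c d Q M n := by
        apply add_le_add
        · rw [norm_mul, hnD]
          exact mul_le_mul_of_nonneg_left hz (by linarith)
        · refine h1.trans ?_
          unfold er
          exact mul_le_mul_of_nonneg_right h4 (by positivity)

end Pool.Agent.NH14.LI
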