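import Mathlib
import Pool.Agent.NH14.LI.N13

/-! Large values have positive weighted measure; correlations. -/

set_option autoImplicit false

open MeasureTheory Filter Topology Set Real
open Pool.Agent.H469R2.NK (e norm_e e_add conj_e e_zero)
open Pool.Agent.H383.Gen (U Bd)
open Pool.Agent.Y969.TM
open Pool.Agent.R306.GP

namespace Pool.Agent.NH14.LI

variable {Q Q' : Finset ℕ} {σ φ : ℝ} {a b : ℕ → ℝ} {δ c d : ℝ} {af : ℕ → ℝ}

lemma UQ_le (hpos : ∀ m, 0 ≤ af m) {M : ℕ} (hQ : ∀ q ∈ Q, Squarefree q ∧ q ≤ M^2) (R : ℝ) :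
    |U (aQ af Q) φ R M| ≤ ∑ q ∈ Q, af q := by
  have hsub : Q ⊆ Finset.Icc 1 (M^2) := by
    intro q hq
    rw [Finset.mem_Icc]
    exact ⟨Nat.one_le_iff_ne_zero.mpr (hQ q hq).1.ne_zero, (hQ q hq).2⟩
  unfold U
  refine (Finset.abs_sum_le_sum_abs _ _).trans ?_
  rw [← Finset.sum_subset hsub]
  · apply Finset.sum_le_sum
    intro q hq
    unfold aQ
    rw [if_pos hq, abs_mul, abs_of_nonneg (hpos q)]
    exact mul_le_of_le_one_right (hpos q) (Real.abs_cos_le_one _)
  · intro m _ hm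
    unfold aQ
    rw [if_neg hm]; simp

/-- the set of large values -/
def Gs (σ φ : ℝ) (af : ℕ → ℝ) (a b : ℕ → ℝ) (Q : Finset ℕ) (M n : ℕ) : Set ℝ :=
  {y | (∑ q ∈ Q, af q) / 8 ≤ σ * U af φ (pt a b n y) M}

lemma Gs_closed (M n : ℕ) : IsClosed (Gs σ φ af a b Q M n) :=
  isClosed_le continuous_const (continuous_const.mul (Upt_cont af φ a b n M))

/-- the weighted indicator -/
noncomputable def fj (σ φ : ℝ) (af : ℕ → ℝ) (a b : ℕ → ℝ) (Q : Finset ℕ) (M n : ℕ) : ℝ → ℝ :=
  (Gs σ φ af a b Q M n).indicator (fun y => Wr σ φ Q (pt a b n y))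

lemma Wpt_cont (n : ℕ) : Continuous fun y => Wr σ φ Q (pt a b n y) := (Wr_cont σ φ Q).comp (pt_cont a b n)

lemma fj_meas (M n : ℕ) : Measurable (fj σ φ af a b Q M n) :=
  (Wpt_cont n).measurable.indicator (Gs_closed M n).measurableSet

lemma fj_nonneg (hσ : |σ| ≤ 1) (M n : ℕ) (y : ℝ) : 0 ≤ fj σ φ af a b Q M n y := by
  unfold fj
  exact indicator_nonneg (fun y _ => Wr_nonneg hσ _) y

lemma fj_le (hσ : |σ| ≤ 1) (M n : ℕ) (y : ℝ) : fj σ φ af a b Q M n y ≤ Wr σ φ Q (pt a b n y) := by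
  unfold fj
  exact indicator_le_self' (fun y _ => Wr_nonneg hσ _) y

lemma fj_int (hσ : |σ| ≤ 1) (M n : ℕ) (c d : ℝ) : IntervalIntegrable (fj σ φ af a b Q M n) volume c d := by
  refine IntervalIntegrable.mono_fun ((Wpt_cont (σ := σ) (φ := φ) (Q := Q) (a := a) (b := b) n).intervalIntegrable c d)
    (fj_meas M n).aestronglyMeasurable (Eventually.of_forall fun y => ?_)
  beta_reduce
  rw [Real.norm_eq_abs, Real.norm_eq_abs, abs_of_nonneg (fj_nonneg hσ M n y), abs_of_nonneg (Wr_nonneg hσ _)]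
  exact fj_le hσ M n y

lemma win_low (hσ : σ = 1 ∨ σ = -1) (hpos : ∀ m, 0 ≤ af m) (h : Sq a b δ) (hc : 0 < c) (hcd : c ≤ d) {M : ℕ}
    (hQ : ∀ q ∈ Q, Squarefree q ∧ q ≤ M^2) (n : ℕ) {C3 : ℝ}
    (hC3 : 3 / 2 * ∑ m ∈ Finset.Icc 1 (M^2), (af m)^2 ≤ C3) (hA1 : 1 ≤ ∑ q ∈ Q, af q)
    (hA2 : 128 * C3 ≤ (∑ q ∈ Q, af q) ^ 2) (her : er af a b δ c d Q M n ≤ (d - c) / 200) :
    (d - c) / 4 ≤ ∫ y in c..d, fj σ φ af a b Q M n y := by
  have hσ1 : |σ| ≤ 1 := by rcases hσ with h | h <;> rw [h] <;> simp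
  have hσ2 : σ * σ = 1 := by rcases hσ with h | h <;> rw [h] <;> norm_num
  set A := ∑ q ∈ Q, af q with hA
  have hD : 0 ≤ d - c := by linarith
  have w0 := W0 (φ := φ) (af := af) hσ1 h hc hcd hQ n
  have w1 := W1 (φ := φ) (af := af) hσ1 h hc hcd hQ n
  have w2 := W2 (φ := φ) (af := af) hσ1 h hc hcd hQ n
  rw [abs_le] at w0 w1
  have cW := Wpt_cont (σ := σ) (φ := φ) (Q := Q) (a := a) (b := b) n
  have cUQ := Upt_cont (aQ af Q) φ a b n M
  have cUR := Upt_cont (aR af Q) φ a b n M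
  have hC30 : 0 ≤ C3 := le_trans (by positivity) hC3
  have key : ∫ y in c..d, σ * (Wr σ φ Q (pt a b n y) * U (aQ af Q) φ (pt a b n y) M) ≤
      ∫ y in c..d, (A * fj σ φ af a b Q M n y + (3 * A / 16) * Wr σ φ Q (pt a b n y) +
        (4 / A) * (Wr σ φ Q (pt a b n y) * (U (aR af Q) φ (pt a b n y) M) ^ 2)) := by
    apply intervalIntegral.integral_mono_on hcd
    · exact (continuous_const.mul (cW.mul cUQ)).intervalIntegrable _ _
    · exact (((fj_int hσ1 M n c d).const_mul A).add ((continuous_const.mul cW).intervalIntegrable _ _)).add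
        ((continuous_const.mul (cW.mul (cUR.pow 2))).intervalIntegrable _ _)
    · intro y _
      set W := Wr σ φ Q (pt a b n y) with hW
      have hW0 : 0 ≤ W := Wr_nonneg hσ1 _
      set uQ := U (aQ af Q) φ (pt a b n y) M with huQ
      set uR := U (aR af Q) φ (pt a b n y) M with huR
      have h1 : |uQ| ≤ A := UQ_le hpos hQ _
      have hsp : U af φ (pt a b n y) M = uQ + uR := U_split af Q _ M
      have hAp : 0 < A := by linarith
      have h3 : 0 ≤ (4 / A) * (W * uR ^ 2) := by positivity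
      have h4 : 0 ≤ (3 * A / 16) * W := by positivity
      by_cases hy : y ∈ Gs σ φ af a b Q M n
      · have hf : fj σ φ af a b Q M n y = W := indicator_of_mem hy _
        rw [hf]
        have h5 : σ * uQ ≤ A := by
          refine (le_abs_self _).trans ?_
          rw [abs_mul]
          calc |σ| * |uQ| ≤ 1 * A := mul_le_mul hσ1 h1 (abs_nonneg _) zero_le_one
            _ = A := one_mul _
        have h6 : σ * (W * uQ) = W * (σ * uQ) := by ring
        have h7 := mul_le_mul_of_nonneg_left h5 hW0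
        linarith
      · have hf : fj σ φ af a b Q M n y = 0 := indicator_of_notMem hy _
        rw [hf, mul_zero, zero_add]
        have h5 : σ * U af φ (pt a b n y) M < A / 8 := by
          by_contra hne
          exact hy (not_lt.mp hne)
        rw [hsp] at h5
        have h6 : |σ * uR| ≤ |uR| := by
          rw [abs_mul]
          exact mul_le_of_le_one_left (abs_nonneg _) hσ1
        have h7 := (abs_le.mp h6).1
        have h8 : |uR| ≤ A / 16 + 4 / A * uR ^ 2 := by
          rw [← sq_abs uR]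
          have e1 : A / 16 + 4 / A * |uR| ^ 2 - |uR| = (A - 8 * |uR|) ^ 2 / (16 * A) := by field_simp; ring
          have e2 : 0 ≤ (A - 8 * |uR|) ^ 2 / (16 * A) := by positivity
          linarith
        have h9 : σ * uQ ≤ 3 * A / 16 + 4 / A * uR ^ 2 := by
          have : σ * (uQ + uR) = σ * uQ + σ * uR := by ring
          linarith
        have h10 : σ * (W * uQ) = W * (σ * uQ) := by ring
        have h11 := mul_le_mul_of_nonneg_left h9 hW0
        have h12 : W * (3 * A / 16 + 4 / A * uR ^ 2) = (3 * A / 16) * W + (4 / A) * (W * uR ^ 2) := by ring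
        linarith
  have i1 : IntervalIntegrable (fun y => A * fj σ φ af a b Q M n y) volume c d := (fj_int hσ1 M n c d).const_mul A
  have i2 : IntervalIntegrable (fun y => (3 * A / 16) * Wr σ φ Q (pt a b n y)) volume c d :=
    (continuous_const.mul cW).intervalIntegrable _ _
  have i3 : IntervalIntegrable (fun y => (4 / A) * (Wr σ φ Q (pt a b n y) * (U (aR af Q) φ (pt a b n y) M) ^ 2)) volume c d :=
    (continuous_const.mul (cW.mul (cUR.pow 2))).intervalIntegrable _ _
  have i12 : IntervalIntegrable (fun y => A * fj σ φ af a b Q M n y + (3 * A / 16) * Wr σ φ Q (pt a b n y)) volume c d :=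
    i1.add i2
  rw [intervalIntegral.integral_const_mul, intervalIntegral.integral_add i12 i3,
    intervalIntegral.integral_add i1 i2,
    intervalIntegral.integral_const_mul, intervalIntegral.integral_const_mul, intervalIntegral.integral_const_mul] at key
  set I0 := ∫ y in c..d, Wr σ φ Q (pt a b n y) with hI0
  set I1 := ∫ y in c..d, Wr σ φ Q (pt a b n y) * U (aQ af Q) φ (pt a b n y) M with hI1
  set I2 := ∫ y in c..d, Wr σ φ Q (pt a b n y) * (U (aR af Q) φ (pt a b n y) M) ^ 2 with hI2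
  set IF := ∫ y in c..d, fj σ φ af a b Q M n y with hIF
  set r := er af a b δ c d Q M n with hr
  have hr0 : 0 ≤ r := er_nonneg h hc hcd M n
  set D := d - c with hDd
  have hAp : 0 < A := by linarith
  -- lower bound for σ I1
  have g1 : D * (A / 2) - r ≤ σ * I1 := by
    have e1 : σ * (D * (σ / 2 * A)) = D * (A / 2) := by
      calc σ * (D * (σ / 2 * A)) = (σ * σ) * (D * (A / 2)) := by ring
        _ = _ := by rw [hσ2, one_mul]
    have e2 : |σ * (I1 - D * (σ / 2 * A))| ≤ r := by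
      rw [abs_mul]
      have : |I1 - D * (σ / 2 * A)| ≤ r := abs_le.mpr w1
      calc |σ| * |I1 - D * (σ / 2 * A)| ≤ 1 * r := mul_le_mul hσ1 this (abs_nonneg _) zero_le_one
        _ = r := one_mul _
    have e3 := (abs_le.mp e2).1
    have e4 : σ * (I1 - D * (σ / 2 * A)) = σ * I1 - D * (A / 2) := by rw [mul_sub, e1]
    linarith
  have g2 : I0 ≤ D + r := by linarith [w0.2]
  have g3 : I2 ≤ D * C3 + r := by
    have : D * (3 / 2 * ∑ m ∈ Finset.Icc 1 (M^2), (af m)^2) ≤ D * C3 := mul_le_mul_of_nonneg_left hC3 hD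
    linarith
  have g4 : A * IF ≥ D * (A / 2) - r - (3 * A / 16) * (D + r) - (4 / A) * (D * C3 + r) := by
    have k1 : (3 * A / 16) * I0 ≤ (3 * A / 16) * (D + r) := mul_le_mul_of_nonneg_left g2 (by positivity)
    have k2 : (4 / A) * I2 ≤ (4 / A) * (D * C3 + r) := mul_le_mul_of_nonneg_left g3 (by positivity)
    linarith
  have g5 : (4 / A) * (D * C3 + r) ≤ A * (D / 32) + 4 * r := by
    have k1 : (4 / A) * (D * C3) ≤ A * (D / 32) := by
      rw [div_mul_eq_mul_div, div_le_iff₀ hAp]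
      have : 4 * (D * C3) = D * (128 * C3) / 32 := by ring
      have k3 := mul_le_mul_of_nonneg_left hA2 hD
      nlinarith
    have k2 : (4 / A) * r ≤ 4 * r := by
      apply mul_le_mul_of_nonneg_right _ hr0
      rw [div_le_iff₀ hAp]; linarith
    rw [mul_add]; linarith
  have g6 : r ≤ A * r := by nlinarith
  have g7 : A * r ≤ A * (D / 200) := mul_le_mul_of_nonneg_left her hAp.le
  have g8 : A * (D / 4) ≤ A * IF := by nlinarith
  exact le_of_mul_le_mul_left g8 hAp

lemma we_le {M : ℕ} (hQ : ∀ q ∈ Q, Squarefree q ∧ q ≤ M^2) {ε : Q → ℤ} (hε : ε ∈ EE Q) : |we ε| ≤ Q.card * M := by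
  unfold we
  refine (Finset.abs_sum_le_sum_abs _ _).trans ?_
  unfold EE at hε
  rw [Fintype.mem_piFinset] at hε
  calc ∑ q : Q, |(ε q : ℝ) * √((q:ℕ):ℝ)| ≤ ∑ _q : Q, (M:ℝ) := by
        apply Finset.sum_le_sum
        intro q _
        rw [abs_mul, abs_of_nonneg (Real.sqrt_nonneg _)]
        have h1 : |((ε q : ℤ) : ℝ)| ≤ 1 := by exact_mod_cast mem_T3.mp (hε q)
        have h2 : √((q:ℕ):ℝ) ≤ M := by
          rw [Real.sqrt_le_left (Nat.cast_nonneg _)]
          exact_mod_cast (hQ q q.2).2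
        calc |((ε q : ℤ) : ℝ)| * √((q:ℕ):ℝ) ≤ 1 * M := mul_le_mul h1 h2 (Real.sqrt_nonneg _) zero_le_one
          _ = M := one_mul _
    _ = Q.card * M := by rw [Finset.sum_const, Finset.card_univ, Fintype.card_coe, nsmul_eq_mul]

/-- correlations -/
lemma pair_W (hσ : |σ| ≤ 1) (h : Sq a b δ) (hc : 0 < c) (hcd : c ≤ d) {M M' : ℕ}
    (hQ : ∀ q ∈ Q, Squarefree q ∧ q ≤ M^2) (hQ' : ∀ q ∈ Q', Squarefree q ∧ q ≤ M'^2) {n m : ℕ} (hnm : n < m)
    (hdom : ∀ y ∈ Icc c d, 2 * (Q.card * M) * GG2 Q' M' * pt a b n y ≤ pt a b m y) :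
    |(∫ y in c..d, Wr σ φ Q (pt a b n y) * Wr σ φ Q' (pt a b m y)) - (d - c)| ≤
      2 ^ Q.card * 2 ^ Q'.card * (2 * Cp c d δ * GG2 Q M / pt a b n c + (4 + 6 * (d - c)) * GG2 Q' M' / pt a b m c) := by
  have hCp := Cp_pos hc hcd h.dpos
  have hptn := pt_pos h n c
  have hptm := pt_pos h m c
  have hG := GG2_ge Q M
  have hG' := GG2_ge Q' M'
  have hD : 0 ≤ d - c := by linarith
  set err : ℝ := 2 * Cp c d δ * GG2 Q M / pt a b n c + (4 + 6 * (d - c)) * GG2 Q' M' / pt a b m c with herr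
  have herr0 : 0 ≤ err := by positivity
  have hone : ((1:ℂ)) = (∑ ε ∈ EE Q, (if we ε = 0 then ce σ φ ε else 0)) * ∑ ε ∈ EE Q', (if we ε = 0 then ce σ φ ε else 0) := by
    rw [Z0 (fun q hq => (hQ q hq).1), Z0 (fun q hq => (hQ' q hq).1), mul_one]
  have h2 : (((∫ y in c..d, Wr σ φ Q (pt a b n y) * Wr σ φ Q' (pt a b m y)) - (d - c) : ℝ) : ℂ) =
      ∑ ε ∈ EE Q, ∑ ε' ∈ EE Q', (ce σ φ ε * ce σ φ ε') * ((∫ y in c..d, e (pt a b n y * we ε + pt a b m y * we ε')) -
        (if we ε = 0 ∧ we ε' = 0 then ((d - c : ℝ) : ℂ) else 0)) := by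
    have e1 : ((∫ y in c..d, Wr σ φ Q (pt a b n y) * Wr σ φ Q' (pt a b m y) : ℝ) : ℂ) =
        ∑ ε ∈ EE Q, ∑ ε' ∈ EE Q', (ce σ φ ε * ce σ φ ε') * ∫ y in c..d, e (pt a b n y * we ε + pt a b m y * we ε') := by
      rw [← intervalIntegral.integral_ofReal]
      have e2 : ∀ y : ℝ, ((Wr σ φ Q (pt a b n y) * Wr σ φ Q' (pt a b m y) : ℝ) : ℂ) =
          ∑ ε ∈ EE Q, ∑ ε' ∈ EE Q', (ce σ φ ε * ce σ φ ε') * e (pt a b n y * we ε + pt a b m y * we ε') := by
        intro y
        rw [Complex.ofReal_mul, Wr_exp, Wr_exp, Finset.sum_mul_sum]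
        apply Finset.sum_congr rfl
        intro ε _
        apply Finset.sum_congr rfl
        intro ε' _
        rw [e_add]; ring
      simp only [e2]
      have hcont : ∀ (ε : Q → ℤ) (ε' : Q' → ℤ), Continuous fun y => (ce σ φ ε * ce σ φ ε') * e (pt a b n y * we ε + pt a b m y * we ε') :=
        fun ε ε' => continuous_const.mul (e_continuous.comp (((pt_cont a b n).mul continuous_const).add ((pt_cont a b m).mul continuous_const)))
      rw [intervalIntegral.integral_finsetSum]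
      · apply Finset.sum_congr rfl
        intro ε _
        rw [intervalIntegral.integral_finsetSum]
        · apply Finset.sum_congr rfl
          intro ε' _
          rw [intervalIntegral.integral_const_mul]
        · intro ε' _
          exact (hcont ε ε').intervalIntegrable _ _
      · intro ε _
        exact (continuous_finsetSum _ fun ε' _ => hcont ε ε').intervalIntegrable _ _
    have e3 : ((d - c : ℝ) : ℂ) = ∑ ε ∈ EE Q, ∑ ε' ∈ EE Q', (ce σ φ ε * ce σ φ ε') *
        (if we ε = 0 ∧ we ε' = 0 then ((d - c : ℝ) : ℂ) else 0) := by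
      calc ((d - c : ℝ) : ℂ) = ((d - c : ℝ) : ℂ) * 1 := (mul_one _).symm
        _ = _ := by
          rw [hone, Finset.sum_mul_sum, Finset.mul_sum]
          apply Finset.sum_congr rfl
          intro ε _
          rw [Finset.mul_sum]
          apply Finset.sum_congr rfl
          intro ε' _
          by_cases h1 : we ε = 0 <;> by_cases h2 : we ε' = 0 <;> simp [h1, h2] <;> ring
    rw [Complex.ofReal_sub, e1]
    conv_lhs => rw [e3]
    rw [← Finset.sum_sub_distrib]
    apply Finset.sum_congr rfl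
    intro ε _
    rw [← Finset.sum_sub_distrib]
    apply Finset.sum_congr rfl
    intro ε' _
    ring
  have hterm : ∀ ε ∈ EE Q, ∀ ε' ∈ EE Q', ‖(∫ y in c..d, e (pt a b n y * we ε + pt a b m y * we ε')) -
        (if we ε = 0 ∧ we ε' = 0 then ((d - c : ℝ) : ℂ) else 0)‖ ≤ err := by
    intro ε hε ε' hε'
    by_cases h2 : we ε' = 0
    · by_cases h1 : we ε = 0
      · rw [if_pos ⟨h1, h2⟩, h1, h2]
        simp only [mul_zero, add_zero, e_zero]
        rw [intervalIntegral.integral_const]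
        simp only [Complex.real_smul, mul_one, sub_self, norm_zero]
        exact herr0
      · rw [if_neg (fun hh => h1 hh.1), sub_zero, h2]
        simp only [mul_zero, add_zero]
        refine (single_phase h hc hcd h1 n).trans ?_
        have hw : 0 < |we ε| := abs_pos.mpr h1
        have h3 := gap0 hQ hε h1
        have h4 : 2 * Cp c d δ / (|we ε| * pt a b n c) ≤ 2 * Cp c d δ * GG2 Q M / pt a b n c := by
          rw [div_le_div_iff₀ (by positivity) hptn]
          calc 2 * Cp c d δ * pt a b n c = 2 * Cp c d δ * pt a b n c * 1 := (mul_one _).symm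
            _ ≤ 2 * Cp c d δ * (pt a b n c) * (|we ε| * GG2 Q M) := mul_le_mul_of_nonneg_left h3 (by positivity)
            _ = _ := by ring
        have h5 : 0 ≤ (4 + 6 * (d - c)) * GG2 Q' M' / pt a b m c := by positivity
        rw [herr]; linarith
    · rw [if_neg (fun hh => h2 hh.2), sub_zero]
      have hw : 0 < |we ε'| := abs_pos.mpr h2
      have h3 := gap0 hQ' hε' h2
      refine (two_phase h hc hcd hnm h2 (fun y hy => ?_)).trans ?_
      · have h4 := hdom y hy
        have hpn := pt_pos h n y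
        have h5 := we_le hQ hε
        calc 2 * (|we ε| * pt a b n y) ≤ 2 * ((Q.card * M) * pt a b n y) := by gcongr
          _ = (2 * (Q.card * M) * pt a b n y) * 1 := by ring
          _ ≤ (2 * (Q.card * M) * pt a b n y) * (|we ε'| * GG2 Q' M') := by gcongr
          _ = |we ε'| * (2 * (Q.card * M) * GG2 Q' M' * pt a b n y) := by ring
          _ ≤ |we ε'| * pt a b m y := by gcongr
      · have h4 : (4 + 6 * (d - c)) / (|we ε'| * pt a b m c) ≤ (4 + 6 * (d - c)) * GG2 Q' M' / pt a b m c := by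
          rw [div_le_div_iff₀ (by positivity) hptm]
          calc (4 + 6 * (d - c)) * pt a b m c = (4 + 6 * (d - c)) * pt a b m c * 1 := (mul_one _).symm
            _ ≤ (4 + 6 * (d - c)) * pt a b m c * (|we ε'| * GG2 Q' M') := mul_le_mul_of_nonneg_left h3 (by positivity)
            _ = _ := by ring
        have h5 : 0 ≤ 2 * Cp c d δ * GG2 Q M / pt a b n c := by positivity
        rw [herr]; linarith
  rw [← Real.norm_eq_abs, ← Complex.norm_real, h2]
  calc ‖∑ ε ∈ EE Q, ∑ ε' ∈ EE Q', (ce σ φ ε * ce σ φ ε') * ((∫ y in c..d, e (pt a b n y * we ε + pt a b m y * we ε')) -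
        (if we ε = 0 ∧ we ε' = 0 then ((d - c : ℝ) : ℂ) else 0))‖
      ≤ ∑ ε ∈ EE Q, ∑ ε' ∈ EE Q', ‖ce σ φ ε‖ * ‖ce σ φ ε'‖ * err := by
        refine (norm_sum_le _ _).trans (Finset.sum_le_sum fun ε hε => (norm_sum_le _ _).trans (Finset.sum_le_sum fun ε' hε' => ?_))
        rw [norm_mul, norm_mul]
        exact mul_le_mul_of_nonneg_left (hterm ε hε ε' hε') (by positivity)
    _ = (∑ ε ∈ EE Q, ‖ce σ φ ε‖) * (∑ ε' ∈ EE Q', ‖ce σ φ ε'‖) * err := by
        rw [Finset.sum_mul_sum, Finset.sum_mul]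
        apply Finset.sum_congr rfl
        intro ε _
        rw [Finset.sum_mul]
    _ ≤ 2 ^ Q.card * 2 ^ Q'.card * err := by
        apply mul_le_mul_of_nonneg_right _ herr0
        exact mul_le_mul (sum_norm_ce hσ) (sum_norm_ce hσ) (Finset.sum_nonneg fun _ _ => norm_nonneg _) (by positivity)

end Pool.Agent.NH14.LI
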