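import Mathlib
import Pool.Agent.H452R2.Om.RepsLow

/-! Sums of `p ^ (-(1+δ))` over primes, uniformly for small `δ`. -/

set_option autoImplicit false

open Finset

namespace Pool.Agent.NH14.LI

/-- concavity: `1 - 2^(-δ) ≥ δ/2` -/
lemma one_sub_two {δ : ℝ} (h0 : 0 ≤ δ) (h1 : δ ≤ 1) : δ / 2 ≤ 1 - (2:ℝ) ^ (-δ) := by
  have h := convexOn_exp.2 (Set.mem_univ 0) (Set.mem_univ (-Real.log 2)) (sub_nonneg.mpr h1) h0 (by ring)
  simp only [smul_eq_mul, mul_zero, zero_add, Real.exp_zero, mul_one] at h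
  have e1 : Real.exp (-Real.log 2) = 1/2 := by
    rw [Real.exp_neg, Real.exp_log (by norm_num)]; norm_num
  have e2 : (2:ℝ) ^ (-δ) = Real.exp (δ * -Real.log 2) := by
    rw [Real.rpow_def_of_pos (by norm_num)]; ring_nf
  rw [e1] at h
  rw [e2]
  linarith

lemma geo_le {ρ : ℝ} (h0 : 0 ≤ ρ) (h1 : ρ < 1) (n : ℕ) : ∑ i ∈ range n, ρ^i ≤ 1 / (1 - ρ) := by
  have h : (∑ i ∈ range n, ρ^i) * (1 - ρ) = 1 - ρ^n := by
    induction n with
    | zero => simp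
    | succ n ih =>
      rw [sum_range_succ, add_mul, ih, pow_succ]
      ring
  rw [le_div_iff₀ (by linarith), h]
  have : 0 ≤ ρ^n := by positivity
  linarith

/-- dyadic summation -/
lemma dir_sum {w : ℕ → ℝ} (hw : ∀ m, 0 ≤ w m) {B : ℝ} (hB : 0 ≤ B)
    (hs : ∀ X : ℕ, 1 ≤ X → ∑ m ∈ Icc 1 X, w m ≤ B * X) {δ : ℝ} (h0 : 0 < δ) (h1 : δ ≤ 1) (X : ℕ) :
    ∑ m ∈ Icc 1 X, w m * (m:ℝ) ^ (-(1 + δ)) ≤ 4 * B / δ := by
  have hfib : ∑ m ∈ Icc 1 X, w m * (m:ℝ) ^ (-(1 + δ)) =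
      ∑ i ∈ range (X + 1), ∑ m ∈ (Icc 1 X).filter (fun m => Nat.log 2 m = i), w m * (m:ℝ) ^ (-(1 + δ)) := by
    rw [sum_fiberwise_of_maps_to]
    intro m hm
    rw [mem_Icc] at hm
    rw [mem_range]
    have := Nat.log_lt_self 2 (x := m) (by omega)
    omega
  rw [hfib]
  have hblk : ∀ i ∈ range (X+1), ∑ m ∈ (Icc 1 X).filter (fun m => Nat.log 2 m = i), w m * (m:ℝ) ^ (-(1 + δ)) ≤
      (2 * B) * ((2:ℝ) ^ (-δ)) ^ i := by
    intro i _
    calc ∑ m ∈ (Icc 1 X).filter (fun m => Nat.log 2 m = i), w m * (m:ℝ) ^ (-(1 + δ))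
        ≤ ∑ m ∈ (Icc 1 X).filter (fun m => Nat.log 2 m = i), w m * ((2:ℝ)^i) ^ (-(1 + δ)) := by
          apply sum_le_sum
          intro m hm
          rw [mem_filter, mem_Icc] at hm
          apply mul_le_mul_of_nonneg_left _ (hw m)
          apply Real.rpow_le_rpow_of_nonpos (by positivity) _ (by linarith)
          have := Nat.pow_log_le_self 2 (x := m) (by omega)
          rw [hm.2] at this
          exact_mod_cast this
      _ = (∑ m ∈ (Icc 1 X).filter (fun m => Nat.log 2 m = i), w m) * ((2:ℝ)^i) ^ (-(1 + δ)) := by rw [sum_mul]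
      _ ≤ (B * ((2^(i+1) : ℕ) : ℝ)) * ((2:ℝ)^i) ^ (-(1 + δ)) := by
          apply mul_le_mul_of_nonneg_right _ (by positivity)
          refine le_trans ?_ (hs (2^(i+1)) Nat.one_le_two_pow)
          apply sum_le_sum_of_subset_of_nonneg
          · intro m hm
            rw [mem_filter, mem_Icc] at hm
            rw [mem_Icc]
            have := Nat.lt_pow_succ_log_self (b := 2) (by norm_num) m
            rw [hm.2] at this
            exact ⟨hm.1.1, this.le⟩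
          · intro m _ _; exact hw m
      _ = (2 * B) * ((2:ℝ) ^ (-δ)) ^ i := by
          have e1 : ((2:ℝ)^i) ^ (-(1 + δ)) = ((2:ℝ)^i)⁻¹ * ((2:ℝ) ^ (-δ)) ^ i := by
            rw [show -(1+δ) = -1 + -δ by ring, Real.rpow_add (by positivity), Real.rpow_neg_one]
            congr 1
            rw [← Real.rpow_natCast, ← Real.rpow_mul (by norm_num), mul_comm, Real.rpow_mul (by norm_num), Real.rpow_natCast]
          rw [e1]
          push_cast
          rw [pow_succ]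
          field_simp
  refine (sum_le_sum hblk).trans ?_
  rw [← mul_sum]
  have h2 := one_sub_two h0.le h1
  have h3 : (0:ℝ) < (2:ℝ) ^ (-δ) := by positivity
  have h4 := geo_le h3.le (by linarith : (2:ℝ) ^ (-δ) < 1) (X+1)
  calc 2 * B * ∑ i ∈ range (X+1), ((2:ℝ) ^ (-δ)) ^ i ≤ 2 * B * (1 / (1 - (2:ℝ) ^ (-δ))) := by gcongr
    _ ≤ 2 * B * (1 / (δ / 2)) := by gcongr
    _ = 4 * B / δ := by field_simp; ring

lemma prod_inj {S T : Finset ℕ} (hS : ∀ p ∈ S, p.Prime) (hT : ∀ p ∈ T, p.Prime)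
    (h : (∏ p ∈ S, p) = ∏ p ∈ T, p) : S = T := by
  rw [← Nat.primeFactors_prod hS, ← Nat.primeFactors_prod hT, h]

/-- squares of reciprocals -/
lemma inv_sq_sum (Y : ℕ) : ∑ p ∈ Icc 1 Y, (p:ℝ) ^ (-(2:ℝ)) ≤ 2 := by
  rcases Nat.eq_zero_or_pos Y with h0 | h0
  · subst h0; simp
  have h : ∑ p ∈ Icc 1 Y, (p:ℝ) ^ (-(2:ℝ)) ≤ 2 - 1 / (Y:ℝ) := by
    induction Y, h0 using Nat.le_induction with
    | base => norm_num
    | succ n hn ih =>
      rw [sum_Icc_succ_top (by omega)]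
      have hn0 : (0:ℝ) < n := by exact_mod_cast hn
      have e1 : ((n + 1 : ℕ) : ℝ) ^ (-(2:ℝ)) = 1 / ((n:ℝ) + 1)^2 := by
        rw [Real.rpow_neg (by positivity), one_div]
        push_cast
        norm_cast
      rw [e1]
      push_cast
      have e2 : 1 / ((n:ℝ) + 1)^2 ≤ 1 / (n:ℝ) - 1 / ((n:ℝ) + 1) := by
        rw [div_sub_div _ _ (by positivity) (by positivity), div_le_div_iff₀ (by positivity) (by positivity)]
        nlinarith
      linarith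
  have : (0:ℝ) < 1 / (Y:ℝ) := by
    have : (0:ℝ) < Y := by exact_mod_cast h0
    positivity
  linarith

lemma log_one_add_ge (x : ℝ) (hx : 0 ≤ x) : x - x ^ 2 / 2 ≤ Real.log (1 + x) := by
  refine le_trans ?_ (Real.le_log_one_add_of_nonneg hx)
  rw [le_div_iff₀ (by linarith)]
  nlinarith [mul_nonneg hx hx, mul_nonneg (mul_nonneg hx hx) hx]

/-- prime sums from a Dirichlet series with nonnegative coefficients -/
theorem ps_gen (w : ℕ → ℝ) (hw : ∀ m, 0 ≤ w m) {z : ℝ} (hz : 0 < z) (Qp : ℕ → Prop) [DecidablePred Qp]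
    (hlow : ∀ S : Finset ℕ, (∀ p ∈ S, p.Prime ∧ Qp p) → z ^ S.card ≤ w (∏ p ∈ S, p)) {B : ℝ} (hB : 0 < B)
    (hs : ∀ X : ℕ, 1 ≤ X → ∑ m ∈ Icc 1 X, w m ≤ B * X) :
    ∃ C : ℝ, 0 ≤ C ∧ ∀ δ : ℝ, 0 < δ → δ ≤ 1 → ∀ Y : ℕ,
      z * ∑ p ∈ (Icc 1 Y).filter (fun p => p.Prime ∧ Qp p), (p:ℝ) ^ (-(1 + δ)) ≤ Real.log (1 / δ) + C := by
  refine ⟨|Real.log (4 * B)| + z^2, by positivity, ?_⟩
  intro δ h0 h1 Y
  set P := (Icc 1 Y).filter (fun p => p.Prime ∧ Qp p) with hP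
  have hPp : ∀ p ∈ P, p.Prime ∧ Qp p := fun p hp => (mem_filter.mp hp).2
  have e1 : ∏ p ∈ P, (1 + z * (p:ℝ) ^ (-(1 + δ))) = ∑ S ∈ P.powerset, ∏ p ∈ S, (z * (p:ℝ) ^ (-(1 + δ))) := by
    rw [prod_one_add]
  have e2 : ∀ S ∈ P.powerset, ∏ p ∈ S, (z * (p:ℝ) ^ (-(1 + δ))) ≤
      w (∏ p ∈ S, p) * ((∏ p ∈ S, p : ℕ) : ℝ) ^ (-(1 + δ)) := by
    intro S hS
    rw [mem_powerset] at hS
    rw [prod_mul_distrib, prod_const]
    have e3 : ((∏ p ∈ S, p : ℕ) : ℝ) ^ (-(1 + δ)) = ∏ p ∈ S, (p:ℝ) ^ (-(1 + δ)) := by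
      push_cast
      rw [Real.finsetProd_rpow]
      intro p _; positivity
    rw [e3]
    apply mul_le_mul_of_nonneg_right (hlow S (fun p hp => hPp p (hS hp)))
    apply prod_nonneg
    intro p _; positivity
  have e4 : ∑ S ∈ P.powerset, w (∏ p ∈ S, p) * ((∏ p ∈ S, p : ℕ) : ℝ) ^ (-(1 + δ)) ≤
      ∑ m ∈ Icc 1 (∏ p ∈ P, p), w m * (m:ℝ) ^ (-(1 + δ)) := by
    rw [← sum_image (s := P.powerset) (g := fun S => ∏ p ∈ S, p) (f := fun m => w m * (m:ℝ) ^ (-(1 + δ)))]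
    · apply sum_le_sum_of_subset_of_nonneg
      · intro m hm
        rw [mem_image] at hm
        obtain ⟨S, hS, rfl⟩ := hm
        rw [mem_powerset] at hS
        rw [mem_Icc]
        constructor
        · exact Nat.one_le_iff_ne_zero.mpr (prod_ne_zero_iff.mpr fun p hp => (hPp p (hS hp)).1.ne_zero)
        · apply Nat.le_of_dvd (Nat.pos_of_ne_zero (prod_ne_zero_iff.mpr fun p hp => (hPp p hp).1.ne_zero))
          exact prod_dvd_prod_of_subset _ _ _ hS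
      · intro m _ _
        have := hw m
        positivity
    · intro S hS T hT h
      rw [mem_coe, mem_powerset] at hS hT
      exact prod_inj (fun p hp => (hPp p (hS hp)).1) (fun p hp => (hPp p (hT hp)).1) h
  have e5 := dir_sum hw hB.le hs h0 h1 (∏ p ∈ P, p)
  have e6 : ∏ p ∈ P, (1 + z * (p:ℝ) ^ (-(1 + δ))) ≤ 4 * B / δ := by
    rw [e1]; exact (sum_le_sum e2).trans (e4.trans e5)
  have hpos : ∀ p ∈ P, 0 < 1 + z * (p:ℝ) ^ (-(1 + δ)) := by
    intro p _; positivity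
  have e7 := Real.log_le_log (prod_pos hpos) e6
  rw [Real.log_prod (fun p hp => (hpos p hp).ne')] at e7
  have e8 : ∀ p ∈ P, z * (p:ℝ) ^ (-(1 + δ)) - z^2/2 * (p:ℝ) ^ (-(2:ℝ)) ≤ Real.log (1 + z * (p:ℝ) ^ (-(1 + δ))) := by
    intro p hp
    have hp1 : (1:ℝ) ≤ p := by
      exact_mod_cast (hPp p hp).1.one_lt.le
    set x := z * (p:ℝ) ^ (-(1 + δ)) with hx
    have hx0 : 0 ≤ x := by positivity
    have h3 : x - x^2/2 ≤ Real.log (1 + x) := log_one_add_ge x hx0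
    have h4 : x^2 ≤ z^2 * (p:ℝ) ^ (-(2:ℝ)) := by
      rw [hx, mul_pow]
      apply mul_le_mul_of_nonneg_left _ (by positivity)
      rw [← Real.rpow_natCast, ← Real.rpow_mul (by positivity)]
      apply Real.rpow_le_rpow_of_exponent_le hp1
      push_cast; linarith
    linarith
  have e9 := (sum_le_sum e8).trans e7
  rw [sum_sub_distrib, ← mul_sum, ← mul_sum] at e9
  have e10 : ∑ p ∈ P, (p:ℝ) ^ (-(2:ℝ)) ≤ 2 := by
    refine le_trans ?_ (inv_sq_sum Y)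
    apply sum_le_sum_of_subset_of_nonneg (filter_subset _ _)
    intro p _ _; positivity
  have e11 : Real.log (4 * B / δ) = Real.log (4 * B) + Real.log (1 / δ) := by
    rw [← Real.log_mul (by positivity) (by positivity)]
    congr 1; ring
  rw [e11] at e9
  have := le_abs_self (Real.log (4 * B))
  nlinarith [sq_nonneg z]

open Pool.Agent.H383.Gauss in
/-- linear bound for the sum of the number of representations -/
lemma rA_sum (X : ℕ) (hX : 1 ≤ X) : ∑ m ∈ Icc 1 X, rA m ≤ 25 * X := by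
  classical
  set Y := Nat.sqrt X + 1 with hY
  have hXY : X ≤ Y^2 := by
    have := Nat.lt_succ_sqrt' X
    rw [hY]; exact this.le
  have h1 : ∑ m ∈ Icc 1 X, rA m ≤ ∑ m ∈ Icc 1 (Y^2), rA m := by
    apply sum_le_sum_of_subset_of_nonneg
    · intro m hm
      rw [mem_Icc] at hm ⊢
      exact ⟨hm.1, hm.2.trans hXY⟩
    · intro m _ _; exact rA_nonneg m
  have h2 : ∑ m ∈ Icc 1 (Y^2), rA m ≤ ((ballS (Y:ℝ)).card : ℝ) := by
    have h3 : ∀ m ∈ Icc 1 (Y^2), rA m = (((((ballS (Y:ℝ)).erase 0).filter (fun p => N2 p = m)).card : ℕ) : ℝ) := by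
      intro m hm
      rw [mem_Icc] at hm
      rw [fiber_card Y m hm.2, if_neg (by omega)]
    rw [sum_congr rfl h3, ← Nat.cast_sum]
    norm_cast
    rw [← card_biUnion]
    · apply card_le_card
      intro p hp
      rw [mem_biUnion] at hp
      obtain ⟨m, _, hm⟩ := hp
      exact mem_of_mem_erase (mem_filter.mp hm).1
    · intro i _ j _ hij
      simp only [Function.onFun]
      rw [disjoint_left]
      intro p hp hp'
      rw [mem_filter] at hp hp'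
      exact hij (hp.2.symm.trans hp'.2)
  have h4 : ((ballS (Y:ℝ)).card : ℝ) ≤ (2 * Y + 1)^2 := by
    have h5 : (ballS (Y:ℝ)).card ≤ (2 * Y + 1)^2 := by
      unfold ballS
      refine (card_filter_le _ _).trans ?_
      rw [card_product, Int.card_Icc]
      rw [Int.ceil_natCast]
      have : ((Y:ℤ) + 1 - -(Y:ℤ)).toNat = 2 * Y + 1 := by omega
      rw [this, sq]
    exact_mod_cast h5
  have h6 : (Y:ℝ) ≤ 2 * √(X:ℝ) := by
    have h7 : (Nat.sqrt X : ℝ) ≤ √(X:ℝ) := Real.nat_sqrt_le_real_sqrt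
    have h8 : (1:ℝ) ≤ √(X:ℝ) := by
      rw [Real.one_le_sqrt]; exact_mod_cast hX
    rw [hY]; push_cast; linarith
  have h9 : (1:ℝ) ≤ √(X:ℝ) := by
    rw [Real.one_le_sqrt]; exact_mod_cast hX
  have h10 : √(X:ℝ)^2 = X := Real.sq_sqrt (Nat.cast_nonneg X)
  have h11 : (0:ℝ) ≤ Y := Nat.cast_nonneg Y
  nlinarith

open Pool.Agent.H383.Gauss in
/-- sums over the primes `1 mod 4` -/
theorem ps_one : ∃ C : ℝ, 0 ≤ C ∧ ∀ δ : ℝ, 0 < δ → δ ≤ 1 → ∀ Y : ℕ,
    2 * ∑ p ∈ (Icc 1 Y).filter (fun p => p.Prime ∧ p % 4 = 1), (p:ℝ) ^ (-(1 + δ)) ≤ Real.log (1 / δ) + C := by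
  exact ps_gen rA rA_nonneg (by norm_num) (fun p => p % 4 = 1)
    (fun S hS => Pool.Agent.H452R2.Om.rA_prod_ge S hS) (by norm_num : (0:ℝ) < 25) rA_sum

/-- sums over all primes -/
theorem ps_all : ∃ C : ℝ, 0 ≤ C ∧ ∀ δ : ℝ, 0 < δ → δ ≤ 1 → ∀ Y : ℕ,
    ∑ p ∈ (Icc 1 Y).filter (fun p => p.Prime ∧ True), (p:ℝ) ^ (-(1 + δ)) ≤ Real.log (1 / δ) + C := by
  obtain ⟨C, hC, h⟩ := ps_gen (fun _ => 1) (fun _ => zero_le_one) (z := 1) one_pos (fun _ => True)
    (fun S _ => by simp) (by norm_num : (0:ℝ) < 1) (fun X _ => by simp)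
  refine ⟨C, hC, fun δ h0 h1 Y => ?_⟩
  have := h δ h0 h1 Y
  rwa [one_mul] at this

end Pool.Agent.NH14.LI
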