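import Mathlib
import Pool.Agent.NH14.LI.N1
import Pool.Agent.NH14.LI.N2

/-! The sum over squarefree numbers which controls the moment generating function of the model. -/

set_option autoImplicit false

open Finset

namespace Pool.Agent.NH14.LI

/-- squarefree numbers up to `Y` with all prime factors satisfying `Qp` -/
def TQ (Qp : ℕ → Prop) [DecidablePred Qp] (Y : ℕ) : Finset ℕ :=
  (Icc 1 Y).filter (fun s => Squarefree s ∧ ∀ p ∈ s.primeFactors, Qp p)

/-- growth of the prime sums -/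
def PS (Qp : ℕ → Prop) [DecidablePred Qp] (b : ℝ) : Prop := ∃ C : ℝ, 0 ≤ C ∧ ∀ δ : ℝ, 0 < δ → δ ≤ 1 → ∀ Y : ℕ,
    ∑ p ∈ (Icc 1 Y).filter (fun p => p.Prime ∧ Qp p), (p:ℝ) ^ (-(1 + δ)) ≤ b * Real.log (1 / δ) + C

variable {Qp : ℕ → Prop} [DecidablePred Qp]

/-- the prime part of the argument -/
noncomputable def us (l : ℝ) (s : ℕ) : ℝ := l * ((2:ℝ) ^ s.primeFactors.card * (s:ℝ) ^ (-(3/4):ℝ))

lemma us_nonneg {l : ℝ} (hl : 0 ≤ l) (s : ℕ) : 0 ≤ us l s := by unfold us; positivity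

/-- Rankin product -/
lemma rankin {k σ : ℝ} (Y : ℕ) :
    ∑ s ∈ TQ Qp Y, ((2:ℝ) ^ s.primeFactors.card) ^ k * (s:ℝ) ^ (-(1 + σ)) ≤
      Real.exp ((2:ℝ)^k * ∑ p ∈ (Icc 1 Y).filter (fun p => p.Prime ∧ Qp p), (p:ℝ) ^ (-(1 + σ))) := by
  classical
  set P := (Icc 1 Y).filter (fun p => p.Prime ∧ Qp p) with hP
  have h1 : ∀ s ∈ TQ Qp Y, ((2:ℝ) ^ s.primeFactors.card) ^ k * (s:ℝ) ^ (-(1 + σ)) =
      ∏ p ∈ s.primeFactors, ((2:ℝ)^k * (p:ℝ) ^ (-(1 + σ))) := by
    intro s hs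
    unfold TQ at hs
    rw [mem_filter] at hs
    rw [prod_mul_distrib, prod_const]
    congr 1
    · rw [← Real.rpow_natCast, ← Real.rpow_mul (by norm_num), mul_comm, Real.rpow_mul (by norm_num), Real.rpow_natCast]
    · rw [Real.finsetProd_rpow _ _ (fun p _ => by positivity)]
      congr 1
      have h0 := congrArg (fun n : ℕ => (n:ℝ)) (Nat.prod_primeFactors_of_squarefree hs.2.1)
      simp only [Nat.cast_prod] at h0
      exact h0.symm
  rw [sum_congr rfl h1]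
  have hinj : Set.InjOn Nat.primeFactors (TQ Qp Y : Set ℕ) := by
    intro s hs t ht h
    rw [mem_coe] at hs ht
    unfold TQ at hs ht
    rw [mem_filter] at hs ht
    rw [← Nat.prod_primeFactors_of_squarefree hs.2.1, ← Nat.prod_primeFactors_of_squarefree ht.2.1, h]
  rw [← sum_image (f := fun S : Finset ℕ => ∏ p ∈ S, ((2:ℝ)^k * (p:ℝ) ^ (-(1 + σ)))) hinj]
  have h2 : (TQ Qp Y).image Nat.primeFactors ⊆ P.powerset := by
    intro S hS
    rw [mem_image] at hS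
    obtain ⟨s, hs, rfl⟩ := hS
    unfold TQ at hs
    rw [mem_filter, mem_Icc] at hs
    rw [mem_powerset]
    intro p hp
    rw [hP, mem_filter, mem_Icc]
    have hpp := Nat.prime_of_mem_primeFactors hp
    exact ⟨⟨hpp.one_lt.le, (Nat.le_of_mem_primeFactors hp).trans hs.1.2⟩, hpp, hs.2.2 p hp⟩
  calc ∑ S ∈ (TQ Qp Y).image Nat.primeFactors, ∏ p ∈ S, ((2:ℝ)^k * (p:ℝ) ^ (-(1 + σ)))
      ≤ ∑ S ∈ P.powerset, ∏ p ∈ S, ((2:ℝ)^k * (p:ℝ) ^ (-(1 + σ))) := by
        apply sum_le_sum_of_subset_of_nonneg h2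
        intro S _ _
        exact prod_nonneg fun p _ => by positivity
    _ = ∏ p ∈ P, (1 + (2:ℝ)^k * (p:ℝ) ^ (-(1 + σ))) := by rw [prod_one_add]
    _ ≤ ∏ p ∈ P, Real.exp ((2:ℝ)^k * (p:ℝ) ^ (-(1 + σ))) := by
        apply prod_le_prod
        · intro p _; positivity
        · intro p _
          rw [add_comm]; exact Real.add_one_le_exp _
    _ = _ := by rw [← Real.exp_sum, ← mul_sum]

/-- the logarithmic weight -/
lemma log_weight {l η : ℝ} (hl : 0 < l) (h0 : 0 ≤ η) (h1 : η ≤ 2/3) (Y : ℕ) :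
    ∑ s ∈ TQ Qp Y, H (us l s) * Real.log s ≤ ∑ s ∈ TQ Qp Y, 60 * (2 * us l s) ^ (4/3 + η) := by
  classical
  have h2 : ∀ s ∈ TQ Qp Y, H (us l s) * Real.log s =
      ∑ p ∈ s.primeFactors, Real.log p * H ((2 * us l (s/p)) * (p:ℝ) ^ (-(3/4):ℝ)) := by
    intro s hs
    unfold TQ at hs
    rw [mem_filter, mem_Icc] at hs
    have e1 : Real.log s = ∑ p ∈ s.primeFactors, Real.log p := by
      rw [← Real.log_prod (fun p hp => by
        have := (Nat.prime_of_mem_primeFactors hp).ne_zero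
        exact_mod_cast this)]
      congr 1
      have h0 := congrArg (fun n : ℕ => (n:ℝ)) (Nat.prod_primeFactors_of_squarefree hs.2.1)
      simp only [Nat.cast_prod] at h0
      exact h0.symm
    rw [e1, mul_sum]
    apply sum_congr rfl
    intro p hp
    rw [mul_comm]
    congr 2
    have hpp := Nat.prime_of_mem_primeFactors hp
    have hps := Nat.dvd_of_mem_primeFactors hp
    obtain ⟨t, rfl⟩ := hps
    rw [Nat.mul_div_cancel_left _ hpp.pos]
    have hco : Nat.Coprime p t := (Nat.squarefree_mul_iff.mp hs.2.1).1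
    have hcard : (p * t).primeFactors.card = t.primeFactors.card + 1 := by
      rw [hco.primeFactors_mul, card_union_of_disjoint hco.disjoint_primeFactors, hpp.primeFactors, card_singleton]
      ring
    unfold us
    rw [hcard]
    push_cast
    rw [Real.mul_rpow (by positivity) (by positivity), pow_succ]
    ring
  rw [sum_congr rfl h2]
  have h3 : ∀ s ∈ TQ Qp Y, (∑ p ∈ (Icc 1 Y).filter Nat.Prime, Real.log p * H ((2 * us l s) * (p:ℝ) ^ (-(3/4):ℝ))) ≤
      60 * (2 * us l s) ^ (4/3 + η) := by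
    intro s hs
    unfold TQ at hs
    rw [mem_filter, mem_Icc] at hs
    have hs0 : (0:ℝ) < s := by exact_mod_cast hs.1.1
    apply prime_sum Y _ h0 h1
    unfold us; positivity
  refine le_trans ?_ (sum_le_sum h3)
  rw [sum_sigma', ← sum_product']
  set Fn : ℕ × ℕ → ℝ := fun x => Real.log x.2 * H ((2 * us l x.1) * (x.2:ℝ) ^ (-(3/4):ℝ)) with hFn
  set g : (Σ _ : ℕ, ℕ) → ℕ × ℕ := fun x => (x.1 / x.2, x.2) with hg
  have hmem : ∀ x ∈ (TQ Qp Y).sigma (fun s => s.primeFactors), g x ∈ (TQ Qp Y) ×ˢ ((Icc 1 Y).filter Nat.Prime) := by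
    rintro ⟨s, p⟩ hx
    rw [mem_sigma] at hx
    obtain ⟨hs, hp⟩ := hx
    simp only at hs hp
    unfold TQ at hs
    rw [mem_filter, mem_Icc] at hs
    have hpp := Nat.prime_of_mem_primeFactors hp
    have hps := Nat.dvd_of_mem_primeFactors hp
    simp only [hg]
    rw [mem_product, mem_filter, mem_Icc]
    refine ⟨?_, ⟨hpp.one_lt.le, (Nat.le_of_mem_primeFactors hp).trans hs.1.2⟩, hpp⟩
    simp only
    obtain ⟨t, rfl⟩ := hps
    rw [Nat.mul_div_cancel_left _ hpp.pos]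
    unfold TQ
    rw [mem_filter, mem_Icc]
    have ht0 : t ≠ 0 := by
      rintro rfl
      simp at hs
    refine ⟨⟨Nat.one_le_iff_ne_zero.mpr ht0, ?_⟩, ?_, ?_⟩
    · exact (Nat.le_mul_of_pos_left t hpp.pos).trans hs.1.2
    · exact (Nat.squarefree_mul_iff.mp hs.2.1).2.2
    · intro r hr
      apply hs.2.2
      rw [Nat.primeFactors_mul hpp.ne_zero ht0]
      exact mem_union_right _ hr
  have hinj : Set.InjOn g ((TQ Qp Y).sigma (fun s => s.primeFactors) : Set (Σ _ : ℕ, ℕ)) := by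
    rintro ⟨s, p⟩ hx ⟨s', p'⟩ hx' h
    rw [mem_coe, mem_sigma] at hx hx'
    simp only [hg, Prod.mk.injEq] at h
    obtain ⟨h4, rfl⟩ := h
    have e1 := Nat.div_mul_cancel (Nat.dvd_of_mem_primeFactors hx.2)
    have e2 := Nat.div_mul_cancel (Nat.dvd_of_mem_primeFactors hx'.2)
    simp only at e1 e2
    rw [← e1, ← e2, h4]
  calc ∑ x ∈ (TQ Qp Y).sigma (fun s => s.primeFactors), Real.log x.2 * H ((2 * us l (x.1 / x.2)) * (x.2:ℝ) ^ (-(3/4):ℝ))
      = ∑ x ∈ (TQ Qp Y).sigma (fun s => s.primeFactors), Fn (g x) := rfl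
    _ = ∑ y ∈ ((TQ Qp Y).sigma (fun s => s.primeFactors)).image g, Fn y := by rw [sum_image hinj]
    _ ≤ ∑ y ∈ (TQ Qp Y) ×ˢ ((Icc 1 Y).filter Nat.Prime), Fn y := by
        apply sum_le_sum_of_subset_of_nonneg
        · intro y hy
          rw [mem_image] at hy
          obtain ⟨x, hx, rfl⟩ := hy
          exact hmem x hx
        · intro y hy _
          rw [mem_product, mem_filter] at hy
          simp only [hFn]
          apply mul_nonneg (Real.log_nonneg (by exact_mod_cast hy.2.2.one_lt.le))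
          apply H_nonneg
          have := us_nonneg hl.le y.1
          positivity
    _ = _ := rfl

lemma two_rpow_le {η : ℝ} (h0 : 0 ≤ η) (h1 : η ≤ 1) : (2:ℝ)^η ≤ 1 + η := by
  have h := convexOn_exp.2 (Set.mem_univ 0) (Set.mem_univ (Real.log 2)) (sub_nonneg.mpr h1) h0 (by ring)
  simp only [smul_eq_mul, mul_zero, zero_add, Real.exp_zero, mul_one] at h
  rw [Real.exp_log (by norm_num)] at h
  rw [Real.rpow_def_of_pos (by norm_num), mul_comm]
  linarith

lemma card_pow_le {s : ℕ} (hs : s ≠ 0) : (2:ℝ) ^ s.primeFactors.card ≤ s := by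
  have h1 : 2 ^ s.primeFactors.card ≤ ∏ p ∈ s.primeFactors, p := by
    rw [← prod_const]
    exact prod_le_prod' fun p hp => (Nat.prime_of_mem_primeFactors hp).two_le
  have h2 : ∏ p ∈ s.primeFactors, p ≤ s := Nat.le_of_dvd (Nat.pos_of_ne_zero hs) (Nat.prod_primeFactors_dvd s)
  exact_mod_cast h1.trans h2

/-- **the main sum** -/
theorem main_sum {b : ℝ} (hb : 0 ≤ b) (hB : 1 ≤ (2:ℝ)^(4/3:ℝ) * b) (hps : PS Qp b) :
    ∃ C : ℝ, 0 < C ∧ ∀ l : ℝ, 2 ≤ l → ∀ Y : ℕ,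
      ∑ s ∈ TQ Qp Y, H (us l s) ≤ C * (l ^ (4/3:ℝ) * (Real.log l) ^ ((2:ℝ)^(4/3:ℝ) * b - 1)) := by
  classical
  obtain ⟨C0, hC0, hps⟩ := hps
  set B := (2:ℝ)^(4/3:ℝ) * b with hBd
  set K1 : ℝ := (2:ℝ)^(4/3:ℝ) * b * (4/3) + 4 * C0 with hK1
  have hK1n : 0 ≤ K1 := by positivity
  -- constant for the large part
  set K2 : ℝ := 60 * (2:ℝ)^(2:ℝ) * Real.exp 1 * (Real.exp K1 * (16/3) ^ B) with hK2
  have hK2p : 0 < K2 := by positivity
  refine ⟨4 * K2 + 1 / (Real.log 2) ^ (B - 1), by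
    have : 0 < Real.log 2 := Real.log_pos (by norm_num)
    positivity, ?_⟩
  intro l hl Y
  have hl0 : 0 < l := by linarith
  set L := Real.log l with hL
  have hL2 : Real.log 2 ≤ L := Real.log_le_log (by norm_num) hl
  have hlog2 : (0.69:ℝ) < Real.log 2 := by have := Real.log_two_gt_d9; linarith
  have hL0 : 0 < L := by linarith
  set η := 1 / (2 + L) with hη
  have hη0 : 0 < η := by positivity
  have hη1 : η ≤ 1/2 := by
    rw [hη, div_le_div_iff₀ (by positivity) (by norm_num)]; linarith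
  -- the Rankin bound
  have hR : ∑ s ∈ TQ Qp Y, H (us l s) * Real.log s ≤ K2 * (l ^ (4/3:ℝ) * L ^ B) := by
    refine (log_weight hl0 hη0.le (by linarith) Y).trans ?_
    have e1 : ∀ s ∈ TQ Qp Y, 60 * (2 * us l s) ^ (4/3 + η) =
        (60 * (2:ℝ) ^ (4/3 + η) * l ^ (4/3 + η)) *
          (((2:ℝ) ^ s.primeFactors.card) ^ (4/3 + η) * (s:ℝ) ^ (-(1 + 3 * η / 4))) := by
      intro s _
      unfold us
      rw [Real.mul_rpow (by norm_num) (by positivity), Real.mul_rpow hl0.le (by positivity),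
        Real.mul_rpow (by positivity) (by positivity), ← Real.rpow_mul (by positivity)]
      rw [show -(3/4:ℝ) * (4/3 + η) = -(1 + 3 * η / 4) by ring]
      ring
    rw [sum_congr rfl e1, ← mul_sum]
    have e2 := rankin (Qp := Qp) (k := 4/3 + η) (σ := 3 * η / 4) Y
    have e3 := hps (3 * η / 4) (by positivity) (by linarith) Y
    have e4 : (2:ℝ) ^ (4/3 + η) * ∑ p ∈ (Icc 1 Y).filter (fun p => p.Prime ∧ Qp p), (p:ℝ) ^ (-(1 + 3 * η / 4)) ≤
        B * Real.log (16/3 * L) + K1 := by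
      have f1 : (1:ℝ) / (3 * η / 4) = 4/3 * (2 + L) := by
        rw [hη]; field_simp
      rw [f1] at e3
      have f2 : (2:ℝ) ^ (4/3 + η) ≤ (2:ℝ) ^ (4/3:ℝ) * (1 + η) := by
        rw [Real.rpow_add (by norm_num)]
        gcongr
        exact two_rpow_le hη0.le (by linarith)
      have f3 : 0 ≤ Real.log (4/3 * (2 + L)) := Real.log_nonneg (by nlinarith)
      have f4 : 0 ≤ b * Real.log (4/3 * (2 + L)) + C0 := by positivity
      have f5 : Real.log (4/3 * (2 + L)) ≤ Real.log (16/3 * L) := by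
        apply Real.log_le_log (by positivity)
        nlinarith
      have f6 : η * Real.log (4/3 * (2 + L)) ≤ 4/3 := by
        have g1 : Real.log (4/3 * (2 + L)) ≤ 4/3 * (2 + L) := (Real.log_le_sub_one_of_pos (by positivity)).trans (by linarith)
        calc η * Real.log (4/3 * (2 + L)) ≤ η * (4/3 * (2 + L)) := by gcongr
          _ = 4/3 := by rw [hη]; field_simp
      have f7 : (2:ℝ) ^ (4/3 + η) ≤ 4 := by
        calc (2:ℝ) ^ (4/3 + η) ≤ (2:ℝ)^(2:ℝ) := Real.rpow_le_rpow_of_exponent_le (by norm_num) (by linarith)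
          _ = 4 := by norm_num
      have hz : (0:ℝ) < (2:ℝ) ^ (4/3:ℝ) := by positivity
      calc (2:ℝ) ^ (4/3 + η) * ∑ p ∈ (Icc 1 Y).filter (fun p => p.Prime ∧ Qp p), (p:ℝ) ^ (-(1 + 3 * η / 4))
          ≤ (2:ℝ) ^ (4/3 + η) * (b * Real.log (4/3 * (2 + L)) + C0) := by gcongr
        _ = (2:ℝ) ^ (4/3 + η) * (b * Real.log (4/3 * (2 + L))) + (2:ℝ) ^ (4/3 + η) * C0 := by ring
        _ ≤ ((2:ℝ) ^ (4/3:ℝ) * (1 + η)) * (b * Real.log (4/3 * (2 + L))) + 4 * C0 := by gcongr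
        _ = B * Real.log (4/3 * (2 + L)) + (2:ℝ) ^ (4/3:ℝ) * b * (η * Real.log (4/3 * (2 + L))) + 4 * C0 := by
            rw [hBd]; ring
        _ ≤ B * Real.log (16/3 * L) + (2:ℝ) ^ (4/3:ℝ) * b * (4/3) + 4 * C0 := by gcongr
        _ = _ := by rw [hK1]; ring
    have e5 : l ^ (4/3 + η) ≤ l ^ (4/3:ℝ) * Real.exp 1 := by
      rw [Real.rpow_add hl0]
      gcongr
      rw [Real.rpow_def_of_pos hl0]
      apply Real.exp_le_exp.mpr
      rw [← hL, hη, mul_one_div, div_le_one (by positivity)]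
      linarith
    have e6 : (2:ℝ) ^ (4/3 + η) ≤ (2:ℝ)^(2:ℝ) := Real.rpow_le_rpow_of_exponent_le (by norm_num) (by linarith)
    have e7 : ∑ s ∈ TQ Qp Y, ((2:ℝ) ^ s.primeFactors.card) ^ (4/3 + η) * (s:ℝ) ^ (-(1 + 3 * η / 4)) ≤
        Real.exp K1 * ((16/3) ^ B * L ^ B) := by
      refine e2.trans ((Real.exp_le_exp.mpr e4).trans (le_of_eq ?_))
      rw [← Real.mul_rpow (by norm_num) hL0.le, Real.rpow_def_of_pos (by positivity), ← Real.exp_add]
      congr 1; ring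
    calc (60 * (2:ℝ) ^ (4/3 + η) * l ^ (4/3 + η)) *
          ∑ s ∈ TQ Qp Y, ((2:ℝ) ^ s.primeFactors.card) ^ (4/3 + η) * (s:ℝ) ^ (-(1 + 3 * η / 4))
        ≤ (60 * (2:ℝ)^(2:ℝ) * (l ^ (4/3:ℝ) * Real.exp 1)) * (Real.exp K1 * ((16/3) ^ B * L ^ B)) := by gcongr
      _ = K2 * (l ^ (4/3:ℝ) * L ^ B) := by rw [hK2]; ring
  -- split
  have hsplit : ∀ s ∈ TQ Qp Y, H (us l s) ≤ 4 / L * (H (us l s) * Real.log s) +
      (if (s:ℝ) ≤ l ^ (1/4:ℝ) then l * (s:ℝ) ^ (1/4:ℝ) else 0) := by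
    intro s hs
    unfold TQ at hs
    rw [mem_filter, mem_Icc] at hs
    have hs1 : (1:ℝ) ≤ s := by exact_mod_cast hs.1.1
    have hH := H_nonneg (us_nonneg hl0.le s)
    have hls : 0 ≤ Real.log s := Real.log_nonneg hs1
    by_cases hc : (s:ℝ) ≤ l ^ (1/4:ℝ)
    · rw [if_pos hc]
      have h1 : H (us l s) ≤ l * (s:ℝ) ^ (1/4:ℝ) := by
        refine (H_le _).trans ?_
        unfold us
        have h2 := card_pow_le (s := s) (by omega)
        calc l * ((2:ℝ) ^ s.primeFactors.card * (s:ℝ) ^ (-(3/4):ℝ)) ≤ l * (s * (s:ℝ) ^ (-(3/4):ℝ)) := by gcongr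
          _ = l * (s:ℝ) ^ (1/4:ℝ) := by
              congr 1
              nth_rewrite 1 [← Real.rpow_one (s:ℝ)]
              rw [← Real.rpow_add (by linarith)]; norm_num
      have h3 : 0 ≤ 4 / L * (H (us l s) * Real.log s) := by positivity
      linarith
    · rw [if_neg hc, add_zero]
      push Not at hc
      have h1 : L / 4 ≤ Real.log s := by
        have := Real.log_le_log (by positivity) hc.le
        rw [Real.log_rpow hl0] at this
        linarith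
      have h2 : 1 ≤ 4 / L * Real.log s := by
        rw [div_mul_eq_mul_div, le_div_iff₀ hL0]; linarith
      nlinarith
  refine (sum_le_sum hsplit).trans ?_
  rw [sum_add_distrib, ← mul_sum]
  have hsmall : ∑ s ∈ TQ Qp Y, (if (s:ℝ) ≤ l ^ (1/4:ℝ) then l * (s:ℝ) ^ (1/4:ℝ) else 0) ≤ l ^ (4/3:ℝ) := by
    rw [← sum_filter]
    have hl1 : 1 ≤ l ^ (1/4:ℝ) := Real.one_le_rpow (by linarith) (by norm_num)
    calc ∑ s ∈ (TQ Qp Y).filter (fun s : ℕ => (s:ℝ) ≤ l ^ (1/4:ℝ)), l * (s:ℝ) ^ (1/4:ℝ)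
        ≤ ∑ s ∈ Icc 1 ⌊l ^ (1/4:ℝ)⌋₊, l * (l ^ (1/4:ℝ)) ^ (1/4:ℝ) := by
          refine le_trans (sum_le_sum (g := fun _ => l * (l ^ (1/4:ℝ)) ^ (1/4:ℝ)) ?_) (sum_le_sum_of_subset_of_nonneg ?_ ?_)
          · intro s hs
            rw [mem_filter] at hs
            have := hs.2
            gcongr
          · intro s hs
            unfold TQ at hs
            rw [mem_filter, mem_filter, mem_Icc] at hs
            rw [mem_Icc]
            exact ⟨hs.1.1.1, Nat.le_floor hs.2⟩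
          · intro _ _ _; positivity
      _ = ⌊l ^ (1/4:ℝ)⌋₊ * (l * (l ^ (1/4:ℝ)) ^ (1/4:ℝ)) := by
          rw [sum_const, Nat.card_Icc, nsmul_eq_mul]; simp
      _ ≤ l ^ (1/4:ℝ) * (l * (l ^ (1/4:ℝ)) ^ (1/4:ℝ)) := by
          gcongr
          exact Nat.floor_le (by positivity)
      _ = l ^ (21/16:ℝ) := by
          rw [← Real.rpow_mul hl0.le]
          nth_rewrite 2 [← Real.rpow_one l]
          rw [← Real.rpow_add hl0, ← Real.rpow_add hl0]
          norm_num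
      _ ≤ l ^ (4/3:ℝ) := Real.rpow_le_rpow_of_exponent_le (by linarith) (by norm_num)
  have hLB : L ^ B = L * L ^ (B - 1) := by
    nth_rewrite 2 [← Real.rpow_one L]
    rw [← Real.rpow_add hL0]; congr 1; ring
  have h8 : 4 / L * ∑ s ∈ TQ Qp Y, H (us l s) * Real.log s ≤ 4 * K2 * (l ^ (4/3:ℝ) * L ^ (B - 1)) := by
    calc 4 / L * ∑ s ∈ TQ Qp Y, H (us l s) * Real.log s ≤ 4 / L * (K2 * (l ^ (4/3:ℝ) * L ^ B)) := by gcongr
      _ = _ := by rw [hLB]; field_simp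
  have h9 : l ^ (4/3:ℝ) ≤ 1 / (Real.log 2) ^ (B - 1) * (l ^ (4/3:ℝ) * L ^ (B - 1)) := by
    have g1 : (Real.log 2) ^ (B - 1) ≤ L ^ (B - 1) := Real.rpow_le_rpow (by linarith) hL2 (by linarith)
    have g2 : 0 < (Real.log 2) ^ (B - 1) := by
      have : 0 < Real.log 2 := by linarith
      positivity
    rw [div_mul_eq_mul_div, one_mul, le_div_iff₀ g2]
    gcongr
  calc _ ≤ 4 * K2 * (l ^ (4/3:ℝ) * L ^ (B - 1)) + 1 / (Real.log 2) ^ (B - 1) * (l ^ (4/3:ℝ) * L ^ (B - 1)) := by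
        linarith
    _ = _ := by ring

/-- the allowed primes for the circle problem -/
theorem PS_circ : PS (fun p => p % 4 ≠ 3) (1/2) := by
  classical
  obtain ⟨C, hC, h⟩ := ps_one
  refine ⟨C + 1, by linarith, fun δ h0 h1 Y => ?_⟩
  have h2 := h δ h0 h1 Y
  have h3 : ∑ p ∈ (Icc 1 Y).filter (fun p => p.Prime ∧ p % 4 ≠ 3), (p:ℝ) ^ (-(1 + δ)) ≤
      1 + ∑ p ∈ (Icc 1 Y).filter (fun p => p.Prime ∧ p % 4 = 1), (p:ℝ) ^ (-(1 + δ)) := by
    have hsub : (Icc 1 Y).filter (fun p => p.Prime ∧ p % 4 ≠ 3) ⊆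
        insert 2 ((Icc 1 Y).filter (fun p => p.Prime ∧ p % 4 = 1)) := by
      intro p hp
      rw [mem_filter, mem_Icc] at hp
      rw [mem_insert, mem_filter, mem_Icc]
      by_cases h2 : p = 2
      · exact Or.inl h2
      · right
        refine ⟨hp.1, hp.2.1, ?_⟩
        have := hp.2.1.eq_two_or_odd
        omega
    refine (sum_le_sum_of_subset_of_nonneg hsub (fun _ _ _ => by positivity)).trans ?_
    rw [sum_insert (by rw [mem_filter]; omega)]
    have : ((2:ℕ):ℝ) ^ (-(1 + δ)) ≤ 1 := Real.rpow_le_one_of_one_le_of_nonpos (by norm_num) (by linarith)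
    linarith
  linarith

/-- the allowed primes for the divisor problem -/
theorem PS_div : PS (fun _ => True) 1 := by
  obtain ⟨C, hC, h⟩ := ps_all
  exact ⟨C, hC, fun δ h0 h1 Y => by rw [one_mul]; exact h δ h0 h1 Y⟩

end Pool.Agent.NH14.LI
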