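import Mathlib
import Pool.Agent.Y969.TM4
import Pool.Agent.H383.DivB
import Pool.Agent.H383.GaussW
import Pool.Agent.NH14.LI.N3

/-! Class sums of the coefficients. -/

set_option autoImplicit false

open Finset
open Pool.Agent.H383.Gen (bT Bd)
open Pool.Agent.H383.Gauss (InC)

namespace Pool.Agent.NH14.LI

/-- bounds for the sums of the coefficients over the classes -/
def ClsBd (a : ℕ → ℝ) (Qp : ℕ → Prop) (K : ℝ) : Prop := ∀ s : ℕ, Squarefree s → ∀ T : Finset ℕ,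
  (∀ m ∈ T, 1 ≤ m ∧ InC s m) →
    bT a T ≤ K * (2 ^ s.primeFactors.card * (s:ℝ) ^ (-(3/4):ℝ)) ∧ ((∃ p ∈ s.primeFactors, ¬ Qp p) → bT a T ≤ 0)

lemma card_div_sqf {s : ℕ} (hs : Squarefree s) : s.divisors.card = 2 ^ s.primeFactors.card := by
  rw [Nat.card_divisors hs.ne_zero, ← prod_const]
  apply prod_congr rfl
  intro p hp
  have h1 := hs.natFactorization_le_one p
  have h2 : s.factorization p ≠ 0 := by
    have := (Nat.prime_of_mem_primeFactors hp).factorization_pos_of_dvd hs.ne_zero (Nat.dvd_of_mem_primeFactors hp)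
    omega
  have : s.factorization p = 1 := by omega
  rw [this]

lemma card_div_class {s : ℕ} (hs : Squarefree s) (t : ℕ) :
    (s * t^2).divisors.card ≤ 2 ^ s.primeFactors.card * (t^2).divisors.card := by
  rw [Nat.divisors_mul, ← card_div_sqf hs]
  exact Finset.card_mul_le

/-- class sums from a divisor-type majorant -/
lemma cls_of {a : ℕ → ℝ} {K0 : ℝ} (hK0 : 0 < K0)
    (ha : ∀ m : ℕ, 1 ≤ m → |a m| ≤ K0 * (m.divisors.card * (m:ℝ) ^ (-(3/4):ℝ))) :
    ∃ K : ℝ, 0 < K ∧ ∀ s : ℕ, Squarefree s → ∀ T : Finset ℕ,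
      (∀ m ∈ T, 1 ≤ m ∧ InC s m) → bT a T ≤ K * (2 ^ s.primeFactors.card * (s:ℝ) ^ (-(3/4):ℝ)) := by
  classical
  obtain ⟨C1, hC1, hdiv⟩ := Pool.Agent.Helper112.divisor_bound (1/100) (by norm_num)
  have hsum : Summable (fun t : ℕ => (t:ℝ) ^ (-(37/25):ℝ)) := by
    rw [Real.summable_nat_rpow]; norm_num
  set Z := ∑' t : ℕ, (t:ℝ) ^ (-(37/25):ℝ) with hZ
  have hZ0 : 0 ≤ Z := tsum_nonneg fun t => by positivity
  refine ⟨K0 * C1 * Z + 1, by positivity, ?_⟩
  intro s hs T hT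
  have hs1 : 1 ≤ s := Nat.one_le_iff_ne_zero.mpr hs.ne_zero
  have hs0 : (0:ℝ) < s := by exact_mod_cast hs1
  choose! f hf using fun m (hm : m ∈ T) => (hT m hm).2
  have hinj : Set.InjOn f T := by
    intro m hm m' hm' h
    rw [hf m hm, hf m' hm', h]
  have hf0 : ∀ m ∈ T, 1 ≤ f m := by
    intro m hm
    by_contra h
    have h0 : f m = 0 := by omega
    have h1 := hf m hm
    have h2 := (hT m hm).1
    rw [h0] at h1
    simp at h1
    omega
  unfold bT
  have h1 : ∀ m ∈ T, |a m| ≤ K0 * C1 * (2 ^ s.primeFactors.card * (s:ℝ) ^ (-(3/4):ℝ)) * ((f m : ℕ) : ℝ) ^ (-(37/25):ℝ) := by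
    intro m hm
    have h2 := ha m (hT m hm).1
    have hfm : (0:ℝ) < f m := by exact_mod_cast hf0 m hm
    have hmf : (m:ℝ) = (s:ℝ) * ((f m : ℕ):ℝ)^2 := by exact_mod_cast hf m hm
    have h3 : (m:ℝ) ^ (-(3/4):ℝ) = (s:ℝ) ^ (-(3/4):ℝ) * ((f m : ℕ) : ℝ) ^ (-(3/2):ℝ) := by
      rw [hmf, Real.mul_rpow hs0.le (by positivity), ← Real.rpow_natCast, ← Real.rpow_mul hfm.le]
      congr 2
      push_cast; norm_num
    have h4 : (m.divisors.card : ℝ) ≤ 2 ^ s.primeFactors.card * (C1 * ((f m : ℕ) : ℝ) ^ (1/50:ℝ)) := by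
      have h5 : m.divisors.card ≤ 2 ^ s.primeFactors.card * ((f m)^2).divisors.card := by
        have h6 := card_div_class hs (f m)
        rw [← hf m hm] at h6
        exact h6
      have h7 := hdiv ((f m)^2) (Nat.one_le_pow _ _ (hf0 m hm))
      have h8 : (((f m)^2 : ℕ) : ℝ) ^ (1/100:ℝ) = ((f m : ℕ) : ℝ) ^ (1/50:ℝ) := by
        push_cast
        rw [← Real.rpow_natCast, ← Real.rpow_mul hfm.le]
        norm_num
      rw [h8] at h7
      calc (m.divisors.card : ℝ) ≤ ((2 ^ s.primeFactors.card * ((f m)^2).divisors.card : ℕ) : ℝ) := by exact_mod_cast h5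
        _ = 2 ^ s.primeFactors.card * (((f m)^2).divisors.card : ℝ) := by push_cast; ring
        _ ≤ _ := by gcongr
    calc |a m| ≤ K0 * (m.divisors.card * (m:ℝ) ^ (-(3/4):ℝ)) := h2
      _ ≤ K0 * ((2 ^ s.primeFactors.card * (C1 * ((f m : ℕ) : ℝ) ^ (1/50:ℝ))) * (m:ℝ) ^ (-(3/4):ℝ)) := by gcongr
      _ = K0 * C1 * (2 ^ s.primeFactors.card * (s:ℝ) ^ (-(3/4):ℝ)) *
          (((f m : ℕ) : ℝ) ^ (1/50:ℝ) * ((f m : ℕ) : ℝ) ^ (-(3/2):ℝ)) := by rw [h3]; ring
      _ = _ := by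
          rw [← Real.rpow_add hfm]
          norm_num
  calc ∑ m ∈ T, |a m| ≤ ∑ m ∈ T, K0 * C1 * (2 ^ s.primeFactors.card * (s:ℝ) ^ (-(3/4):ℝ)) * ((f m : ℕ) : ℝ) ^ (-(37/25):ℝ) :=
        sum_le_sum h1
    _ = K0 * C1 * (2 ^ s.primeFactors.card * (s:ℝ) ^ (-(3/4):ℝ)) * ∑ t ∈ T.image f, ((t : ℕ) : ℝ) ^ (-(37/25):ℝ) := by
        rw [← mul_sum, sum_image hinj]
    _ ≤ K0 * C1 * (2 ^ s.primeFactors.card * (s:ℝ) ^ (-(3/4):ℝ)) * Z := by
        apply mul_le_mul_of_nonneg_left _ (by positivity)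
        exact hsum.sum_le_tsum _ (fun t _ => by positivity)
    _ ≤ _ := by
        have : 0 ≤ (2:ℝ) ^ s.primeFactors.card * (s:ℝ) ^ (-(3/4):ℝ) := by positivity
        nlinarith

open Pool.Agent.H383.Gauss Pool.Agent.H383.Div Pool.Agent.H383.Circ

lemma rA_class_zero {s t p : ℕ} (hs : Squarefree s) (ht : 1 ≤ t) (hp : p ∈ s.primeFactors) (hp3 : p % 4 = 3) :
    rA (s * t^2) = 0 := by
  unfold rA
  have hpp := Nat.prime_of_mem_primeFactors hp
  have : Fact p.Prime := ⟨hpp⟩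
  have h1 : A (s * t^2) = ∅ := by
    rw [Set.eq_empty_iff_forall_notMem]
    intro z hz
    unfold A at hz
    have h2 : z.norm = ((s * t^2 : ℕ) : ℤ) := hz
    rw [norm_eq] at h2
    have h3 : s * t^2 = z.re.natAbs^2 + z.im.natAbs^2 := by
      zify
      rw [sq_abs, sq_abs, h2]
      push_cast; ring
    have h4 := (Nat.eq_sq_add_sq_iff (n := s * t^2)).mp ⟨_, _, h3⟩ p (by
      rw [Nat.primeFactors_mul hs.ne_zero (by positivity)]
      exact mem_union_left _ hp) hp3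
    have h5 : padicValNat p (s * t^2) = padicValNat p s + 2 * padicValNat p t := by
      have ht0 : t ≠ 0 := by omega
      rw [padicValNat.mul hs.ne_zero (pow_ne_zero 2 ht0), pow_two, padicValNat.mul ht0 ht0]
      ring
    have h6 : padicValNat p s = 1 := by
      have h7 := hs.natFactorization_le_one p
      have h8 := hpp.factorization_pos_of_dvd hs.ne_zero (Nat.dvd_of_mem_primeFactors hp)
      rw [Nat.factorization_def _ hpp] at h7 h8
      omega
    rw [h5, h6] at h4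
    rcases h4 with ⟨r, hr⟩
    omega
  rw [h1]; simp

lemma bT_zero_of {a : ℕ → ℝ} {T : Finset ℕ} (h : ∀ m ∈ T, a m = 0) : bT a T ≤ 0 := by
  unfold bT
  rw [sum_congr rfl (fun m hm => by rw [h m hm, abs_zero]), sum_const_zero]

theorem ClsBd_circ : ∃ K : ℝ, 0 < K ∧ ClsBd ag (fun p => p % 4 ≠ 3) K := by
  obtain ⟨K, hK, h⟩ := cls_of (a := ag) (K0 := 4) (by norm_num) (by
    intro m hm
    have hm0 : (0:ℝ) < m := by exact_mod_cast hm
    rw [abs_of_nonneg (ag_nonneg m)]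
    unfold ag
    have h1 : rA m ≤ 4 * (m.divisors.card : ℝ) := by
      unfold rA
      exact_mod_cast card_A_le m hm
    have h2 : (√(m:ℝ)) ^ (-(3/2):ℝ) = (m:ℝ) ^ (-(3/4):ℝ) := by
      rw [Real.sqrt_eq_rpow, ← Real.rpow_mul hm0.le]; norm_num
    have hpi := Real.pi_gt_three
    have h3 : rA m / Real.pi ≤ 4 * (m.divisors.card : ℝ) := by
      rw [div_le_iff₀ (by positivity)]
      have : (0:ℝ) ≤ m.divisors.card := Nat.cast_nonneg _
      nlinarith
    rw [h2]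
    calc rA m / Real.pi * (m:ℝ) ^ (-(3/4):ℝ) ≤ (4 * (m.divisors.card : ℝ)) * (m:ℝ) ^ (-(3/4):ℝ) := by gcongr
      _ = _ := by ring)
  refine ⟨K, hK, fun s hs T hT => ⟨h s hs T hT, ?_⟩⟩
  rintro ⟨p, hp, hp3⟩
  apply bT_zero_of
  intro m hm
  obtain ⟨h1, t, rfl⟩ := hT m hm
  have ht : 1 ≤ t := by
    by_contra h0
    have : t = 0 := by omega
    rw [this] at h1
    simp at h1
  unfold ag
  rw [rA_class_zero hs ht hp (by push Not at hp3; exact hp3)]
  simp

theorem ClsBd_div : ∃ K : ℝ, 0 < K ∧ ClsBd ad (fun _ => True) K := by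
  obtain ⟨K, hK, h⟩ := cls_of (a := ad) (K0 := 1) (by norm_num) (by
    intro m hm
    rw [abs_of_nonneg (ad_nonneg m)]
    unfold ad Pool.Agent.H387R2.Vor.dv
    have hpi := Real.pi_gt_three
    have h2 : 1 ≤ √2 := Real.one_le_sqrt.mpr (by norm_num)
    have h3 : 1 / (Real.pi * √2) ≤ 1 := by
      rw [div_le_one (by positivity)]; nlinarith
    rw [one_mul]
    exact mul_le_of_le_one_right (by positivity) h3)
  refine ⟨K, hK, fun s hs T hT => ⟨h s hs T hT, ?_⟩⟩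
  rintro ⟨p, hp, hp3⟩
  exact absurd trivial hp3

end Pool.Agent.NH14.LI
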