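import Mathlib
import Pool.Agent.NH14.LI.N4

/-! Moment generating function and moments of the model. -/

set_option autoImplicit false

open Finset Filter Topology
open Pool.Agent.H383.AP Pool.Agent.H383.Gauss
open Pool.Agent.H383.Gen
open Pool.Agent.Y969.TM

namespace Pool.Agent.NH14.LI

variable {a : ℕ → ℝ} {φ α X : ℝ} {S0 : Finset ℕ} {Qp : ℕ → Prop} [DecidablePred Qp] {K : ℝ}

open Classical in
/-- moment generating function of the approximants -/
theorem mgf2 (hS : GoodS α S0) (hK : 0 < K) (hc : ClsBd a Qp K) :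
    ∃ B0 : ℝ, 0 ≤ B0 ∧ ∀ (l : ℝ) (M : ℕ),
      ‖mn (ex a φ α X (l:ℂ) (Icc 1 (M^2)))‖ ≤ Real.exp (B0 * |l| + ∑ s ∈ TQ Qp (M^2), H (us (|l| * K) s)) := by
  refine ⟨∑ s ∈ S0, K * (2 ^ s.primeFactors.card * (s:ℝ) ^ (-(3/4):ℝ)), sum_nonneg (fun s _ => by positivity), ?_⟩
  intro l M
  set Q := (Icc 1 (M^2)).filter (fun s => Squarefree s ∧ s ∉ S0) with hQ
  have hQ' : ∀ s ∈ Q, Squarefree s ∧ s ∉ S0 := fun s hs => (mem_filter.mp hs).2
  rw [prod_formula (a := a) (φ := φ) (X := X) hS (l:ℂ) (T := Icc 1 (M^2))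
    (fun m hm => (mem_Icc.mp hm).1) Q hQ', norm_mul, norm_prod]
  set Tr := (Icc 1 (M^2)).filter (fun m => ∀ s ∈ Q, ¬ InC s m) with hTr
  have h1 : ‖mn (ex a φ α X (l:ℂ) Tr)‖ ≤ Real.exp ((∑ s ∈ S0, K * (2 ^ s.primeFactors.card * (s:ℝ) ^ (-(3/4):ℝ))) * |l|) := by
    apply mn_norm_le (ex_UC_top _) (Real.exp_pos _).le
    intro n
    unfold ex
    rw [Complex.norm_exp]
    apply Real.exp_le_exp.mpr
    have e : ((l:ℂ) * ((ST a φ α X Tr n : ℝ) : ℂ)).re = l * ST a φ α X Tr n := by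
      rw [← Complex.ofReal_mul, Complex.ofReal_re]
    rw [e]
    have hbTr : bT a Tr ≤ ∑ s ∈ S0, K * (2 ^ s.primeFactors.card * (s:ℝ) ^ (-(3/4):ℝ)) := by
      have hsub : ∀ m ∈ Tr, ∃ s ∈ S0.filter Squarefree, InC s m := by
        intro m hm
        rw [hTr, mem_filter, mem_Icc] at hm
        obtain ⟨s, t, hst, hsf⟩ := Nat.sq_mul_squarefree m
        have hc : InC s m := ⟨t, by rw [← hst]; ring⟩
        refine ⟨s, ?_, hc⟩
        rw [mem_filter]
        refine ⟨?_, hsf⟩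
        by_contra hs0
        apply hm.2 s _ hc
        rw [hQ, mem_filter, mem_Icc]
        refine ⟨⟨Nat.one_le_iff_ne_zero.mpr hsf.ne_zero, ?_⟩, hsf, hs0⟩
        have ht : 1 ≤ t := by
          rcases Nat.eq_zero_or_pos t with h | h
          · rw [h] at hst; simp at hst; omega
          · exact h
        calc s = 1^2 * s := by ring
          _ ≤ t^2 * s := Nat.mul_le_mul_right _ (Nat.pow_le_pow_left ht 2)
          _ = m := hst
          _ ≤ M^2 := hm.1.2
      have h3 : bT a Tr ≤ ∑ s ∈ S0.filter Squarefree, bT a (Tr.filter (InC s)) := by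
        unfold bT
        have h4 : ∀ m ∈ Tr, |a m| ≤ ∑ s ∈ S0.filter Squarefree, if InC s m then |a m| else 0 := by
          intro m hm
          obtain ⟨s, hs, hc⟩ := hsub m hm
          have h5 := single_le_sum (s := S0.filter Squarefree) (f := fun s => if InC s m then |a m| else 0) (fun i _ => by
            split_ifs
            · exact abs_nonneg _
            · exact le_rfl) hs
          simp only [if_pos hc] at h5
          exact h5
        refine (sum_le_sum h4).trans ?_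
        rw [sum_comm]
        apply sum_le_sum
        intro s _
        rw [← sum_filter]
      refine h3.trans ?_
      refine le_trans ?_ (sum_le_sum_of_subset_of_nonneg (filter_subset Squarefree S0) (fun s _ _ => by positivity))
      apply sum_le_sum
      intro s hs
      rw [mem_filter] at hs
      apply (hc s hs.2 _ _).1
      intro m hm
      rw [mem_filter, hTr, mem_filter, mem_Icc] at hm
      exact ⟨hm.1.1.1, hm.2⟩
    calc l * ST a φ α X Tr n ≤ |l * ST a φ α X Tr n| := le_abs_self _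
      _ = |l| * |ST a φ α X Tr n| := abs_mul _ _
      _ ≤ |l| * bT a Tr := mul_le_mul_of_nonneg_left (abs_ST_le n) (abs_nonneg _)
      _ ≤ |l| * _ := mul_le_mul_of_nonneg_left hbTr (abs_nonneg _)
      _ = _ := mul_comm _ _
  have h2 : ∀ s ∈ Q, ‖mn (ex a φ α X (l:ℂ) ((Icc 1 (M^2)).filter (InC s)))‖ ≤
      Real.exp (if (∀ p ∈ s.primeFactors, Qp p) then H (us (|l| * K) s) else 0) := by
    intro s hs
    obtain ⟨hsf, hs0⟩ := hQ' s hs
    have hT : ∀ m ∈ (Icc 1 (M^2)).filter (InC s), 1 ≤ m ∧ InC s m := by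
      intro m hm
      rw [mem_filter, mem_Icc] at hm
      exact ⟨hm.1.1, hm.2⟩
    refine (blk_mgf hS hsf hs0 hT l).trans ?_
    apply Real.exp_le_exp.mpr
    have hb := hc s hsf _ hT
    set b := bT a ((Icc 1 (M^2)).filter (InC s)) with hbd
    have hb0 : 0 ≤ b := bT_nonneg
    have hlb : 0 ≤ |l| * b := mul_nonneg (abs_nonneg _) hb0
    split_ifs with hq
    · change H (|l| * b) ≤ _
      apply H_mono hlb
      unfold us
      calc |l| * b ≤ |l| * (K * (2 ^ s.primeFactors.card * (s:ℝ) ^ (-(3/4):ℝ))) :=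
            mul_le_mul_of_nonneg_left hb.1 (abs_nonneg _)
        _ = _ := by ring
    · push Not at hq
      have : b = 0 := le_antisymm (hb.2 hq) hb0
      rw [this]; simp
  have hTQ : TQ Qp (M^2) ⊇ Q.filter (fun s => ∀ p ∈ s.primeFactors, Qp p) := by
    intro s hs
    rw [mem_filter, hQ, mem_filter] at hs
    unfold TQ
    rw [mem_filter]
    exact ⟨hs.1.1, hs.1.2.1, hs.2⟩
  calc (∏ s ∈ Q, ‖mn (ex a φ α X (l:ℂ) ((Icc 1 (M^2)).filter (InC s)))‖) * ‖mn (ex a φ α X (l:ℂ) Tr)‖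
      ≤ (∏ s ∈ Q, Real.exp (if (∀ p ∈ s.primeFactors, Qp p) then H (us (|l| * K) s) else 0)) *
        Real.exp ((∑ s ∈ S0, K * (2 ^ s.primeFactors.card * (s:ℝ) ^ (-(3/4):ℝ))) * |l|) := by
        gcongr with s hs
        exact h2 s hs
    _ = Real.exp ((∑ s ∈ S0, K * (2 ^ s.primeFactors.card * (s:ℝ) ^ (-(3/4):ℝ))) * |l| +
          ∑ s ∈ Q.filter (fun s => ∀ p ∈ s.primeFactors, Qp p), H (us (|l| * K) s)) := by
        have e5 : ∑ s ∈ Q.filter (fun s => ∀ p ∈ s.primeFactors, Qp p), H (us (|l| * K) s) =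
            ∑ s ∈ Q, (if (∀ p ∈ s.primeFactors, Qp p) then H (us (|l| * K) s) else 0) := sum_filter _ _
        rw [e5, ← Real.exp_sum, ← Real.exp_add, add_comm]
    _ ≤ _ := by
        apply Real.exp_le_exp.mpr
        have h5 := sum_le_sum_of_subset_of_nonneg (f := fun s => H (us (|l| * K) s)) hTQ
          (fun s _ _ => H_nonneg (us_nonneg (by positivity) s))
        linarith

lemma rpow_fac (k : ℕ) : ((2 * k).factorial : ℝ) ≤ (2 * (k:ℝ)) ^ (2 * k) := by
  have h := Nat.factorial_le_pow (2 * k)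
  have : (((2 * k).factorial : ℕ) : ℝ) ≤ (((2*k) ^ (2 * k) : ℕ) : ℝ) := by exact_mod_cast h
  push_cast at this
  exact this

/-- moments with a parameter -/
theorem ZZ_l (φ : ℝ) (hK : 0 < K) (hc : ClsBd a Qp K) :
    ∃ B0 : ℝ, 0 ≤ B0 ∧ ∀ l : ℝ, 0 < l → ∀ k M : ℕ, ‖ZZ a φ (2 * k) M‖ ≤
      ((2 * k).factorial : ℝ) / l ^ (2 * k) * (2 * Real.exp (B0 * l + ∑ s ∈ TQ Qp (M^2), H (us (l * K) s))) := by
  classical
  obtain ⟨t, ht0, ht⟩ := exists_tr
  obtain ⟨S0, hS⟩ := exists_S ht0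
  obtain ⟨B0, hB0, hm⟩ := mgf2 (a := a) (φ := φ) (α := t) (X := 0) (Qp := Qp) hS hK hc
  refine ⟨B0, hB0, fun l hl k M => ?_⟩
  have h1 := pow_mean ht a φ (2 * k) M
  have e0 : ∀ l : ℝ, ex a φ t 0 (l:ℂ) (Icc 1 (M^2)) = fun n : ℕ => ((Real.exp (l * U a φ (n * t) M) : ℝ) : ℂ) := by
    intro l
    funext n
    unfold ex
    rw [ST_U, zero_add]
    push_cast
    rfl
  have h2 := fun l : ℝ => UC_hasMean (ex_UC_top (a := a) (φ := φ) (α := t) (X := 0) (T := Icc 1 (M^2)) (l:ℂ))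
  have h3 := (h2 l).add (h2 (-l))
  have hfac : (0:ℝ) < ((2 * k).factorial : ℝ) := by positivity
  have hA : Tendsto (rm (fun n : ℕ => (U a φ (n * t) M) ^ (2 * k))) atTop (𝓝 (ZZ a φ (2 * k) M).re) := by
    unfold HasMean at h1
    have : cm (fun n : ℕ => ((U a φ (n * t) M : ℝ) : ℂ) ^ (2 * k)) =
        fun N => ((rm (fun n : ℕ => (U a φ (n * t) M) ^ (2 * k)) N : ℝ) : ℂ) := by
      funext N
      rw [← cm_ofReal]
      push_cast
      rfl
    rw [this] at h1
    exact (Complex.continuous_re.tendsto _).comp h1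
  have hIm : (ZZ a φ (2 * k) M).im = 0 := by
    unfold HasMean at h1
    have : cm (fun n : ℕ => ((U a φ (n * t) M : ℝ) : ℂ) ^ (2 * k)) =
        fun N => ((rm (fun n : ℕ => (U a φ (n * t) M) ^ (2 * k)) N : ℝ) : ℂ) := by
      funext N
      rw [← cm_ofReal]
      push_cast
      rfl
    rw [this] at h1
    have h4 := (Complex.continuous_im.tendsto _).comp h1
    have h5 : Tendsto (fun _ : ℕ => (0:ℝ)) atTop (𝓝 (ZZ a φ (2 * k) M).im) := h4
    exact tendsto_nhds_unique h5 tendsto_const_nhds |>.symm ▸ rfl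
  have hB : Tendsto (rm (fun n : ℕ => Real.exp (l * U a φ (n * t) M) + Real.exp (-(l * U a φ (n * t) M)))) atTop
      (𝓝 (mn (ex a φ t 0 ((l:ℝ):ℂ) (Icc 1 (M^2))) + mn (ex a φ t 0 ((-l:ℝ):ℂ) (Icc 1 (M^2)))).re) := by
    unfold HasMean at h3
    have : cm (ex a φ t 0 ((l:ℝ):ℂ) (Icc 1 (M^2)) + ex a φ t 0 ((-l:ℝ):ℂ) (Icc 1 (M^2))) =
        fun N => ((rm (fun n : ℕ => Real.exp (l * U a φ (n * t) M) + Real.exp (-(l * U a φ (n * t) M))) N : ℝ) : ℂ) := by
      funext N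
      rw [← cm_ofReal, e0, e0]
      simp only [neg_mul]
      push_cast
      rfl
    rw [this] at h3
    exact (Complex.continuous_re.tendsto _).comp h3
  have hle : (ZZ a φ (2 * k) M).re ≤ ((2 * k).factorial : ℝ) / l ^ (2 * k) *
      (mn (ex a φ t 0 ((l:ℝ):ℂ) (Icc 1 (M^2))) + mn (ex a φ t 0 ((-l:ℝ):ℂ) (Icc 1 (M^2)))).re := by
    refine le_of_tendsto_of_tendsto hA (hB.const_mul _) (Eventually.of_forall fun N => ?_)
    beta_reduce
    rw [← rm_mul]
    refine rm_mono (fun n => ?_) N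
    have h := pow_le_exp (l * U a φ (n * t) M) k
    rw [mul_pow] at h
    rw [div_mul_eq_mul_div, le_div_iff₀ (by positivity), mul_comm]
    exact h
  have h0 : 0 ≤ (ZZ a φ (2 * k) M).re := by
    refine ge_of_tendsto hA (Eventually.of_forall fun N => rm_nonneg (fun n => ?_) N)
    exact Even.pow_nonneg (even_two_mul k) _
  have hnorm : ‖ZZ a φ (2 * k) M‖ = (ZZ a φ (2 * k) M).re := by
    have : ZZ a φ (2 * k) M = (((ZZ a φ (2 * k) M).re : ℝ) : ℂ) := by
      apply Complex.ext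
      · simp
      · simp [hIm]
    rw [this, Complex.norm_real, Real.norm_eq_abs, abs_of_nonneg h0, Complex.ofReal_re]
  rw [hnorm]
  refine hle.trans ?_
  have hm1 := hm l M
  have hm2 := hm (-l) M
  rw [abs_neg] at hm2
  rw [abs_of_pos hl] at hm1 hm2
  have h6 : (mn (ex a φ t 0 ((l:ℝ):ℂ) (Icc 1 (M^2))) + mn (ex a φ t 0 ((-l:ℝ):ℂ) (Icc 1 (M^2)))).re ≤
      2 * Real.exp (B0 * l + ∑ s ∈ TQ Qp (M^2), H (us (l * K) s)) := by
    refine (Complex.re_le_norm _).trans ((norm_add_le _ _).trans ?_)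
    linarith
  exact mul_le_mul_of_nonneg_left h6 (by positivity)

end Pool.Agent.NH14.LI
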