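import Mathlib
import Pool.Agent.NH14.LI.N5

/-! High moments of the model: the optimised bound. -/

set_option autoImplicit false

open Finset Filter Topology
open Pool.Agent.Y969.TM

namespace Pool.Agent.NH14.LI

variable {a : ℕ → ℝ} {Qp : ℕ → Prop} [DecidablePred Qp] {K : ℝ}

lemma ClsBd.mono (h : ClsBd a Qp K) {K' : ℝ} (hK : K ≤ K') : ClsBd a Qp K' := fun s hs T hT =>
  ⟨(h s hs T hT).1.trans (mul_le_mul_of_nonneg_right hK (by positivity)), (h s hs T hT).2⟩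

/-- the normalising function -/
noncomputable def psi (γ x : ℝ) : ℝ := x ^ (1/4:ℝ) * (Real.log x) ^ γ

theorem ZZ_mom (φ : ℝ) (hK : 0 < K) (hc : ClsBd a Qp K) {b : ℝ} (hb : 0 ≤ b) (hB : 1 ≤ (2:ℝ)^(4/3:ℝ) * b)
    (hps : PS Qp b) : ∃ C : ℝ, 0 < C ∧ ∃ k0 : ℕ, 3 ≤ k0 ∧ ∀ k : ℕ, k0 ≤ k → ∀ M : ℕ, ‖ZZ a φ (2 * k) M‖ ≤
      (C * psi (3/4 * ((2:ℝ)^(4/3:ℝ) * b - 1)) k) ^ (2 * k) := by
  classical
  set K1 := max K 1 with hK1
  have hK1p : 0 < K1 := by rw [hK1]; positivity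
  have hK11 : 1 ≤ K1 := le_max_right _ _
  have hc1 : ClsBd a Qp K1 := hc.mono (le_max_left _ _)
  obtain ⟨B0, hB0, hZ⟩ := ZZ_l (a := a) (Qp := Qp) φ hK1p hc1
  obtain ⟨C1, hC1, hS⟩ := main_sum (Qp := Qp) hb hB hps
  set g : ℝ := (2:ℝ)^(4/3:ℝ) * b - 1 with hg
  have hg0 : 0 ≤ g := by rw [hg]; linarith
  set C2 : ℝ := B0 + C1 * (K1 ^ (4/3:ℝ) * (1 + Real.log K1) ^ g) with hC2
  have hlK : 0 ≤ Real.log K1 := Real.log_nonneg hK11
  have hC2p : 0 ≤ C2 := by positivity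
  -- threshold
  have hlim : ∀ᶠ k : ℕ in atTop, (2:ℝ)^(4/3:ℝ) * (Real.log k) ^ g ≤ k := by
    have h1 := (isLittleO_log_rpow_rpow_atTop g (one_pos)).bound (c := ((2:ℝ)^(4/3:ℝ))⁻¹) (by positivity)
    have h2 := tendsto_natCast_atTop_atTop (R := ℝ) |>.eventually h1
    filter_upwards [h2, eventually_ge_atTop 1] with k hk hk1
    have hk1' : (1:ℝ) ≤ k := by exact_mod_cast hk1
    rw [Real.rpow_one, Real.norm_eq_abs, Real.norm_eq_abs, abs_of_nonneg (Real.rpow_nonneg (Real.log_nonneg hk1') _),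
      abs_of_nonneg (Nat.cast_nonneg k)] at hk
    calc (2:ℝ)^(4/3:ℝ) * (Real.log k) ^ g ≤ (2:ℝ)^(4/3:ℝ) * (((2:ℝ)^(4/3:ℝ))⁻¹ * k) := by gcongr
      _ = k := by field_simp
  obtain ⟨k1, hk1⟩ := eventually_atTop.mp hlim
  refine ⟨4 * Real.exp C2, by positivity, max k1 3, le_max_right _ _, ?_⟩
  intro k hk M
  have hk3 : 3 ≤ k := (le_max_right _ _).trans hk
  have hk1' := hk1 k ((le_max_left _ _).trans hk)
  have hk0 : (0:ℝ) < k := by positivity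
  have hk3' : (3:ℝ) ≤ k := by exact_mod_cast hk3
  have hL1 : 1 ≤ Real.log k := by
    rw [Real.le_log_iff_exp_le hk0]
    have := Real.exp_one_lt_d9
    linarith
  set L := Real.log k with hL
  have hLg : 0 < L ^ g := by positivity
  have hLg1 : 1 ≤ L ^ g := Real.one_le_rpow hL1 hg0
  set l : ℝ := (k / L ^ g) ^ (3/4:ℝ) with hl
  have hkL : (2:ℝ)^(4/3:ℝ) ≤ k / L ^ g := by rw [le_div_iff₀ hLg]; exact hk1'
  have hl2 : 2 ≤ l := by
    have h1 := Real.rpow_le_rpow (by positivity) hkL (by norm_num : (0:ℝ) ≤ 3/4)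
    rw [← Real.rpow_mul (by norm_num)] at h1
    norm_num at h1
    exact h1
  have hl0 : 0 < l := by linarith
  have hlk : l ≤ k := by
    rw [hl]
    calc (k / L ^ g) ^ (3/4:ℝ) ≤ (k:ℝ) ^ (3/4:ℝ) := by
          apply Real.rpow_le_rpow (by positivity) _ (by norm_num)
          exact div_le_self hk0.le hLg1
      _ ≤ (k:ℝ) ^ (1:ℝ) := Real.rpow_le_rpow_of_exponent_le (by linarith) (by norm_num)
      _ = k := Real.rpow_one _
  have hlL : Real.log l ≤ L := Real.log_le_log hl0 hlk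
  have h1 := hZ l hl0 k M
  have h2 := hS (l * K1) (by nlinarith) (M^2)
  have hl43 : l ^ (4/3:ℝ) = k / L ^ g := by
    rw [hl, ← Real.rpow_mul (by positivity)]; norm_num
  have h3 : (l * K1) ^ (4/3:ℝ) * Real.log (l * K1) ^ g ≤ K1 ^ (4/3:ℝ) * (1 + Real.log K1) ^ g * k := by
    rw [Real.mul_rpow hl0.le hK1p.le, hl43, Real.log_mul hl0.ne' hK1p.ne']
    have hll : 0 ≤ Real.log l := Real.log_nonneg (by linarith)
    have h4 : (Real.log l + Real.log K1) ^ g ≤ (1 + Real.log K1) ^ g * L ^ g := by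
      rw [← Real.mul_rpow (by positivity) (by positivity)]
      apply Real.rpow_le_rpow (by positivity) _ hg0
      nlinarith
    calc k / L ^ g * K1 ^ (4/3:ℝ) * (Real.log l + Real.log K1) ^ g
        ≤ k / L ^ g * K1 ^ (4/3:ℝ) * ((1 + Real.log K1) ^ g * L ^ g) := by gcongr
      _ = _ := by field_simp
  have h5 : B0 * l + ∑ s ∈ TQ Qp (M^2), H (us (l * K1) s) ≤ C2 * k := by
    rw [hC2, add_mul]
    have h6 : B0 * l ≤ B0 * k := by gcongr
    have h7 : C1 * ((l * K1) ^ (4/3:ℝ) * Real.log (l * K1) ^ g) ≤ C1 * (K1 ^ (4/3:ℝ) * (1 + Real.log K1) ^ g * k) := by gcongr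
    linarith
  refine h1.trans ?_
  have h8 : psi (3/4 * g) k = k / l := by
    unfold psi
    rw [← hL, hl, Real.div_rpow hk0.le hLg.le, ← Real.rpow_mul (by positivity), mul_comm (3/4:ℝ) g]
    rw [div_div_eq_mul_div, eq_div_iff (by positivity)]
    have : (k:ℝ) ^ (1/4:ℝ) * (k:ℝ) ^ (3/4:ℝ) = k := by
      rw [← Real.rpow_add hk0]; norm_num
    calc (k:ℝ) ^ (1/4:ℝ) * L ^ (g * (3/4)) * (k:ℝ) ^ (3/4:ℝ) = ((k:ℝ) ^ (1/4:ℝ) * (k:ℝ) ^ (3/4:ℝ)) * L ^ (g * (3/4)) := by ring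
      _ = _ := by rw [this]
  rw [h8]
  have hfac := rpow_fac k
  have h9 : Real.exp (B0 * l + ∑ s ∈ TQ Qp (M^2), H (us (l * K1) s)) ≤ (Real.exp C2) ^ (2 * k) := by
    rw [← Real.exp_nat_mul]
    apply Real.exp_le_exp.mpr
    push_cast
    nlinarith
  have h10 : (2:ℝ) ≤ 2 ^ (2 * k) := by
    calc (2:ℝ) = 2 ^ 1 := by norm_num
      _ ≤ 2 ^ (2 * k) := pow_le_pow_right₀ (by norm_num) (by omega)
  calc ((2 * k).factorial : ℝ) / l ^ (2 * k) * (2 * Real.exp (B0 * l + ∑ s ∈ TQ Qp (M^2), H (us (l * K1) s)))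
      ≤ (2 * (k:ℝ)) ^ (2 * k) / l ^ (2 * k) * (2 ^ (2 * k) * (Real.exp C2) ^ (2 * k)) := by gcongr
    _ = _ := by
        rw [← mul_pow, ← div_pow, ← mul_pow]
        congr 1
        ring

end Pool.Agent.NH14.LI
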