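import Mathlib
import Pool.Agent.NH14.LI.N6
import Pool.Agent.R306.GP.AEc

/-! The upper bound almost everywhere. -/

set_option autoImplicit false

open MeasureTheory Filter Topology Set Real
open Pool.Agent.R306.GP
open Pool.Agent.H383.Gen (U Bd)
open Pool.Agent.Y969.TM

namespace Pool.Agent.NH14.LI

lemma big_exp {β s : ℝ} (hβ : 0 < β) (hs : 0 < s) (D : ℝ) : ∃ n0 : ℕ, ∀ n : ℕ, n0 ≤ n →
    exp (D * √((n:ℝ) + 1)) ≤ β * exp (s * n) := by
  set K := |D| + 1 + |Real.log β - s| with hK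
  obtain ⟨n0, hn0⟩ := exists_nat_ge ((K / s) ^ 2)
  refine ⟨n0, fun n hn => ?_⟩
  have hn' : (n0:ℝ) ≤ n := by exact_mod_cast hn
  have hn0' : (0:ℝ) ≤ n := Nat.cast_nonneg n
  set y := √((n:ℝ) + 1) with hy
  have hy2 : y ^ 2 = n + 1 := Real.sq_sqrt (by linarith)
  have hy1 : 1 ≤ y := by rw [hy, Real.one_le_sqrt]; linarith
  have hyK : K / s ≤ y := by
    rw [hy]
    apply Real.le_sqrt_of_sq_le
    linarith
  have hsy : K ≤ s * y := by
    rw [div_le_iff₀ hs] at hyK; linarith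
  rw [← Real.exp_log hβ, ← Real.exp_add]
  apply Real.exp_le_exp.mpr
  have h1 : s * n = s * y ^ 2 - s := by rw [hy2]; ring
  have h2 : D ≤ |D| := le_abs_self D
  have h3 : -|Real.log β - s| ≤ Real.log β - s := neg_abs_le _
  have h4 : 0 ≤ |Real.log β - s| := abs_nonneg _
  nlinarith

lemma log_le4 {x : ℝ} (hx : 0 < x) : Real.log x ≤ 4 * x ^ (1/4:ℝ) := by
  have := Real.log_le_rpow_div hx.le (by norm_num : (0:ℝ) < 1/4)
  linarith

lemma pow_exp {x : ℝ} (hx : 0 < x) (m : ℕ) : exp (m * Real.log x) = x ^ m := by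
  rw [Real.exp_nat_mul, Real.exp_log hx]

/-- the error in the moments of slowly growing order is negligible -/
lemma err_small {a b : ℕ → ℝ} {δ c d : ℝ} (h : Sq a b δ) (hc : 0 < c) (hcd : c ≤ d) {af : ℕ → ℝ} (ha : Bd af) (p : ℕ) :
    ∃ n0 : ℕ, ∀ n : ℕ, n0 ≤ n → ∀ r : ℕ, (r:ℝ) ≤ Real.log ((n:ℝ) + 1) + 1 → (2:ℝ) ^ r ≤ ((n:ℝ) + 1) ^ (1/4:ℝ) →
      AA af ((n+1)^p) ^ r * (2 * Cp c d δ * (((r * (n+1)^p + 1 : ℕ) : ℝ) ^ (2 ^ r) / pt a b n c)) ≤ 1 := by
  obtain ⟨Cs, hCs, hAA⟩ := AA_le ha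
  have hCp := Cp_pos hc hcd h.dpos
  have hsc : 0 < δ * c := mul_pos h.dpos hc
  set P : ℝ := (p:ℝ) with hP
  have hP0 : 0 ≤ P := Nat.cast_nonneg p
  set D : ℝ := 5 * (|Real.log Cs| + 8 * P) + |Real.log (2 * Cp c d δ)| + 4 * (P + 3) with hD
  obtain ⟨n0, hn0⟩ := big_exp (h.pos 0) hsc D
  refine ⟨max n0 1, fun n hn r hr1 hr2 => ?_⟩
  have hp := pt_pos h n c
  set x : ℝ := (n:ℝ) + 1 with hx
  have hn1 : (1:ℝ) ≤ n := by exact_mod_cast (le_max_right _ _).trans hn
  have hx2 : 2 ≤ x := by linarith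
  have hx0 : 0 < x := by linarith
  set L := Real.log x with hL
  have hL0 : 0 ≤ L := Real.log_nonneg (by linarith)
  set q := x ^ (1/4:ℝ) with hq
  have hq1 : 1 ≤ q := Real.one_le_rpow (by linarith) (by norm_num)
  have hLq : L ≤ 4 * q := log_le4 hx0
  have hqq : q * q = √x := by
    rw [hq, ← Real.rpow_add hx0, Real.sqrt_eq_rpow]; norm_num
  have hr0 : (0:ℝ) ≤ r := Nat.cast_nonneg r
  -- logarithms
  have hMr : (((n+1)^p : ℕ) : ℝ) = x ^ p := by push_cast; rfl
  have e1 : AA af ((n+1)^p) ^ r ≤ exp (5 * (|Real.log Cs| + 8 * P) * √x) := by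
    have h1 : AA af ((n+1)^p) ≤ exp (|Real.log Cs| + 2 * P * L) := by
      refine (hAA _).trans ?_
      rw [hMr, Real.exp_add]
      have h2 : Cs ≤ exp |Real.log Cs| := by
        calc Cs = exp (Real.log Cs) := (Real.exp_log (by linarith)).symm
          _ ≤ _ := Real.exp_le_exp.mpr (le_abs_self _)
      have h3 : (x ^ p) ^ 2 = exp (2 * P * L) := by
        rw [← pow_mul, ← pow_exp hx0]
        congr 1
        push_cast; ring
      rw [h3]
      exact mul_le_mul_of_nonneg_right h2 (Real.exp_pos _).le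
    calc AA af ((n+1)^p) ^ r ≤ (exp (|Real.log Cs| + 2 * P * L)) ^ r := pow_le_pow_left₀ (AA_nonneg _ _) h1 _
      _ = exp (r * (|Real.log Cs| + 2 * P * L)) := by rw [Real.exp_nat_mul]
      _ ≤ _ := by
          apply Real.exp_le_exp.mpr
          have h4 : (r:ℝ) ≤ 5 * q := by linarith
          have h5 : |Real.log Cs| + 2 * P * L ≤ (|Real.log Cs| + 8 * P) * q := by
            have h6 := abs_nonneg (Real.log Cs)
            have h7 : P * L ≤ P * (4 * q) := mul_le_mul_of_nonneg_left hLq hP0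
            nlinarith
          have h8 := abs_nonneg (Real.log Cs)
          have h9 : 0 ≤ |Real.log Cs| + 2 * P * L := by positivity
          calc r * (|Real.log Cs| + 2 * P * L) ≤ (5 * q) * ((|Real.log Cs| + 8 * P) * q) :=
                mul_le_mul h4 h5 h9 (by linarith)
            _ = 5 * (|Real.log Cs| + 8 * P) * (q * q) := by ring
            _ = _ := by rw [hqq]
  have e2 : 2 * Cp c d δ ≤ exp (|Real.log (2 * Cp c d δ)| * √x) := by
    calc 2 * Cp c d δ = exp (Real.log (2 * Cp c d δ)) := (Real.exp_log (by positivity)).symm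
      _ ≤ _ := by
          apply Real.exp_le_exp.mpr
          have h1 : 1 ≤ √x := by rw [Real.one_le_sqrt]; linarith
          have h2 := abs_nonneg (Real.log (2 * Cp c d δ))
          have h3 := le_abs_self (Real.log (2 * Cp c d δ))
          nlinarith
  have e3 : ((r * (n+1)^p + 1 : ℕ) : ℝ) ^ (2 ^ r) ≤ exp (4 * (P + 3) * √x) := by
    have h1 : ((r * (n+1)^p + 1 : ℕ) : ℝ) ≤ exp ((P + 3) * L) := by
      have h2 : exp ((P + 3) * L) = x ^ 3 * x ^ p := by
        rw [← pow_add, ← pow_exp hx0]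
        congr 1
        push_cast; ring
      rw [h2]
      have h3 : (r:ℝ) ≤ x := by
        have := Real.log_le_sub_one_of_pos hx0
        linarith
      have h4 : (1:ℝ) ≤ x ^ p := one_le_pow₀ (by linarith)
      have h5 : ((r * (n+1)^p + 1 : ℕ) : ℝ) = r * x ^ p + 1 := by push_cast; rfl
      rw [h5]
      have h6 : r * x ^ p ≤ x * x ^ p := mul_le_mul_of_nonneg_right h3 (by linarith)
      have h8 : x + 1 ≤ x ^ 3 := by nlinarith [sq_nonneg (x - 1)]
      have h9 := mul_le_mul_of_nonneg_right h8 (by linarith : 0 ≤ x ^ p)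
      linarith
    calc ((r * (n+1)^p + 1 : ℕ) : ℝ) ^ (2 ^ r) ≤ (exp ((P + 3) * L)) ^ (2 ^ r) := pow_le_pow_left₀ (Nat.cast_nonneg _) h1 _
      _ = exp (((2 ^ r : ℕ) : ℝ) * ((P + 3) * L)) := by rw [Real.exp_nat_mul]
      _ ≤ _ := by
          apply Real.exp_le_exp.mpr
          have h2 : ((2 ^ r : ℕ) : ℝ) ≤ q := by push_cast; exact hr2
          have h3 : (P + 3) * L ≤ (P + 3) * (4 * q) := mul_le_mul_of_nonneg_left hLq (by linarith)
          calc ((2 ^ r : ℕ) : ℝ) * ((P + 3) * L) ≤ q * ((P + 3) * (4 * q)) :=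
                mul_le_mul h2 h3 (by positivity) (by linarith)
            _ = 4 * (P + 3) * (q * q) := by ring
            _ = _ := by rw [hqq]
  have e4 : exp (D * √x) ≤ pt a b n c := (hn0 n ((le_max_left _ _).trans hn)).trans (pt_low h hc.le n)
  have e5 : AA af ((n+1)^p) ^ r * (2 * Cp c d δ * ((r * (n+1)^p + 1 : ℕ) : ℝ) ^ (2 ^ r)) ≤ exp (D * √x) := by
    calc AA af ((n+1)^p) ^ r * (2 * Cp c d δ * ((r * (n+1)^p + 1 : ℕ) : ℝ) ^ (2 ^ r))
        ≤ exp (5 * (|Real.log Cs| + 8 * P) * √x) * (exp (|Real.log (2 * Cp c d δ)| * √x) * exp (4 * (P + 3) * √x)) := by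
          apply mul_le_mul e1 _ (by positivity) (Real.exp_pos _).le
          exact mul_le_mul e2 e3 (by positivity) (Real.exp_pos _).le
      _ = exp (D * √x) := by rw [← Real.exp_add, ← Real.exp_add, hD]; congr 1; ring
  calc AA af ((n+1)^p) ^ r * (2 * Cp c d δ * (((r * (n+1)^p + 1 : ℕ) : ℝ) ^ (2 ^ r) / pt a b n c))
      = (AA af ((n+1)^p) ^ r * (2 * Cp c d δ * ((r * (n+1)^p + 1 : ℕ) : ℝ) ^ (2 ^ r))) / pt a b n c := by ring
    _ ≤ 1 := by rw [div_le_one hp]; exact e5.trans e4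

end Pool.Agent.NH14.LI
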