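import Mathlib
import Pool.Agent.NH14.LI.N7

/-! The upper bound almost everywhere. -/

set_option autoImplicit false

open MeasureTheory Filter Topology Set Real
open Pool.Agent.R306.GP
open Pool.Agent.H383.Gen (U Bd)
open Pool.Agent.Y969.TM

namespace Pool.Agent.NH14.LI

variable {E : ℝ → ℝ} {af : ℕ → ℝ} {φ : ℝ} {a b : ℕ → ℝ} {δ c d : ℝ}

lemma psi_mono {γ : ℝ} (hγ : 0 ≤ γ) {x y : ℝ} (hx : 1 ≤ x) (hxy : x ≤ y) : psi γ x ≤ psi γ y := by
  unfold psi
  have hx0 : 0 < x := by linarith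
  have h1 : 0 ≤ Real.log x := Real.log_nonneg hx
  have h2 : Real.log x ≤ Real.log y := Real.log_le_log hx0 hxy
  exact mul_le_mul (Real.rpow_le_rpow hx0.le hxy (by norm_num)) (Real.rpow_le_rpow h1 h2 hγ) (by positivity)
    (Real.rpow_nonneg (by linarith) _)

lemma psi_three {γ : ℝ} (hγ : 0 ≤ γ) : 1 ≤ psi γ 3 := by
  unfold psi
  have h1 : 1 ≤ Real.log 3 := by
    rw [Real.le_log_iff_exp_le (by norm_num)]
    have := Real.exp_one_lt_d9
    linarith
  have h2 : (1:ℝ) ≤ 3 ^ (1/4:ℝ) := Real.one_le_rpow (by norm_num) (by norm_num)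
  have h3 : 1 ≤ (Real.log 3) ^ γ := Real.one_le_rpow h1 hγ
  nlinarith

/-- real moments -/
lemma mom_le (h : Sq a b δ) (hc : 0 < c) (hcd : c ≤ d) {k M n : ℕ} {B : ℝ}
    (hB : ‖ZZ af φ (2 * k) M‖ ≤ B)
    (herr : AA af M ^ (2 * k) * (2 * Cp c d δ * (((2 * k * M + 1 : ℕ) : ℝ) ^ (2 ^ (2 * k)) / pt a b n c)) ≤ 1) :
    ∫ y in c..d, (U af φ (pt a b n y) M) ^ (2 * k) ≤ 1 + (d - c) * B := by
  have h1 := pow_mean_int h hc hcd af φ (2 * k) M n
  have h3 : ‖∫ y in c..d, (((U af φ (pt a b n y) M : ℝ) : ℂ) ^ (2 * k) - ZZ af φ (2 * k) M)‖ ≤ 1 := h1.trans herr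
  have hc1 : Continuous fun y => ((U af φ (pt a b n y) M : ℝ) : ℂ) ^ (2 * k) :=
    (Complex.continuous_ofReal.comp (Upt_cont af φ a b n M)).pow _
  have h4 : ((∫ y in c..d, (U af φ (pt a b n y) M) ^ (2 * k) : ℝ) : ℂ) =
      (∫ y in c..d, (((U af φ (pt a b n y) M : ℝ) : ℂ) ^ (2 * k) - ZZ af φ (2 * k) M)) + (d - c) * ZZ af φ (2 * k) M := by
    rw [intervalIntegral.integral_sub (hc1.intervalIntegrable _ _) intervalIntegrable_const,
      intervalIntegral.integral_const, ← intervalIntegral.integral_ofReal]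
    simp only [Complex.ofReal_pow, Complex.real_smul, Complex.ofReal_sub]
    ring
  have h5 : ∫ y in c..d, (U af φ (pt a b n y) M) ^ (2 * k) ≤
      ‖((∫ y in c..d, (U af φ (pt a b n y) M) ^ (2 * k) : ℝ) : ℂ)‖ := by
    rw [Complex.norm_real]; exact Real.le_norm_self _
  refine h5.trans ?_
  rw [h4]
  refine (norm_add_le _ _).trans (add_le_add h3 ?_)
  rw [norm_mul]
  have h6 : ‖((d:ℂ) - c)‖ = d - c := by
    rw [← Complex.ofReal_sub, Complex.norm_real, Real.norm_eq_abs, abs_of_nonneg (by linarith)]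
  rw [h6]
  exact mul_le_mul_of_nonneg_left hB (by linarith)

lemma floor_facts {n : ℕ} (hn : 1 ≤ n) : let k := ⌊Real.log n / 16⌋₊
    (k:ℝ) ≤ Real.log n / 16 ∧ Real.log n / 16 - 1 < k ∧ (((2 * k : ℕ)):ℝ) ≤ Real.log ((n:ℝ) + 1) + 1 ∧
    (2:ℝ) ^ (2 * k) ≤ ((n:ℝ) + 1) ^ (1/4:ℝ) := by
  intro k
  have hn0 : (0:ℝ) < n := by exact_mod_cast hn
  have hn1 : (1:ℝ) ≤ n := by exact_mod_cast hn
  have hL0 : 0 ≤ Real.log n := Real.log_nonneg hn1
  have h1 : (k:ℝ) ≤ Real.log n / 16 := Nat.floor_le (by positivity)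
  have h2 : Real.log n / 16 - 1 < k := by
    have := Nat.lt_floor_add_one (Real.log n / 16)
    linarith
  have h3 : Real.log n ≤ Real.log ((n:ℝ) + 1) := Real.log_le_log hn0 (by linarith)
  refine ⟨h1, h2, ?_, ?_⟩
  · push_cast
    linarith
  · have e1 : (2:ℝ) ^ (2 * k) = exp ((2 * k : ℕ) * Real.log 2) := by
      rw [Real.exp_nat_mul, Real.exp_log (by norm_num)]
    have e2 : ((n:ℝ) + 1) ^ (1/4:ℝ) = exp (Real.log ((n:ℝ) + 1) * (1/4)) := by
      rw [Real.rpow_def_of_pos (by linarith)]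
    rw [e1, e2]
    apply Real.exp_le_exp.mpr
    have h4 : Real.log 2 ≤ 1 := by
      have := Real.log_two_lt_d9
      linarith
    have h5 : 0 ≤ Real.log 2 := Real.log_nonneg (by norm_num)
    push_cast
    have hk0 : (0:ℝ) ≤ k := Nat.cast_nonneg k
    nlinarith

theorem ae_upper (hX : Ctx E af φ) {γ : ℝ} (hγ : 0 ≤ γ) {C1 : ℝ} (hC1 : 0 < C1) {k0 : ℕ} (hk0 : 3 ≤ k0)
    (hZ : ∀ k : ℕ, k0 ≤ k → ∀ M : ℕ, ‖ZZ af φ (2 * k) M‖ ≤ (C1 * psi γ k) ^ (2 * k))
    (h : Sq a b δ) (hc : 0 < c) (hcd : c ≤ d) :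
    ∀ᵐ y ∂(volume.restrict (Icc c d)), ∀ᶠ n : ℕ in atTop,
      |E (pt a b n y)| ≤ 2 * (max C1 1 * exp 16) * psi γ (Real.log n) := by
  obtain ⟨n0, hn0⟩ := err_small h hc hcd hX.bd 400
  have herr := ae_err hX h hc hcd (p := 400) le_rfl
  set C2 := max C1 1 with hC2
  have hC21 : 1 ≤ C2 := le_max_right _ _
  have hC20 : 0 < C2 := by linarith
  set C0 := C2 * exp 16 with hC0
  have hC0p : 0 < C0 := by positivity
  set kk : ℕ → ℕ := fun n => ⌊Real.log n / 16⌋₊ with hkk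
  have hlogt : Tendsto (fun n : ℕ => Real.log n / 16) atTop atTop :=
    (Real.tendsto_log_atTop.comp tendsto_natCast_atTop_atTop).atTop_div_const (by norm_num)
  obtain ⟨n1, hn1⟩ := eventually_atTop.mp (hlogt.eventually_ge_atTop ((k0:ℝ) + 1))
  have hbig : ∀ n : ℕ, max n1 (max n0 1) ≤ n → k0 ≤ kk n ∧ 1 ≤ n ∧ n0 ≤ n := by
    intro n hn
    have e1 : n1 ≤ n := (le_max_left _ _).trans hn
    have e2 : n0 ≤ n := ((le_max_left _ _).trans (le_max_right _ _)).trans hn
    have e3 : 1 ≤ n := ((le_max_right _ _).trans (le_max_right _ _)).trans hn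
    refine ⟨?_, e3, e2⟩
    have h1 := hn1 n e1
    simp only [hkk]
    apply Nat.le_floor
    linarith
  set g : ℕ → ℝ → ℝ := fun n y => (U af φ (pt a b n y) ((n + 1) ^ 400) / (C0 * psi γ (Real.log n))) ^ (2 * kk n) with hg
  have hgc : ∀ n, Continuous (g n) := fun n => ((Upt_cont af φ a b n _).div_const _).pow _
  have hs : Summable fun n : ℕ => (1 + (d - c)) * exp 32 * (n:ℝ) ^ (-2:ℝ) := by
    apply Summable.mul_left
    rw [Real.summable_nat_rpow]; norm_num
  have hpsi : ∀ n : ℕ, max n1 (max n0 1) ≤ n → 1 ≤ psi γ (kk n) ∧ psi γ (kk n) ≤ psi γ (Real.log n) := by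
    intro n hn
    obtain ⟨h1, h2, h3⟩ := hbig n hn
    obtain ⟨f1, f2, f3, f4⟩ := floor_facts h2
    have hk3 : (3:ℝ) ≤ kk n := by exact_mod_cast hk0.trans h1
    have f1' : (kk n : ℝ) ≤ Real.log n / 16 := f1
    constructor
    · exact (psi_three hγ).trans (psi_mono hγ (by norm_num) hk3)
    · apply psi_mono hγ (by linarith)
      linarith
  have hae := ae_zero' (c := c) (d := d) hcd hgc hs (j0 := max n1 (max n0 1)) (by
    intro n hn
    obtain ⟨h1, h2, h3⟩ := hbig n hn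
    obtain ⟨p1, p2⟩ := hpsi n hn
    obtain ⟨f1, f2, f3, f4⟩ := floor_facts h2
    have hn0' : (0:ℝ) < n := by exact_mod_cast h2
    have hZk := hZ (kk n) h1 ((n+1)^400)
    have hm := mom_le (af := af) (φ := φ) (n := n) h hc hcd hZk (hn0 n h3 (2 * kk n) f3 f4)
    have hpn : 0 < psi γ (Real.log n) := by linarith
    have e1 : ∫ y in c..d, g n y = (∫ y in c..d, (U af φ (pt a b n y) ((n + 1) ^ 400)) ^ (2 * kk n)) /
        (C0 * psi γ (Real.log n)) ^ (2 * kk n) := by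
      simp only [hg, div_pow]
      rw [intervalIntegral.integral_div]
    rw [e1]
    have e2 : 1 + (d - c) * (C1 * psi γ (kk n)) ^ (2 * kk n) ≤ (1 + (d - c)) * (C2 * psi γ (Real.log n)) ^ (2 * kk n) := by
      have q1 : (C1 * psi γ (kk n)) ^ (2 * kk n) ≤ (C2 * psi γ (Real.log n)) ^ (2 * kk n) := by
        apply pow_le_pow_left₀ (by positivity)
        exact mul_le_mul (le_max_left _ _) p2 (by linarith) hC20.le
      have q2 : 1 ≤ (C2 * psi γ (Real.log n)) ^ (2 * kk n) := by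
        apply one_le_pow₀
        nlinarith
      have q3 : 0 ≤ d - c := by linarith
      nlinarith
    calc (∫ y in c..d, (U af φ (pt a b n y) ((n + 1) ^ 400)) ^ (2 * kk n)) / (C0 * psi γ (Real.log n)) ^ (2 * kk n)
        ≤ ((1 + (d - c)) * (C2 * psi γ (Real.log n)) ^ (2 * kk n)) / (C0 * psi γ (Real.log n)) ^ (2 * kk n) := by
          apply div_le_div_of_nonneg_right (hm.trans e2) (by positivity)
      _ = (1 + (d - c)) * exp (-(32 * kk n)) := by
          have q1 : C0 * psi γ (Real.log n) = exp 16 * (C2 * psi γ (Real.log n)) := by rw [hC0]; ring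
          have q2 : 0 < C2 * psi γ (Real.log n) := by positivity
          rw [q1, mul_pow (exp 16), ← Real.exp_nat_mul, Real.exp_neg]
          have q3 : (((2 * kk n : ℕ)):ℝ) * 16 = 32 * kk n := by push_cast; ring
          rw [q3]
          have q4 := Real.exp_pos (32 * (kk n : ℝ))
          field_simp
      _ ≤ (1 + (d - c)) * exp 32 * (n:ℝ) ^ (-2:ℝ) := by
          rw [mul_assoc]
          apply mul_le_mul_of_nonneg_left _ (by linarith)
          rw [Real.rpow_def_of_pos hn0', ← Real.exp_add]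
          apply Real.exp_le_exp.mpr
          have f2' : Real.log n / 16 - 1 < kk n := f2
          linarith) (fun n y => by
      simp only [hg]
      exact Even.pow_nonneg (even_two_mul _) _)
  filter_upwards [hae, herr] with y hy1 hy2
  filter_upwards [hy1.eventually (gt_mem_nhds (zero_lt_one)), (tendsto_zero_iff_abs_tendsto_zero _ |>.mp hy2).eventually (gt_mem_nhds (zero_lt_one)),
    eventually_ge_atTop (max n1 (max n0 1))] with n h1 h2 hn
  obtain ⟨b1, b2, b3⟩ := hbig n hn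
  obtain ⟨p1, p2⟩ := hpsi n hn
  have hpn : 1 ≤ psi γ (Real.log n) := by linarith
  have hD : 0 < C0 * psi γ (Real.log n) := by positivity
  have h3 : |U af φ (pt a b n y) ((n + 1) ^ 400)| < C0 * psi γ (Real.log n) := by
    by_contra hne
    push Not at hne
    have h4 : 1 ≤ |U af φ (pt a b n y) ((n + 1) ^ 400) / (C0 * psi γ (Real.log n))| := by
      rw [abs_div, abs_of_pos hD, le_div_iff₀ hD, one_mul]
      exact hne
    have h5 : 1 ≤ g n y := by
      simp only [hg]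
      rw [← Even.pow_abs (even_two_mul _)]
      exact one_le_pow₀ h4
    linarith
  have h2' : |E (pt a b n y) - U af φ (pt a b n y) ((n + 1) ^ 400)| < 1 := h2
  have h6 : |E (pt a b n y)| ≤ |U af φ (pt a b n y) ((n + 1) ^ 400)| + |E (pt a b n y) - U af φ (pt a b n y) ((n + 1) ^ 400)| := by
    have := abs_add_le (U af φ (pt a b n y) ((n + 1) ^ 400)) (E (pt a b n y) - U af φ (pt a b n y) ((n + 1) ^ 400))
    rwa [add_sub_cancel] at this
  have h7 : 1 ≤ C0 * psi γ (Real.log n) := by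
    have q1 : 1 ≤ C0 := by
      rw [hC0]
      have := Real.one_le_exp (by norm_num : (0:ℝ) ≤ 16)
      nlinarith
    nlinarith
  nlinarith

end Pool.Agent.NH14.LI
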