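import Mathlib
import Pool.Agent.NH14.LI.N14
import Pool.Agent.NH14.LI.N8

/-! The choice of the parameters. -/

set_option autoImplicit false

open MeasureTheory Filter Topology Set Real
open Pool.Agent.H383.Gen (U Bd)
open Pool.Agent.Y969.TM
open Pool.Agent.R306.GP

namespace Pool.Agent.NH14.LI

variable {σ φ : ℝ} {a b : ℕ → ℝ} {δ c d : ℝ} {af : ℕ → ℝ}

/-- the sets of the omega theorem exist -/
def HSet (af : ℕ → ℝ) (γ c1 : ℝ) : Prop := ∃ K0 : ℝ, ∀ K : ℝ, K0 ≤ K → ∃ 𝓜 : Finset ℕ, (𝓜.card : ℝ) ≤ K ∧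
      (∀ m ∈ 𝓜, Squarefree m ∧ 1 ≤ m ∧ (m:ℝ) ≤ K ^ 3) ∧
      c1 * K ^ (1/4:ℝ) * (Real.log K) ^ γ ≤ ∑ m ∈ 𝓜, af m

/-- the parameter -/
noncomputable def Kj (j : ℕ) : ℝ := Real.log ((j:ℝ) + 1) / 8

/-- properties of the sets attached to `j` -/
structure Dat (af : ℕ → ℝ) (γ c1 : ℝ) (p : ℕ) (D0 : ℝ) (j : ℕ) (Q : Finset ℕ) : Prop where
  sq : ∀ q ∈ Q, Squarefree q ∧ q ≤ ((j^2+1)^p)^2
  two : (2:ℝ) ^ Q.card ≤ ((j:ℝ) + 1) ^ (1/8:ℝ)
  aa : (1 + AA af ((j^2+1)^p)) ^ 2 ≤ exp (D0 * √((j:ℝ) + 1))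
  gg : GG2 Q ((j^2+1)^p) ≤ exp (D0 * √((j:ℝ) + 1))
  km : (Q.card : ℝ) * (((j^2+1)^p : ℕ) : ℝ) ≤ exp (D0 * √((j:ℝ) + 1))
  lo : c1 * (Kj j) ^ (1/4:ℝ) * (Real.log (Kj j)) ^ γ ≤ ∑ m ∈ Q, af m

lemma log_le8 {x : ℝ} (hx : 0 < x) : Real.log x ≤ 8 * x ^ (1/8:ℝ) := by
  have := Real.log_le_rpow_div hx.le (by norm_num : (0:ℝ) < 1/8)
  linarith

theorem exists_dat (ha : Bd af) {γ c1 : ℝ} (hs : HSet af γ c1) {p : ℕ} (hp : 2 ≤ p) :
    ∃ D0 : ℝ, 0 < D0 ∧ ∃ j1 : ℕ, ∀ j : ℕ, j1 ≤ j → ∃ Q : Finset ℕ, Dat af γ c1 p D0 j Q := by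
  obtain ⟨K0, hK0⟩ := hs
  obtain ⟨Cs, hCs, hAA⟩ := AA_le ha
  set P : ℝ := (p:ℝ) with hP
  have hP0 : 0 ≤ P := Nat.cast_nonneg p
  have hP2 : 2 ≤ P := by rw [hP]; exact_mod_cast hp
  set D0 : ℝ := 2 * |Real.log (2 * Cs)| + 64 * P + 32 * (2 * P + 4) with hD0
  have hlog : Tendsto (fun j : ℕ => Kj j) atTop atTop := by
    unfold Kj
    have h1 : Tendsto (fun j : ℕ => (j:ℝ) + 1) atTop atTop :=
      tendsto_atTop_add_const_right _ _ tendsto_natCast_atTop_atTop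
    exact (Real.tendsto_log_atTop.comp h1).atTop_div_const (by norm_num)
  obtain ⟨j1, hj1⟩ := eventually_atTop.mp (hlog.eventually_ge_atTop (max K0 1))
  refine ⟨D0, by positivity, max j1 1, fun j hj => ?_⟩
  have hjK := hj1 j ((le_max_left _ _).trans hj)
  have hj1' : 1 ≤ j := (le_max_right _ _).trans hj
  obtain ⟨Q, hQ1, hQ2, hQ3⟩ := hK0 (Kj j) ((le_max_left _ _).trans hjK)
  have hjr : (1:ℝ) ≤ j := by exact_mod_cast hj1'
  set x : ℝ := (j:ℝ) + 1 with hx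
  have hx2 : 2 ≤ x := by linarith
  have hx0 : 0 < x := by linarith
  set L := Real.log x with hL
  have hL0 : 0 ≤ L := Real.log_nonneg (by linarith)
  have hKj : Kj j = L / 8 := rfl
  have hK1 : 1 ≤ Kj j := (le_max_right _ _).trans hjK
  have hKx : Kj j ≤ x := by
    rw [hKj]
    have := Real.log_le_sub_one_of_pos hx0
    linarith
  set q8 := x ^ (1/8:ℝ) with hq8
  have hq81 : 1 ≤ q8 := Real.one_le_rpow (by linarith) (by norm_num)
  have hLq8 : L ≤ 8 * q8 := log_le8 hx0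
  have hq84 : q8 * q8 ≤ √x := by
    rw [hq8, ← Real.rpow_add hx0, Real.sqrt_eq_rpow]
    exact Real.rpow_le_rpow_of_exponent_le (by linarith) (by norm_num)
  have hL4 : L ≤ 8 * √x := by nlinarith
  have hsx1 : 1 ≤ √x := by rw [Real.one_le_sqrt]; linarith
  have htwo : (2:ℝ) ^ Q.card ≤ q8 := by
    rw [hq8, Real.rpow_def_of_pos hx0]
    have e1 : (2:ℝ) ^ Q.card = exp (Q.card * Real.log 2) := by
      rw [Real.exp_nat_mul, Real.exp_log (by norm_num)]
    rw [e1]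
    apply Real.exp_le_exp.mpr
    have h4 : Real.log 2 ≤ 1 := by
      have := Real.log_two_lt_d9
      linarith
    have h5 : 0 ≤ Real.log 2 := Real.log_nonneg (by norm_num)
    have h6 : (Q.card : ℝ) ≤ L / 8 := hQ1
    have h7 : (0:ℝ) ≤ Q.card := Nat.cast_nonneg _
    nlinarith
  -- sizes of M
  have hM1 : ((((j^2+1)^p : ℕ)) : ℝ) ≤ x ^ (2 * p) := by
    push_cast
    rw [pow_mul]
    apply pow_le_pow_left₀ (by positivity)
    rw [hx]; nlinarith
  have hM2 : x ^ p ≤ ((((j^2+1)^p : ℕ)) : ℝ) := by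
    push_cast
    apply pow_le_pow_left₀ hx0.le
    rw [hx]; nlinarith
  have hMp : x ^ (2 * p) = exp (2 * P * L) := by
    rw [← pow_exp hx0]
    congr 1
    push_cast; ring
  refine ⟨Q, ?_, htwo, ?_, ?_, ?_, hQ3⟩
  · intro q hq
    obtain ⟨h1, h2, h3⟩ := hQ2 q hq
    refine ⟨h1, ?_⟩
    have h4 : (q:ℝ) ≤ (((((j^2+1)^p : ℕ)) : ℝ)) ^ 2 := by
      calc (q:ℝ) ≤ (Kj j) ^ 3 := h3
        _ ≤ x ^ 3 := pow_le_pow_left₀ (by linarith) hKx 3
        _ ≤ x ^ (p * 2) := pow_le_pow_right₀ (by linarith) (by omega)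
        _ = (x ^ p) ^ 2 := by rw [pow_mul]
        _ ≤ _ := pow_le_pow_left₀ (by positivity) hM2 2
    exact_mod_cast h4
  · -- AA
    have h1 : 1 + AA af ((j^2+1)^p) ≤ exp (|Real.log (2 * Cs)| + 4 * P * L) := by
      have h2 : AA af ((j^2+1)^p) ≤ Cs * (x ^ (2 * p)) ^ 2 := by
        refine (hAA _).trans ?_
        apply mul_le_mul_of_nonneg_left _ (by linarith)
        exact pow_le_pow_left₀ (Nat.cast_nonneg _) hM1 2
      have h3 : (x ^ (2 * p)) ^ 2 = exp (4 * P * L) := by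
        rw [hMp, ← Real.exp_nat_mul]
        congr 1
        push_cast; ring
      rw [h3] at h2
      have h4 : 1 ≤ exp (4 * P * L) := Real.one_le_exp (by positivity)
      have h5 : 2 * Cs ≤ exp |Real.log (2 * Cs)| := by
        calc 2 * Cs = exp (Real.log (2 * Cs)) := (Real.exp_log (by linarith)).symm
          _ ≤ _ := Real.exp_le_exp.mpr (le_abs_self _)
      rw [Real.exp_add]
      calc 1 + AA af ((j^2+1)^p) ≤ exp (4 * P * L) + Cs * exp (4 * P * L) := add_le_add h4 h2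
        _ ≤ (2 * Cs) * exp (4 * P * L) := by nlinarith
        _ ≤ _ := mul_le_mul_of_nonneg_right h5 (Real.exp_pos _).le
    have h0 := AA_nonneg af ((j^2+1)^p)
    calc (1 + AA af ((j^2+1)^p)) ^ 2 ≤ (exp (|Real.log (2 * Cs)| + 4 * P * L)) ^ 2 := pow_le_pow_left₀ (by linarith) h1 2
      _ = exp (2 * (|Real.log (2 * Cs)| + 4 * P * L)) := by rw [← Real.exp_nat_mul]; norm_num
      _ ≤ _ := by
          apply Real.exp_le_exp.mpr
          have h5 := abs_nonneg (Real.log (2 * Cs))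
          have h6 : P * L ≤ P * (8 * √x) := mul_le_mul_of_nonneg_left hL4 hP0
          have h7 : |Real.log (2 * Cs)| ≤ |Real.log (2 * Cs)| * √x := by nlinarith
          have h8 : 0 ≤ 32 * (2 * P + 4) * √x := by positivity
          have h9 : D0 * √x = 2 * (|Real.log (2 * Cs)| * √x) + 8 * (P * (8 * √x)) + 32 * (2 * P + 4) * √x := by rw [hD0]; ring
          linarith
  · -- GG2
    unfold GG2
    have h1 : ((((Q.card + 2) * (j^2+1)^p + 1 : ℕ)) : ℝ) ≤ exp ((2 * P + 4) * L) := by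
      have h2 : exp ((2 * P + 4) * L) = x ^ 4 * x ^ (2 * p) := by
        rw [← pow_add, ← pow_exp hx0]
        congr 1
        push_cast; ring
      rw [h2]
      have h3 : (Q.card : ℝ) ≤ x := hQ1.trans hKx
      have h4 : (1:ℝ) ≤ x ^ (2 * p) := one_le_pow₀ (by linarith)
      have h5 : ((((Q.card + 2) * (j^2+1)^p + 1 : ℕ)) : ℝ) = (Q.card + 2) * ((((j^2+1)^p : ℕ)) : ℝ) + 1 := by push_cast; rfl
      rw [h5]
      have h6 : ((Q.card : ℝ) + 2) * ((((j^2+1)^p : ℕ)) : ℝ) ≤ (x + 2) * x ^ (2 * p) :=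
        mul_le_mul (by linarith) hM1 (Nat.cast_nonneg _) (by linarith)
      have h8 : x + 3 ≤ x ^ 4 := by
        have e0 : 2 * x ≤ x ^ 2 := by rw [pow_two]; exact mul_le_mul_of_nonneg_right hx2 hx0.le
        have e1 : (2 * x) ^ 2 ≤ (x ^ 2) ^ 2 := pow_le_pow_left₀ (by linarith) e0 2
        have e2 : (x ^ 2) ^ 2 = x ^ 4 := by rw [← pow_mul]
        have e3 : (2 * x) ^ 2 = 4 * x ^ 2 := by rw [mul_pow]; norm_num
        rw [e2, e3] at e1
        linarith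
      have h9 := mul_le_mul_of_nonneg_right h8 (by linarith : 0 ≤ x ^ (2 * p))
      linarith
    have h10 : (((2 ^ (Q.card + 2) : ℕ)) : ℝ) ≤ 4 * q8 := by
      push_cast
      rw [pow_add]
      linarith
    calc ((((Q.card + 2) * (j^2+1)^p + 1 : ℕ)) : ℝ) ^ (2 ^ (Q.card + 2)) ≤ (exp ((2 * P + 4) * L)) ^ (2 ^ (Q.card + 2)) :=
          pow_le_pow_left₀ (Nat.cast_nonneg _) h1 _
      _ = exp (((2 ^ (Q.card + 2) : ℕ) : ℝ) * ((2 * P + 4) * L)) := by rw [Real.exp_nat_mul]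
      _ ≤ _ := by
          apply Real.exp_le_exp.mpr
          have h11 : (2 * P + 4) * L ≤ (2 * P + 4) * (8 * q8) := mul_le_mul_of_nonneg_left hLq8 (by linarith)
          have h12 := abs_nonneg (Real.log (2 * Cs))
          calc ((2 ^ (Q.card + 2) : ℕ) : ℝ) * ((2 * P + 4) * L) ≤ (4 * q8) * ((2 * P + 4) * (8 * q8)) :=
                mul_le_mul h10 h11 (by positivity) (by linarith)
            _ = 32 * (2 * P + 4) * (q8 * q8) := by ring
            _ ≤ 32 * (2 * P + 4) * √x := by gcongr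
            _ ≤ D0 * √x := by
                apply mul_le_mul_of_nonneg_right _ (by positivity)
                rw [hD0]
                linarith
  · -- km
    have h3 : (Q.card : ℝ) ≤ x := hQ1.trans hKx
    have h2 : exp ((2 * P + 1) * L) = x * x ^ (2 * p) := by
      rw [hMp, add_mul, one_mul, Real.exp_add, Real.exp_log hx0, mul_comm]
    calc (Q.card : ℝ) * (((j^2+1)^p : ℕ) : ℝ) ≤ x * x ^ (2 * p) := mul_le_mul h3 hM1 (Nat.cast_nonneg _) hx0.le
      _ = exp ((2 * P + 1) * L) := h2.symm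
      _ ≤ _ := by
          apply Real.exp_le_exp.mpr
          have h12 := abs_nonneg (Real.log (2 * Cs))
          have h13 : (2 * P + 1) * L ≤ (2 * P + 1) * (8 * √x) := mul_le_mul_of_nonneg_left hL4 (by linarith)
          have h14 : (2 * P + 1) * 8 ≤ D0 := by rw [hD0]; linarith
          calc (2 * P + 1) * L ≤ ((2 * P + 1) * 8) * √x := by linarith
            _ ≤ D0 * √x := mul_le_mul_of_nonneg_right h14 (by positivity)

end Pool.Agent.NH14.LI
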