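import Mathlib
import Pool.Agent.NH14.LI.N15

/-! The second moment argument in a window. -/

set_option autoImplicit false

open MeasureTheory Filter Topology Set Real
open scoped ENNReal
open Pool.Agent.H383.Gen (U Bd)
open Pool.Agent.Y969.TM
open Pool.Agent.R306.GP

namespace Pool.Agent.NH14.LI

variable {σ φ : ℝ} {a b : ℕ → ℝ} {δ c d : ℝ} {af : ℕ → ℝ}

lemma sq_sum_le (ha : Bd af) : ∃ C3 : ℝ, 0 ≤ C3 ∧ ∀ M : ℕ, 3 / 2 * ∑ m ∈ Finset.Icc 1 (M^2), (af m)^2 ≤ C3 := by
  obtain ⟨C, hC, h⟩ := ha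
  have hsum : Summable (fun t : ℕ => (t:ℝ) ^ (-(37/25):ℝ)) := by
    rw [Real.summable_nat_rpow]; norm_num
  have hZ0 : 0 ≤ ∑' t : ℕ, (t:ℝ) ^ (-(37/25):ℝ) := tsum_nonneg fun t => by positivity
  refine ⟨3 / 2 * (C^2 * ∑' t : ℕ, (t:ℝ) ^ (-(37/25):ℝ)), by positivity, fun M => ?_⟩
  apply mul_le_mul_of_nonneg_left _ (by norm_num)
  calc ∑ m ∈ Finset.Icc 1 (M^2), (af m)^2 ≤ ∑ m ∈ Finset.Icc 1 (M^2), C^2 * (m:ℝ) ^ (-(37/25):ℝ) := by
        apply Finset.sum_le_sum
        intro m hm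
        rw [Finset.mem_Icc] at hm
        have hm0 : (0:ℝ) < m := by exact_mod_cast hm.1
        have h1 := h m hm.1
        have h2 : (C * (√(m:ℝ)) ^ (-(37/25):ℝ)) ^ 2 = C^2 * (m:ℝ) ^ (-(37/25):ℝ) := by
          rw [mul_pow, Real.sqrt_eq_rpow, ← Real.rpow_mul hm0.le, ← Real.rpow_natCast, ← Real.rpow_natCast, ← Real.rpow_mul hm0.le]
          norm_num
        rw [← h2, ← sq_abs]
        exact pow_le_pow_left₀ (abs_nonneg _) h1 2
    _ = C^2 * ∑ m ∈ Finset.Icc 1 (M^2), (m:ℝ) ^ (-(37/25):ℝ) := by rw [Finset.mul_sum]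
    _ ≤ _ := by
        apply mul_le_mul_of_nonneg_left _ (by positivity)
        exact hsum.sum_le_tsum _ (fun t _ => by positivity)

lemma pt_ratio (h : Sq a b δ) (hc : 0 < c) {n m : ℕ} (hnm : n < m) {y : ℝ} (hy : c ≤ y) :
    exp (δ * c * ((m:ℝ) - n)) * pt a b n y ≤ pt a b m y := by
  have hgap : ∀ k : ℕ, a n + δ * k ≤ a (n + k) := by
    intro k
    induction k with
    | zero => simp
    | succ k ih =>
      have := h.gap (n + k)
      push_cast
      have e1 : n + (k + 1) = n + k + 1 := by ring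
      rw [e1]
      linarith
  obtain ⟨k, rfl⟩ := Nat.exists_eq_add_of_lt hnm
  have h1 := hgap (k + 1)
  have e1 : n + (k + 1) = n + k + 1 := by ring
  rw [e1] at h1
  have hb := h.mono (show n ≤ n + k + 1 by omega)
  have hbn := h.pos n
  unfold pt
  have h2 : exp (δ * c * (((n + k + 1 : ℕ):ℝ) - n)) * exp (a n * y) ≤ exp (a (n + k + 1) * y) := by
    rw [← Real.exp_add]
    apply Real.exp_le_exp.mpr
    have hy0 : 0 < y := by linarith
    have h3 : (a n + δ * ((k + 1 : ℕ):ℝ)) * y ≤ a (n + k + 1) * y := mul_le_mul_of_nonneg_right h1 hy0.le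
    have h4 : δ * c * ((k:ℝ) + 1) ≤ δ * y * ((k:ℝ) + 1) := by
      have : 0 ≤ (k:ℝ) + 1 := by positivity
      have h5 : δ * c ≤ δ * y := mul_le_mul_of_nonneg_left hy h.dpos.le
      exact mul_le_mul_of_nonneg_right h5 this
    push_cast at h3 ⊢
    have e2 : δ * c * ((n:ℝ) + k + 1 - n) = δ * c * ((k:ℝ) + 1) := by ring
    rw [e2]
    have e3 : (a n + δ * ((k:ℝ) + 1)) * y = a n * y + δ * y * ((k:ℝ) + 1) := by ring
    linarith
  calc exp (δ * c * (((n + k + 1 : ℕ):ℝ) - n)) * (b n * exp (a n * y))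
      = b n * (exp (δ * c * (((n + k + 1 : ℕ):ℝ) - n)) * exp (a n * y)) := by ring
    _ ≤ b (n + k + 1) * exp (a (n + k + 1) * y) := mul_le_mul hb h2 (by positivity) (by linarith)

lemma ii_sum {S : Finset ℕ} {g : ℕ → ℝ → ℝ} {c d : ℝ} (h : ∀ j ∈ S, IntervalIntegrable (g j) volume c d) :
    IntervalIntegrable (fun y => ∑ j ∈ S, g j y) volume c d := by
  have h1 := IntervalIntegrable.sum S h
  have e : (∑ j ∈ S, g j) = fun y => ∑ j ∈ S, g j y := by funext y; simp
  rwa [e] at h1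

/-- the abstract second moment bound -/
lemma second_moment {c d : ℝ} (hcd : c < d) {S : Finset ℕ} {J : ℝ} (hJ : 0 < J) {f : ℕ → ℝ → ℝ} {G : ℕ → Set ℝ}
    (hGm : ∀ j, MeasurableSet (G j))
    (hfm : ∀ j ∈ S, Measurable (f j)) (hf0 : ∀ j ∈ S, ∀ y, 0 ≤ f j y) (hfG : ∀ j ∈ S, ∀ y, y ∉ G j → f j y = 0)
    {B : ℝ} (hB : ∀ j ∈ S, ∀ y, f j y ≤ B)
    (h1 : J * ((d - c) / 4) ≤ ∑ j ∈ S, ∫ y in c..d, f j y)
    (h2 : ∑ i ∈ S, ∑ j ∈ S, ∫ y in c..d, f i y * f j y ≤ 2 * J^2 * (d - c)) :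
    ENNReal.ofReal ((d - c) / 32) ≤ volume ((⋃ j ∈ S, G j) ∩ Icc c d) := by
  classical
  set V : Set ℝ := ⋃ j ∈ S, G j with hV
  have hVm : MeasurableSet V := Finset.measurableSet_biUnion _ fun j _ => hGm j
  set F : ℝ → ℝ := fun y => ∑ j ∈ S, f j y with hF
  have hii : ∀ j ∈ S, IntervalIntegrable (f j) volume c d := by
    intro j hj
    rw [intervalIntegrable_iff_integrableOn_Icc_of_le hcd.le]
    refine Measure.integrableOn_of_bounded (M := B) (by simp) (hfm j hj).aestronglyMeasurable ?_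
    exact Eventually.of_forall fun y => by
      rw [Real.norm_eq_abs, abs_of_nonneg (hf0 j hj y)]; exact hB j hj y
  have hB0 : ∀ j ∈ S, 0 ≤ B := fun j hj => (hf0 j hj 0).trans (hB j hj 0)
  have hij : ∀ i ∈ S, ∀ j ∈ S, IntervalIntegrable (fun y => f i y * f j y) volume c d := by
    intro i hi j hj
    rw [intervalIntegrable_iff_integrableOn_Icc_of_le hcd.le]
    refine Measure.integrableOn_of_bounded (M := B * B) (by simp) ((hfm i hi).mul (hfm j hj)).aestronglyMeasurable ?_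
    exact Eventually.of_forall fun y => by
      rw [norm_mul, Real.norm_eq_abs, Real.norm_eq_abs, abs_of_nonneg (hf0 j hj y), abs_of_nonneg (hf0 i hi y)]
      exact mul_le_mul (hB i hi y) (hB j hj y) (hf0 j hj y) (hB0 i hi)
  have hFi : IntervalIntegrable F volume c d := ii_sum hii
  have hFF : ∀ y, F y ^ 2 = ∑ i ∈ S, ∑ j ∈ S, f i y * f j y := by
    intro y
    simp only [hF]
    rw [pow_two, Finset.sum_mul_sum]
  have hF2i : IntervalIntegrable (fun y => F y ^ 2) volume c d := by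
    simp only [hFF]
    exact ii_sum fun i hi => ii_sum fun j hj => hij i hi j hj
  have hVi : IntervalIntegrable (V.indicator fun _ => (1:ℝ)) volume c d := by
    rw [intervalIntegrable_iff_integrableOn_Icc_of_le hcd.le]
    exact (integrableOn_const (by simp)).indicator hVm
  have e1 : ∫ y in c..d, F y = ∑ j ∈ S, ∫ y in c..d, f j y := intervalIntegral.integral_finsetSum hii
  have e2 : ∫ y in c..d, F y ^ 2 = ∑ i ∈ S, ∑ j ∈ S, ∫ y in c..d, f i y * f j y := by
    simp only [hFF]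
    rw [intervalIntegral.integral_finsetSum]
    · apply Finset.sum_congr rfl
      intro i hi
      rw [intervalIntegral.integral_finsetSum (hij i hi)]
    · intro i hi
      exact ii_sum fun j hj => hij i hi j hj
  have hmono : ∫ y in c..d, F y ≤ ∫ y in c..d, (4 * J * (V.indicator (fun _ => (1:ℝ)) y) + 1 / (16 * J) * F y ^ 2) := by
    apply intervalIntegral.integral_mono_on hcd.le hFi ((hVi.const_mul _).add (hF2i.const_mul _))
    intro y _
    by_cases hy : y ∈ V
    · rw [indicator_of_mem hy, mul_one]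
      have : 4 * J + 1 / (16 * J) * F y ^ 2 - F y = (F y - 8 * J) ^ 2 / (16 * J) := by field_simp; ring
      have h3 : 0 ≤ (F y - 8 * J) ^ 2 / (16 * J) := by positivity
      linarith
    · have hF0 : F y = 0 := by
        simp only [hF]
        apply Finset.sum_eq_zero
        intro j hj
        apply hfG j hj
        intro hy2
        apply hy
        rw [hV, mem_iUnion₂]
        exact ⟨j, hj, hy2⟩
      rw [indicator_of_notMem hy, hF0]; simp
  have i1 : IntervalIntegrable (fun y => 4 * J * (V.indicator (fun _ => (1:ℝ)) y)) volume c d := hVi.const_mul _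
  have i2 : IntervalIntegrable (fun y => 1 / (16 * J) * F y ^ 2) volume c d := hF2i.const_mul _
  rw [intervalIntegral.integral_add i1 i2, intervalIntegral.integral_const_mul, intervalIntegral.integral_const_mul, e1, e2] at hmono
  set IV := ∫ y in c..d, V.indicator (fun _ => (1:ℝ)) y with hIV
  have hIVle : (d - c) / 32 ≤ IV := by
    have k1 : 1 / (16 * J) * ∑ i ∈ S, ∑ j ∈ S, ∫ y in c..d, f i y * f j y ≤ 1 / (16 * J) * (2 * J^2 * (d - c)) :=
      mul_le_mul_of_nonneg_left h2 (by positivity)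
    have k2 : 1 / (16 * J) * (2 * J^2 * (d - c)) = J * ((d - c) / 8) := by field_simp; ring
    have k3 : J * ((d - c) / 8) ≤ 4 * J * IV := by linarith
    have k4 : (4 * J) * ((d - c) / 32) ≤ (4 * J) * IV := by
      calc (4 * J) * ((d - c) / 32) = J * ((d - c) / 8) := by ring
        _ ≤ _ := k3
    exact le_of_mul_le_mul_left k4 (by positivity)
  have hIVv : IV = (volume (V ∩ Icc c d)).toReal := by
    rw [hIV, intervalIntegral.integral_of_le hcd.le, ← integral_Icc_eq_integral_Ioc, integral_indicator hVm]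
    rw [Measure.restrict_restrict hVm, setIntegral_const, smul_eq_mul, mul_one]
    rfl
  rw [hIVv] at hIVle
  exact ENNReal.ofReal_le_of_le_toReal hIVle

end Pool.Agent.NH14.LI
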