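import Mathlib
import Pool.Agent.NH14.LI.N16

/-! Large values occur with positive measure in every window of parameters. -/

set_option autoImplicit false

open MeasureTheory Filter Topology Set Real
open scoped ENNReal
open Pool.Agent.H383.Gen (U Bd)
open Pool.Agent.Y969.TM
open Pool.Agent.R306.GP

namespace Pool.Agent.NH14.LI

variable {σ φ : ℝ} {a b : ℕ → ℝ} {δ c d : ℝ} {af : ℕ → ℝ}

/-- the sets -/
def GJ (σ φ : ℝ) (af a b : ℕ → ℝ) (p : ℕ) (Qf : ℕ → Finset ℕ) (j : ℕ) : Set ℝ :=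
  Gs σ φ af a b (Qf j) ((j^2+1)^p) (j^2)

theorem window (hσ : σ = 1 ∨ σ = -1) (hpos : ∀ m, 0 ≤ af m) (ha : Bd af) (h : Sq a b δ) {γ c1 : ℝ} (hγ : 0 ≤ γ)
    (hc1 : 0 < c1) {p : ℕ} {D0 : ℝ} (hD0 : 0 < D0) {j1 : ℕ} {Qf : ℕ → Finset ℕ} (hD : ∀ j, j1 ≤ j → Dat af γ c1 p D0 j (Qf j))
    (hc : 0 < c) (hcd : c < d) : ∃ J0 : ℕ, ∀ J : ℕ, J0 ≤ J →
      ENNReal.ofReal ((d - c) / 32) ≤ volume ((⋃ j ∈ Finset.Ioc J (2 * J), GJ σ φ af a b p Qf j) ∩ Icc c d) := by
  have hσ1 : |σ| ≤ 1 := by rcases hσ with h | h <;> rw [h] <;> simp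
  obtain ⟨C3, hC30, hC3⟩ := sq_sum_le ha
  have hCp := Cp_pos hc hcd.le h.dpos
  have hsc : 0 < δ * c := mul_pos h.dpos hc
  have hb0 := h.pos 0
  have hDp : 0 < d - c := by linarith
  -- growth of A
  have hlog : Tendsto (fun j : ℕ => Kj j) atTop atTop := by
    unfold Kj
    have h1 : Tendsto (fun j : ℕ => (j:ℝ) + 1) atTop atTop :=
      tendsto_atTop_add_const_right _ _ tendsto_natCast_atTop_atTop
    exact (Real.tendsto_log_atTop.comp h1).atTop_div_const (by norm_num)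
  have hK14 : Tendsto (fun j : ℕ => c1 * (Kj j) ^ (1/4:ℝ)) atTop atTop :=
    ((tendsto_rpow_atTop (by norm_num : (0:ℝ) < 1/4)).comp hlog).const_mul_atTop hc1
  obtain ⟨j2, hj2⟩ := eventually_atTop.mp ((hK14.eventually_ge_atTop (128 * C3 + 1)).and (hlog.eventually_ge_atTop (exp 1)))
  -- smallness of the error
  set D1 : ℝ := 2 * D0 + 1 with hD1
  obtain ⟨j3, hj3⟩ := big_exp (β := b 0 * ((d - c) / 200 / (2 * Cp c d δ))) (s := δ * c) (by positivity) hsc D1
  -- pairs
  obtain ⟨j4, hj4⟩ := big_exp (β := b 0 * ((d - c) / 2 / (2 * Cp c d δ + (4 + 6 * (d - c))))) (s := δ * c) (by positivity) hsc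
    ((D0 + 2) * 2)
  obtain ⟨j5, hj5⟩ := big_exp (β := 1) (s := δ * c) one_pos hsc (2 * D0 + 1)
  refine ⟨j1 + j2 + j3 + j4 + j5 + 2 ^ 20, fun J hJ => ?_⟩
  have hJpos : 0 < J := by
    have : 0 < 2 ^ 20 := by norm_num
    omega
  have hJr : (0:ℝ) < J := by exact_mod_cast hJpos
  have hrange : ∀ j ∈ Finset.Ioc J (2 * J), J < j ∧ j ≤ 2 * J := fun j hj => Finset.mem_Ioc.mp hj
  have hdat : ∀ j ∈ Finset.Ioc J (2 * J), Dat af γ c1 p D0 j (Qf j) := fun j hj => hD j (by
    have := hrange j hj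
    omega)
  have hx8 : ∀ j : ℕ, ((j:ℝ) + 1) ^ (1/8:ℝ) ≤ exp (√((j:ℝ) + 1)) := by
    intro j
    have h1 : (1:ℝ) ≤ (j:ℝ) + 1 := by
      have : (0:ℝ) ≤ j := Nat.cast_nonneg j
      linarith
    calc ((j:ℝ) + 1) ^ (1/8:ℝ) ≤ ((j:ℝ) + 1) ^ (1/2:ℝ) := Real.rpow_le_rpow_of_exponent_le h1 (by norm_num)
      _ = √((j:ℝ) + 1) := (Real.sqrt_eq_rpow _).symm
      _ ≤ √((j:ℝ) + 1) + 1 := by linarith
      _ ≤ _ := Real.add_one_le_exp _
  have hptlow : ∀ j : ℕ, b 0 * exp (δ * c * j) ≤ pt a b (j^2) c := by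
    intro j
    refine le_trans ?_ (pt_low h hc.le (j^2))
    apply mul_le_mul_of_nonneg_left _ hb0.le
    apply Real.exp_le_exp.mpr
    apply mul_le_mul_of_nonneg_left _ hsc.le
    have : j ≤ j^2 := by nlinarith [Nat.zero_le j]
    exact_mod_cast this
  -- error bound
  have herr : ∀ j ∈ Finset.Ioc J (2 * J), er af a b δ c d (Qf j) ((j^2+1)^p) (j^2) ≤ (d - c) / 200 := by
    intro j hj
    have hr := hrange j hj
    have dj := hdat j hj
    have hp := pt_pos h (j^2) c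
    have e3 := hj3 j (by omega)
    set X := √((j:ℝ) + 1) with hX
    have hX0 : 0 ≤ X := Real.sqrt_nonneg _
    have hAA := AA_nonneg af ((j^2+1)^p)
    have hG := GG2_ge (Qf j) ((j^2+1)^p)
    unfold er
    have t1 : (2:ℝ) ^ (Qf j).card * (1 + AA af ((j^2+1)^p)) ^ 2 * GG2 (Qf j) ((j^2+1)^p) ≤ exp (D1 * X) := by
      calc (2:ℝ) ^ (Qf j).card * (1 + AA af ((j^2+1)^p)) ^ 2 * GG2 (Qf j) ((j^2+1)^p)
          ≤ exp X * exp (D0 * X) * exp (D0 * X) := by
            apply mul_le_mul _ dj.gg (by linarith) (by positivity)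
            exact mul_le_mul (dj.two.trans (hx8 j)) dj.aa (by positivity) (Real.exp_pos _).le
        _ = exp (D1 * X) := by
            rw [← Real.exp_add, ← Real.exp_add, hD1]; congr 1; ring
    have t2 : exp (D1 * X) ≤ pt a b (j^2) c * ((d - c) / 200 / (2 * Cp c d δ)) := by
      refine e3.trans ?_
      calc b 0 * ((d - c) / 200 / (2 * Cp c d δ)) * exp (δ * c * j) = (b 0 * exp (δ * c * j)) * ((d - c) / 200 / (2 * Cp c d δ)) := by ring
        _ ≤ _ := mul_le_mul_of_nonneg_right (hptlow j) (by positivity)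
    calc (2:ℝ) ^ (Qf j).card * (1 + AA af ((j^2+1)^p)) ^ 2 * (2 * Cp c d δ * GG2 (Qf j) ((j^2+1)^p) / pt a b (j^2) c)
        = ((2:ℝ) ^ (Qf j).card * (1 + AA af ((j^2+1)^p)) ^ 2 * GG2 (Qf j) ((j^2+1)^p)) * (2 * Cp c d δ) / pt a b (j^2) c := by ring
      _ ≤ (pt a b (j^2) c * ((d - c) / 200 / (2 * Cp c d δ))) * (2 * Cp c d δ) / pt a b (j^2) c := by
          apply div_le_div_of_nonneg_right _ hp.le
          exact mul_le_mul_of_nonneg_right (t1.trans t2) (by positivity)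
      _ = _ := by field_simp
  -- lower bounds
  have hlow : ∀ j ∈ Finset.Ioc J (2 * J), (d - c) / 4 ≤ ∫ y in c..d, fj σ φ af a b (Qf j) ((j^2+1)^p) (j^2) y := by
    intro j hj
    have hr := hrange j hj
    have dj := hdat j hj
    obtain ⟨g1, g2⟩ := hj2 j (by omega)
    have hA : 128 * C3 + 1 ≤ ∑ q ∈ Qf j, af q := by
      refine le_trans ?_ dj.lo
      have h1 : 1 ≤ Real.log (Kj j) := by
        rw [Real.le_log_iff_exp_le (lt_of_lt_of_le (Real.exp_pos 1) g2)]
        exact g2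
      have h2 : 1 ≤ (Real.log (Kj j)) ^ γ := Real.one_le_rpow h1 hγ
      have h3 : 0 ≤ c1 * (Kj j) ^ (1/4:ℝ) := by linarith
      nlinarith
    exact win_low hσ hpos h hc hcd.le dj.sq (j^2) (hC3 _) (by linarith) (by nlinarith) (herr j hj)
  -- correlations
  have hpair : ∀ i ∈ Finset.Ioc J (2 * J), ∀ j ∈ Finset.Ioc J (2 * J), i < j →
      ∫ y in c..d, fj σ φ af a b (Qf i) ((i^2+1)^p) (i^2) y * fj σ φ af a b (Qf j) ((j^2+1)^p) (j^2) y ≤ 3 / 2 * (d - c) := by
    intro i hi j hj hij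
    have hri := hrange i hi
    have hrj := hrange j hj
    have di := hdat i hi
    have dj := hdat j hj
    have hpi := pt_pos h (i^2) c
    have hpj := pt_pos h (j^2) c
    have hij2 : i^2 < j^2 := Nat.pow_lt_pow_left hij (by norm_num)
    have hGi := GG2_ge (Qf i) ((i^2+1)^p)
    have hGj := GG2_ge (Qf j) ((j^2+1)^p)
    set X := √((j:ℝ) + 1) with hX
    set Y := √((i:ℝ) + 1) with hY
    have hX0 : 0 ≤ X := Real.sqrt_nonneg _
    have hY0 : 0 ≤ Y := Real.sqrt_nonneg _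
    have hYX : Y ≤ X := by
      apply Real.sqrt_le_sqrt
      have : (i:ℝ) ≤ j := by exact_mod_cast hij.le
      linarith
    have hX2Y : X ≤ 2 * Y := by
      have h1 : (j:ℝ) + 1 ≤ 4 * ((i:ℝ) + 1) := by
        have : j + 1 ≤ 4 * (i + 1) := by omega
        exact_mod_cast this
      calc X ≤ √(4 * ((i:ℝ) + 1)) := Real.sqrt_le_sqrt h1
        _ = 2 * Y := by
            rw [Real.sqrt_mul (by norm_num)]
            congr 1
            rw [show (4:ℝ) = 2 ^ 2 by norm_num, Real.sqrt_sq (by norm_num)]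
    have hpairW := pair_W (φ := φ) hσ1 h hc hcd.le di.sq dj.sq hij2 (fun y hy => by
      have h5 := hj5 j (by omega)
      rw [one_mul] at h5
      have hpy := pt_pos h (i^2) y
      have r1 := pt_ratio h hc hij2 hy.1
      refine le_trans ?_ r1
      apply mul_le_mul_of_nonneg_right _ hpy.le
      have r2 : exp (δ * c * j) ≤ exp (δ * c * (((j^2 : ℕ):ℝ) - ((i^2 : ℕ) : ℝ))) := by
        apply Real.exp_le_exp.mpr
        apply mul_le_mul_of_nonneg_left _ hsc.le
        have : i^2 + j ≤ j^2 := by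
          obtain ⟨k, rfl⟩ := Nat.exists_eq_add_of_lt hij
          nlinarith
        have h6 : ((i^2 + j : ℕ) : ℝ) ≤ ((j^2 : ℕ) : ℝ) := by exact_mod_cast this
        push_cast at h6 ⊢
        linarith
      refine le_trans ?_ r2
      refine le_trans ?_ h5
      have e2 : (2:ℝ) ≤ exp X := by
        have h7 : (1:ℝ) ≤ X := by
          rw [hX, Real.one_le_sqrt]
          have : (0:ℝ) ≤ j := Nat.cast_nonneg j
          linarith
        have := Real.add_one_le_exp X
        linarith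
      have e3 : ((Qf i).card : ℝ) * (((i^2+1)^p : ℕ) : ℝ) ≤ exp (D0 * X) := by
        refine di.km.trans (Real.exp_le_exp.mpr ?_)
        exact mul_le_mul_of_nonneg_left hYX hD0.le
      calc 2 * (((Qf i).card : ℝ) * (((i^2+1)^p : ℕ) : ℝ)) * GG2 (Qf j) ((j^2+1)^p)
          ≤ exp X * exp (D0 * X) * exp (D0 * X) := by
            apply mul_le_mul _ dj.gg (by linarith) (by positivity)
            exact mul_le_mul e2 e3 (by positivity) (Real.exp_pos _).le
        _ = exp ((2 * D0 + 1) * X) := by rw [← Real.exp_add, ← Real.exp_add]; congr 1; ring)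
    have hle : ∫ y in c..d, fj σ φ af a b (Qf i) ((i^2+1)^p) (i^2) y * fj σ φ af a b (Qf j) ((j^2+1)^p) (j^2) y ≤
        ∫ y in c..d, Wr σ φ (Qf i) (pt a b (i^2) y) * Wr σ φ (Qf j) (pt a b (j^2) y) := by
      apply intervalIntegral.integral_mono_on hcd.le
      · refine IntervalIntegrable.mono_fun (((Wpt_cont (σ := σ) (φ := φ) (Q := Qf i) (a := a) (b := b) (i^2)).mul
          (Wpt_cont (σ := σ) (φ := φ) (Q := Qf j) (a := a) (b := b) (j^2))).intervalIntegrable c d)
          ((fj_meas _ _).mul (fj_meas _ _)).aestronglyMeasurable (Eventually.of_forall fun y => ?_)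
        simp only [Pi.mul_apply]
        rw [Real.norm_eq_abs, Real.norm_eq_abs, abs_of_nonneg (mul_nonneg (fj_nonneg hσ1 _ _ y) (fj_nonneg hσ1 _ _ y)),
          abs_of_nonneg (mul_nonneg (Wr_nonneg hσ1 _) (Wr_nonneg hσ1 _))]
        exact mul_le_mul (fj_le hσ1 _ _ y) (fj_le hσ1 _ _ y) (fj_nonneg hσ1 _ _ y) (Wr_nonneg hσ1 _)
      · exact ((Wpt_cont (σ := σ) (φ := φ) (Q := Qf i) (a := a) (b := b) (i^2)).mul
          (Wpt_cont (σ := σ) (φ := φ) (Q := Qf j) (a := a) (b := b) (j^2))).intervalIntegrable c d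
      · intro y _
        exact mul_le_mul (fj_le hσ1 _ _ y) (fj_le hσ1 _ _ y) (fj_nonneg hσ1 _ _ y) (Wr_nonneg hσ1 _)
    have herr2 : (2:ℝ) ^ (Qf i).card * 2 ^ (Qf j).card * (2 * Cp c d δ * GG2 (Qf i) ((i^2+1)^p) / pt a b (i^2) c +
        (4 + 6 * (d - c)) * GG2 (Qf j) ((j^2+1)^p) / pt a b (j^2) c) ≤ (d - c) / 2 := by
      set q1 := 2 * Cp c d δ with hq1
      set q2 := 4 + 6 * (d - c) with hq2
      have hq1p : 0 < q1 := by positivity
      have hq2p : 0 < q2 := by positivity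
      have e4 := hj4 i (by omega)
      have hpij : pt a b (i^2) c ≤ pt a b (j^2) c := pt_mono h hc.le hij2.le
      have f1 : q1 * GG2 (Qf i) ((i^2+1)^p) / pt a b (i^2) c ≤ q1 * exp (D0 * X) / pt a b (i^2) c := by
        apply div_le_div_of_nonneg_right _ hpi.le
        apply mul_le_mul_of_nonneg_left _ hq1p.le
        refine di.gg.trans (Real.exp_le_exp.mpr ?_)
        exact mul_le_mul_of_nonneg_left hYX hD0.le
      have f2 : q2 * GG2 (Qf j) ((j^2+1)^p) / pt a b (j^2) c ≤ q2 * exp (D0 * X) / pt a b (i^2) c := by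
        apply div_le_div₀ (by positivity) _ hpi hpij
        exact mul_le_mul_of_nonneg_left dj.gg hq2p.le
      have f3 : (2:ℝ) ^ (Qf i).card * 2 ^ (Qf j).card ≤ exp (2 * X) := by
        have g1 : (2:ℝ) ^ (Qf i).card ≤ exp X := (di.two.trans (hx8 i)).trans (Real.exp_le_exp.mpr hYX)
        have g2 : (2:ℝ) ^ (Qf j).card ≤ exp X := dj.two.trans (hx8 j)
        calc (2:ℝ) ^ (Qf i).card * 2 ^ (Qf j).card ≤ exp X * exp X := mul_le_mul g1 g2 (by positivity) (Real.exp_pos _).le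
          _ = _ := by rw [← Real.exp_add]; congr 1; ring
      calc _ ≤ exp (2 * X) * (q1 * exp (D0 * X) / pt a b (i^2) c + q2 * exp (D0 * X) / pt a b (i^2) c) := by
            apply mul_le_mul f3 (add_le_add f1 f2) (by positivity) (Real.exp_pos _).le
        _ = exp ((D0 + 2) * X) * (q1 + q2) / pt a b (i^2) c := by
            have : exp ((D0 + 2) * X) = exp (2 * X) * exp (D0 * X) := by rw [← Real.exp_add]; congr 1; ring
            rw [this]; ring
        _ ≤ (d - c) / 2 := by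
            rw [div_le_iff₀ hpi]
            have g1 : exp ((D0 + 2) * X) ≤ exp ((D0 + 2) * 2 * Y) := by
              apply Real.exp_le_exp.mpr
              have := mul_le_mul_of_nonneg_left hX2Y (by linarith : 0 ≤ D0 + 2)
              linarith
            have g2 : exp ((D0 + 2) * 2 * Y) ≤ pt a b (i^2) c * ((d - c) / 2 / (q1 + q2)) := by
              refine e4.trans ?_
              calc b 0 * ((d - c) / 2 / (q1 + q2)) * exp (δ * c * i) = (b 0 * exp (δ * c * i)) * ((d - c) / 2 / (q1 + q2)) := by ring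
                _ ≤ _ := mul_le_mul_of_nonneg_right (hptlow i) (by positivity)
            calc exp ((D0 + 2) * X) * (q1 + q2) ≤ (pt a b (i^2) c * ((d - c) / 2 / (q1 + q2))) * (q1 + q2) :=
                  mul_le_mul_of_nonneg_right (g1.trans g2) (by positivity)
              _ = _ := by field_simp
    have h9 := (abs_le.mp hpairW).2
    linarith
  have hdiag : ∀ j ∈ Finset.Ioc J (2 * J),
      ∫ y in c..d, fj σ φ af a b (Qf j) ((j^2+1)^p) (j^2) y * fj σ φ af a b (Qf j) ((j^2+1)^p) (j^2) y ≤ J / 2 * (d - c) := by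
    intro j hj
    have hr := hrange j hj
    have dj := hdat j hj
    have he := herr j hj
    have w0 := W0 (φ := φ) (af := af) hσ1 h hc hcd.le dj.sq (j^2)
    have w0' := (abs_le.mp w0).2
    have h8 : (2:ℝ) ^ (Qf j).card ≤ J / 4 := by
      refine dj.two.trans ?_
      have h1 : (j:ℝ) + 1 ≤ 4 * J := by
        have : j + 1 ≤ 4 * J := by omega
        exact_mod_cast this
      have hJ20 : (2:ℝ) ^ (20:ℕ) ≤ J := by
        have : 2 ^ 20 ≤ J := by omega
        exact_mod_cast this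
      calc ((j:ℝ) + 1) ^ (1/8:ℝ) ≤ (4 * (J:ℝ)) ^ (1/8:ℝ) := Real.rpow_le_rpow (by positivity) h1 (by norm_num)
        _ ≤ (4 * (J:ℝ)) ^ (1/2:ℝ) := Real.rpow_le_rpow_of_exponent_le (by nlinarith) (by norm_num)
        _ = √(4 * (J:ℝ)) := (Real.sqrt_eq_rpow _).symm
        _ ≤ J / 4 := by
            rw [Real.sqrt_le_left (by positivity)]
            nlinarith
    have hle : ∫ y in c..d, fj σ φ af a b (Qf j) ((j^2+1)^p) (j^2) y * fj σ φ af a b (Qf j) ((j^2+1)^p) (j^2) y ≤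
        ∫ y in c..d, J / 4 * Wr σ φ (Qf j) (pt a b (j^2) y) := by
      apply intervalIntegral.integral_mono_on hcd.le
      · refine IntervalIntegrable.mono_fun (((Wpt_cont (σ := σ) (φ := φ) (Q := Qf j) (a := a) (b := b) (j^2)).mul
          (Wpt_cont (σ := σ) (φ := φ) (Q := Qf j) (a := a) (b := b) (j^2))).intervalIntegrable c d)
          ((fj_meas _ _).mul (fj_meas _ _)).aestronglyMeasurable (Eventually.of_forall fun y => ?_)
        simp only [Pi.mul_apply]
        rw [Real.norm_eq_abs, Real.norm_eq_abs, abs_of_nonneg (mul_nonneg (fj_nonneg hσ1 _ _ y) (fj_nonneg hσ1 _ _ y)),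
          abs_of_nonneg (mul_nonneg (Wr_nonneg hσ1 _) (Wr_nonneg hσ1 _))]
        exact mul_le_mul (fj_le hσ1 _ _ y) (fj_le hσ1 _ _ y) (fj_nonneg hσ1 _ _ y) (Wr_nonneg hσ1 _)
      · exact (continuous_const.mul (Wpt_cont (σ := σ) (φ := φ) (Q := Qf j) (a := a) (b := b) (j^2))).intervalIntegrable c d
      · intro y _
        exact mul_le_mul ((fj_le hσ1 _ _ y).trans ((Wr_le hσ1 _).trans h8)) (fj_le hσ1 _ _ y) (fj_nonneg hσ1 _ _ y) (by positivity)
    rw [intervalIntegral.integral_const_mul] at hle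
    refine hle.trans ?_
    have h10 : ∫ y in c..d, Wr σ φ (Qf j) (pt a b (j^2) y) ≤ 2 * (d - c) := by linarith
    calc (J:ℝ) / 4 * ∫ y in c..d, Wr σ φ (Qf j) (pt a b (j^2) y) ≤ J / 4 * (2 * (d - c)) := mul_le_mul_of_nonneg_left h10 (by positivity)
      _ = _ := by ring
  have hcardS : (Finset.Ioc J (2 * J)).card = J := by rw [Nat.card_Ioc]; omega
  refine second_moment hcd hJr (f := fun j => fj σ φ af a b (Qf j) ((j^2+1)^p) (j^2)) (G := GJ σ φ af a b p Qf)
    (B := J / 4) (fun j => (Gs_closed _ _).measurableSet) (fun j _ => fj_meas _ _) (fun j _ y => fj_nonneg hσ1 _ _ y)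
    (fun j _ y hy => indicator_of_notMem hy _) ?_ ?_ ?_
  · intro j hj y
    have hr := hrange j hj
    have dj := hdat j hj
    refine (fj_le hσ1 _ _ y).trans ((Wr_le hσ1 _).trans (dj.two.trans ?_))
    have h1 : (j:ℝ) + 1 ≤ 4 * J := by
      have : j + 1 ≤ 4 * J := by omega
      exact_mod_cast this
    have hJ20 : (2:ℝ) ^ (20:ℕ) ≤ J := by
      have : 2 ^ 20 ≤ J := by omega
      exact_mod_cast this
    calc ((j:ℝ) + 1) ^ (1/8:ℝ) ≤ (4 * (J:ℝ)) ^ (1/8:ℝ) := Real.rpow_le_rpow (by positivity) h1 (by norm_num)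
      _ ≤ (4 * (J:ℝ)) ^ (1/2:ℝ) := Real.rpow_le_rpow_of_exponent_le (by nlinarith) (by norm_num)
      _ = √(4 * (J:ℝ)) := (Real.sqrt_eq_rpow _).symm
      _ ≤ J / 4 := by
          rw [Real.sqrt_le_left (by positivity)]
          nlinarith
  · calc (J:ℝ) * ((d - c) / 4) = ∑ _j ∈ Finset.Ioc J (2 * J), (d - c) / 4 := by
          rw [Finset.sum_const, hcardS, nsmul_eq_mul]
      _ ≤ _ := Finset.sum_le_sum fun j hj => hlow j hj
  · have hterm : ∀ i ∈ Finset.Ioc J (2 * J), ∀ j ∈ Finset.Ioc J (2 * J),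
        ∫ y in c..d, fj σ φ af a b (Qf i) ((i^2+1)^p) (i^2) y * fj σ φ af a b (Qf j) ((j^2+1)^p) (j^2) y ≤
          3 / 2 * (d - c) + (if i = j then J / 2 * (d - c) else 0) := by
      intro i hi j hj
      rcases lt_trichotomy i j with hl | hl | hl
      · have := hpair i hi j hj hl
        rw [if_neg (by omega)]; linarith
      · subst hl
        have := hdiag i hi
        rw [if_pos rfl]
        have : 0 ≤ 3 / 2 * (d - c) := by positivity
        linarith
      · have := hpair j hj i hi hl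
        rw [if_neg (by omega)]
        simp only [mul_comm] at this ⊢
        linarith
    calc ∑ i ∈ Finset.Ioc J (2 * J), ∑ j ∈ Finset.Ioc J (2 * J),
          ∫ y in c..d, fj σ φ af a b (Qf i) ((i^2+1)^p) (i^2) y * fj σ φ af a b (Qf j) ((j^2+1)^p) (j^2) y
        ≤ ∑ i ∈ Finset.Ioc J (2 * J), ∑ j ∈ Finset.Ioc J (2 * J), (3 / 2 * (d - c) + (if i = j then J / 2 * (d - c) else 0)) :=
          Finset.sum_le_sum fun i hi => Finset.sum_le_sum fun j hj => hterm i hi j hj
      _ = J * (J * (3 / 2 * (d - c))) + J * (J / 2 * (d - c)) := by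
          simp only [Finset.sum_add_distrib, Finset.sum_const, hcardS, nsmul_eq_mul]
          congr 1
          rw [Finset.sum_congr rfl (fun i hi => by rw [Finset.sum_ite_eq, if_pos hi]), Finset.sum_const, hcardS, nsmul_eq_mul]
      _ ≤ 2 * (J:ℝ)^2 * (d - c) := by nlinarith

end Pool.Agent.NH14.LI
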