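import Mathlib
import Pool.Agent.NH14.LI.N17
import Pool.Agent.R306.GP.IIDa

/-! Almost every parameter. -/

set_option autoImplicit false

open MeasureTheory Filter Topology Set Real
open scoped ENNReal
open Pool.Agent.H383.Gen (U Bd)
open Pool.Agent.Y969.TM
open Pool.Agent.R306.GP

namespace Pool.Agent.NH14.LI

variable {E : ℝ → ℝ} {σ φ : ℝ} {a b : ℕ → ℝ} {δ c d : ℝ} {af : ℕ → ℝ}

/-- positive proportion in all intervals gives full measure -/
lemma ae_dens {G : ℕ → Set ℝ} (hGm : ∀ j, MeasurableSet (G j)) {κ : ℝ} (hκ : 0 < κ) (hκ1 : κ ≤ 1)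
    (hG : ∀ c d : ℝ, 0 < c → c < d → ∀ N : ℕ, ENNReal.ofReal (κ * (d - c)) ≤ volume ((⋃ j ∈ Ici N, G j) ∩ Icc c d)) :
    ∀ᵐ y : ℝ, 0 < y → ∃ᶠ j : ℕ in atTop, y ∈ G j := by
  have key : ∀ N : ℕ, ∀ᵐ y : ℝ, 0 < y → ∃ j : ℕ, N ≤ j ∧ y ∈ G j := by
    intro N
    set B : Set ℝ := {y : ℝ | ¬ (0 < y → ∃ j : ℕ, N ≤ j ∧ y ∈ G j)} with hB
    rw [ae_iff]
    change volume B = 0
    by_contra hne
    have hBpos : B ⊆ Ioi 0 := by
      intro y hy
      have h1 : ¬ (0 < y → ∃ j : ℕ, N ≤ j ∧ y ∈ G j) := hy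
      push Not at h1
      exact h1.1
    have hd := Besicovitch.ae_tendsto_measure_inter_div (volume : Measure ℝ) B
    have hpos : ∀ᵐ x ∂(volume.restrict B), (0:ℝ) < x := by
      have h1 : ∀ᵐ x ∂(volume.restrict (Ioi (0:ℝ))), x ∈ Ioi (0:ℝ) := ae_restrict_mem measurableSet_Ioi
      exact ae_mono (Measure.restrict_mono hBpos le_rfl) h1
    have hex : ∃ x : ℝ, 0 < x ∧ Tendsto (fun r => volume (B ∩ Metric.closedBall x r) /
        volume (Metric.closedBall x r)) (𝓝[>] 0) (𝓝 1) := by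
      have h2 := hpos.and hd
      have : (ae (volume.restrict B)).NeBot := by
        rw [ae_neBot]
        intro h0
        exact hne (by simpa using congrArg (fun μ : Measure ℝ => μ univ) h0)
      exact h2.exists
    obtain ⟨x, hx0, hlim⟩ := hex
    have hle : ∀ᶠ r in 𝓝[>] (0 : ℝ), volume (B ∩ Metric.closedBall x r) /
        volume (Metric.closedBall x r) ≤ ENNReal.ofReal (1 - κ) := by
      have hev : ∀ᶠ r in 𝓝[>] (0 : ℝ), r ≤ x / 2 := by
        filter_upwards [Ioc_mem_nhdsGT (show (0 : ℝ) < x / 2 by linarith)] with r hr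
        exact hr.2
      filter_upwards [hev, self_mem_nhdsWithin] with r hr1 hr0
      have hr0 : 0 < r := hr0
      have hcc : Metric.closedBall x r = Icc (x - r) (x + r) := Real.closedBall_eq_Icc
      have h1 := hG (x - r) (x + r) (by linarith) (by linarith) N
      set V : Set ℝ := ⋃ j ∈ Ici N, G j with hV
      have hVm : MeasurableSet V := MeasurableSet.biUnion (Set.to_countable _) fun j _ => hGm j
      have hdisj : B ∩ Icc (x - r) (x + r) ⊆ Icc (x - r) (x + r) \ V := by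
        rintro y ⟨hy1, hy2⟩
        refine ⟨hy2, fun hyV => ?_⟩
        have h2 : ¬ (0 < y → ∃ j : ℕ, N ≤ j ∧ y ∈ G j) := hy1
        push Not at h2
        rw [hV, mem_iUnion₂] at hyV
        obtain ⟨j, hj1, hj2⟩ := hyV
        exact h2.2 j hj1 hj2
      have hvol : volume (Icc (x - r) (x + r)) = ENNReal.ofReal (2 * r) := by
        rw [Real.volume_Icc]; congr 1; ring
      have h3 : volume (Icc (x - r) (x + r) \ V) ≤ ENNReal.ofReal ((1 - κ) * (2 * r)) := by
        have h4 := measure_inter_add_sdiff (μ := volume) (Icc (x - r) (x + r)) hVm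
        rw [hvol] at h4
        have h5 : volume (Icc (x - r) (x + r) ∩ V) ≠ ∞ := ne_top_of_le_ne_top (by rw [hvol]; exact ENNReal.ofReal_ne_top) (measure_mono inter_subset_left)
        have h6 : volume (Icc (x - r) (x + r) \ V) ≠ ∞ := ne_top_of_le_ne_top (by rw [hvol]; exact ENNReal.ofReal_ne_top) (measure_mono sdiff_subset)
        rw [inter_comm] at h1
        have h7 : κ * (2 * r) ≤ (volume (Icc (x - r) (x + r) ∩ V)).toReal := by
          have e1 : x + r - (x - r) = 2 * r := by ring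
          rw [e1] at h1
          exact (ENNReal.ofReal_le_iff_le_toReal h5).mp h1
        have h8 : (volume (Icc (x - r) (x + r) ∩ V)).toReal + (volume (Icc (x - r) (x + r) \ V)).toReal = 2 * r := by
          rw [← ENNReal.toReal_add h5 h6, h4, ENNReal.toReal_ofReal (by linarith)]
        rw [← ENNReal.ofReal_toReal h6]
        apply ENNReal.ofReal_le_ofReal
        linarith
      rw [hcc, hvol]
      refine ENNReal.div_le_of_le_mul ?_
      refine (measure_mono hdisj).trans (h3.trans (le_of_eq ?_))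
      rw [ENNReal.ofReal_mul (by linarith)]
    have h9 := le_of_tendsto hlim hle
    have h10 : ENNReal.ofReal (1 - κ) < 1 := by
      rw [ENNReal.ofReal_lt_one]; linarith
    exact absurd (h9.trans_lt h10) (lt_irrefl _)
  have hall := ae_all_iff.mpr key
  filter_upwards [hall] with y hy hy0
  rw [frequently_atTop]
  intro N
  obtain ⟨j, hj1, hj2⟩ := hy N hy0
  exact ⟨j, hj1, hj2⟩

lemma psi_two {γ : ℝ} (hγ : 0 ≤ γ) {x y : ℝ} (hx : 2 ≤ x) {t : ℝ} (ht : 1 ≤ t) (hxy : y ≤ t * x) (hy : 1 ≤ y) (htx : t ≤ x) :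
    psi γ y ≤ t * 2 ^ γ * psi γ x := by
  unfold psi
  have hx0 : 0 < x := by linarith
  have hy0 : 0 < y := by linarith
  have ht0 : 0 < t := by linarith
  have hlx : 0 ≤ Real.log x := Real.log_nonneg (by linarith)
  have h1 : y ^ (1/4:ℝ) ≤ t * x ^ (1/4:ℝ) := by
    calc y ^ (1/4:ℝ) ≤ (t * x) ^ (1/4:ℝ) := Real.rpow_le_rpow hy0.le hxy (by norm_num)
      _ = t ^ (1/4:ℝ) * x ^ (1/4:ℝ) := Real.mul_rpow ht0.le hx0.le
      _ ≤ t ^ (1:ℝ) * x ^ (1/4:ℝ) := by
          apply mul_le_mul_of_nonneg_right _ (by positivity)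
          exact Real.rpow_le_rpow_of_exponent_le ht (by norm_num)
      _ = _ := by rw [Real.rpow_one]
  have h2 : (Real.log y) ^ γ ≤ 2 ^ γ * (Real.log x) ^ γ := by
    rw [← Real.mul_rpow (by norm_num) hlx]
    apply Real.rpow_le_rpow (Real.log_nonneg hy) _ hγ
    calc Real.log y ≤ Real.log (t * x) := Real.log_le_log hy0 hxy
      _ = Real.log t + Real.log x := Real.log_mul ht0.ne' hx0.ne'
      _ ≤ Real.log x + Real.log x := by
          have := Real.log_le_log ht0 htx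
          linarith
      _ = _ := by ring
  calc y ^ (1/4:ℝ) * (Real.log y) ^ γ ≤ (t * x ^ (1/4:ℝ)) * (2 ^ γ * (Real.log x) ^ γ) :=
        mul_le_mul h1 h2 (Real.rpow_nonneg (Real.log_nonneg hy) _) (by positivity)
    _ = _ := by ring

theorem ae_lower (hX : Ctx E af φ) (hσ : σ = 1 ∨ σ = -1) (hpos : ∀ m, 0 ≤ af m) {γ c1 : ℝ} (hγ : 0 ≤ γ) (hc1 : 0 < c1)
    (hs : HSet af γ c1) (h : Sq a b δ) :
    ∀ᵐ y : ℝ, 0 < y → ∃ᶠ n : ℕ in atTop, c1 / (16 * (16 * 2 ^ γ)) * psi γ (Real.log n) ≤ σ * E (pt a b n y) := by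
  classical
  have hσ1 : |σ| ≤ 1 := by rcases hσ with h | h <;> rw [h] <;> simp
  obtain ⟨D0, hD0, j1, hex⟩ := exists_dat (p := 400) hX.bd hs (by norm_num)
  choose! Qf hQf using hex
  have h1 := ae_dens (G := GJ σ φ af a b 400 Qf) (fun j => (Gs_closed _ _).measurableSet) (κ := 1/32) (by norm_num) (by norm_num)
    (fun c d hc hcd N => by
      obtain ⟨J0, hJ0⟩ := window (φ := φ) hσ hpos hX.bd h hγ hc1 hD0 hQf hc hcd
      have h2 := hJ0 (max J0 N) (le_max_left _ _)
      have e1 : (1/32:ℝ) * (d - c) = (d - c) / 32 := by ring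
      rw [e1]
      refine h2.trans (measure_mono (inter_subset_inter_left _ ?_))
      intro y hy
      rw [mem_iUnion₂] at hy ⊢
      obtain ⟨j, hj1, hj2⟩ := hy
      rw [Finset.mem_Ioc] at hj1
      exact ⟨j, by
        rw [mem_Ici]
        exact (le_max_right _ _).trans hj1.1.le, hj2⟩)
  have h2 : ∀ᵐ y : ℝ, 0 < y → Tendsto (fun n => E (pt a b n y) - U af φ (pt a b n y) ((n + 1) ^ 400)) atTop (𝓝 0) :=
    ae_pos fun c d hc hcd => ae_err hX h hc hcd.le le_rfl
  have hlog : Tendsto (fun j : ℕ => Kj j) atTop atTop := by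
    unfold Kj
    have h1 : Tendsto (fun j : ℕ => (j:ℝ) + 1) atTop atTop :=
      tendsto_atTop_add_const_right _ _ tendsto_natCast_atTop_atTop
    exact (Real.tendsto_log_atTop.comp h1).atTop_div_const (by norm_num)
  have hK14 : Tendsto (fun j : ℕ => c1 * (Kj j) ^ (1/4:ℝ)) atTop atTop :=
    ((tendsto_rpow_atTop (by norm_num : (0:ℝ) < 1/4)).comp hlog).const_mul_atTop hc1
  have hsq : Tendsto (fun j : ℕ => j ^ 2) atTop atTop := tendsto_pow_atTop (by norm_num)
  filter_upwards [h1, h2] with y hy1 hy2 hy0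
  have hf := hy1 hy0
  have herr := (tendsto_zero_iff_abs_tendsto_zero _ |>.mp (hy2 hy0)).eventually (gt_mem_nhds (zero_lt_one))
  have herr2 := hsq.eventually herr
  have hcomb := hf.and_eventually (herr2.and ((eventually_ge_atTop (max j1 3)).and ((hK14.eventually_ge_atTop 16).and
    (hlog.eventually_ge_atTop 16))))
  refine hsq.frequently (hcomb.mono ?_)
  rintro j ⟨g1, g2, g3, g4, g5⟩
  have dj := hQf j ((le_max_left _ _).trans g3)
  have hj3 : 3 ≤ j := (le_max_right _ _).trans g3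
  set A := ∑ q ∈ Qf j, af q with hA
  have g1' : A / 8 ≤ σ * U af φ (pt a b (j^2) y) ((j^2+1)^400) := g1
  have g2' : |E (pt a b (j^2) y) - U af φ (pt a b (j^2) y) ((j^2 + 1) ^ 400)| < 1 := g2
  have hlogK : 1 ≤ Real.log (Kj j) := by
    rw [Real.le_log_iff_exp_le (by linarith)]
    have := Real.exp_one_lt_d9
    linarith
  have hlogKγ : 1 ≤ (Real.log (Kj j)) ^ γ := Real.one_le_rpow hlogK hγ
  have hlo := dj.lo
  have hA16 : 16 ≤ A := by
    refine le_trans ?_ hlo
    nlinarith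
  have hE : A / 16 ≤ σ * E (pt a b (j^2) y) := by
    have e1 : |σ * (E (pt a b (j^2) y) - U af φ (pt a b (j^2) y) ((j^2 + 1) ^ 400))| ≤ 1 := by
      rw [abs_mul]
      calc |σ| * _ ≤ 1 * 1 := mul_le_mul hσ1 g2'.le (abs_nonneg _) zero_le_one
        _ = 1 := one_mul _
    have e2 := (abs_le.mp e1).1
    have e3 : σ * (E (pt a b (j^2) y) - U af φ (pt a b (j^2) y) ((j^2 + 1) ^ 400)) =
      σ * E (pt a b (j^2) y) - σ * U af φ (pt a b (j^2) y) ((j^2 + 1) ^ 400) := by ring
    linarith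
  refine le_trans ?_ hE
  -- comparison of psi
  have hjr : (3:ℝ) ≤ j := by exact_mod_cast hj3
  have hlogj : Real.log (((j ^ 2 : ℕ)) : ℝ) ≤ 16 * Kj j := by
    push_cast
    rw [Real.log_pow]
    unfold Kj
    have : Real.log (j:ℝ) ≤ Real.log ((j:ℝ) + 1) := Real.log_le_log (by linarith) (by linarith)
    push_cast
    linarith
  have hlogj1 : 1 ≤ Real.log (((j ^ 2 : ℕ)) : ℝ) := by
    push_cast
    have h3 : 1 ≤ Real.log (j:ℝ) := by
      rw [Real.le_log_iff_exp_le (by linarith)]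
      have := Real.exp_one_lt_d9
      linarith
    rw [Real.log_pow]
    push_cast
    linarith
  have hps := psi_two hγ (x := Kj j) (y := Real.log (((j ^ 2 : ℕ)) : ℝ)) (t := 16) (by linarith) (by norm_num) hlogj hlogj1 g5
  have hfin : psi γ (Real.log (((j ^ 2 : ℕ)) : ℝ)) ≤ 16 * 2 ^ γ * (A / c1) := by
    refine hps.trans ?_
    apply mul_le_mul_of_nonneg_left _ (by positivity)
    rw [le_div_iff₀ hc1]
    unfold psi
    linarith
  have h2γ : (0:ℝ) < 2 ^ γ := by positivity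
  calc c1 / (16 * (16 * 2 ^ γ)) * psi γ (Real.log (((j ^ 2 : ℕ)) : ℝ)) ≤ c1 / (16 * (16 * 2 ^ γ)) * (16 * 2 ^ γ * (A / c1)) := by
        gcongr
    _ = A / 16 := by field_simp

end Pool.Agent.NH14.LI
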