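import Mathlib
import Pool.Agent.H452R2.Om.O7

/-! The sets of the omega theorem, with squarefree elements. -/

set_option autoImplicit false

namespace Pool.Agent.NH14.LI

open Pool.Agent.H452R2.Om

open Filter

private theorem ev_conditions (t C1 Y0 : ℝ) : ∃ K0 : ℝ, ∀ K : ℝ, K0 ≤ K →
    2 ≤ K ∧ 1 ≤ Real.log K ∧ (Real.log K) ^ t ≤ K ^ (1/2:ℝ) ∧ Y0 ≤ K ^ (1/2:ℝ) ∧ C1 ^ 2 ≤ K := by
  have h1 : ∀ᶠ K : ℝ in atTop, (2:ℝ) ≤ K := eventually_ge_atTop 2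
  have h2 : ∀ᶠ K : ℝ in atTop, (1:ℝ) ≤ Real.log K := Real.tendsto_log_atTop.eventually_ge_atTop 1
  have h3 : ∀ᶠ K : ℝ in atTop, (Real.log K) ^ t ≤ K ^ (1/2:ℝ) := by
    have h := (isLittleO_log_rpow_rpow_atTop (s := (1/2:ℝ)) t (by norm_num)).bound (c := 1) one_pos
    filter_upwards [h, h1, h2] with K hK hK1 hK2
    rw [one_mul, Real.norm_of_nonneg (Real.rpow_nonneg (by linarith) _),
      Real.norm_of_nonneg (Real.rpow_nonneg (by linarith) _)] at hK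
    exact hK
  have h4 : ∀ᶠ K : ℝ in atTop, Y0 ≤ K ^ (1/2:ℝ) :=
    (tendsto_rpow_atTop (by norm_num : (0:ℝ) < 1/2)).eventually_ge_atTop Y0
  have h5 : ∀ᶠ K : ℝ in atTop, C1 ^ 2 ≤ K := eventually_ge_atTop _
  obtain ⟨K0, hK0⟩ := (h1.and (h2.and (h3.and (h4.and h5)))).exists_forall_of_atTop
  exact ⟨K0, fun K hK => hK0 K hK⟩

private theorem prod_inj {S T : Finset ℕ} (hS : ∀ p ∈ S, p.Prime) (hT : ∀ p ∈ T, p.Prime)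
    (h : (∏ p ∈ S, p) = ∏ p ∈ T, p) : S = T := by
  rw [← Nat.primeFactors_prod hS, ← Nat.primeFactors_prod hT, h]

private theorem zz_pos : 0 < zz := by unfold zz; positivity

private theorem zz_pow (k : ℕ) : (zz ^ k) ^ (-(3/4):ℝ) = ((2:ℝ) ^ k)⁻¹ := by
  have h0 : (0:ℝ) ≤ 2 := by norm_num
  unfold zz
  rw [← Real.rpow_natCast (2 ^ (4/3:ℝ)) k, ← Real.rpow_mul h0, ← Real.rpow_mul h0,
    ← Real.rpow_natCast 2 k, ← Real.rpow_neg h0]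
  congr 1
  ring

theorem extract2 {a : ℕ → ℝ} (ha : ∀ m, 0 ≤ a m) {b : ℝ} (hb : 0 < b) (Q : ℕ → Prop) [DecidablePred Q] {β : ℝ} (hβ : 1 ≤ β)
    (hC : ∃ c Y0 : ℝ, 0 < c ∧ 3 ≤ Y0 ∧ ∀ Y : ℝ, Y0 ≤ Y → ∃ 𝓢 : Finset (Finset ℕ),
      (∀ S ∈ 𝓢, (∀ p ∈ S, p.Prime ∧ 3 ≤ p ∧ (Q p ∨ p % 4 = 1)) ∧
        ((∏ p ∈ S, p : ℕ) : ℝ) ≤ 2 * Y * zz ^ S.card ∧ ((∏ p ∈ S, p : ℕ) : ℝ) ≤ Y ^ 2) ∧
      c * Y * (Real.log Y) ^ (β - 1) ≤ (𝓢.card : ℝ))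
    (hlow : ∀ S : Finset ℕ, (∀ p ∈ S, p.Prime ∧ 3 ≤ p ∧ (Q p ∨ p % 4 = 1)) →
      b * 2 ^ S.card * ((∏ p ∈ S, p : ℕ) : ℝ) ^ (-(3/4):ℝ) ≤ a (∏ p ∈ S, p)) :
    ∃ c K0 : ℝ, 0 < c ∧ ∀ K : ℝ, K0 ≤ K → ∃ 𝓜 : Finset ℕ, (𝓜.card : ℝ) ≤ K ∧
      (∀ m ∈ 𝓜, Squarefree m ∧ 1 ≤ m ∧ (m:ℝ) ≤ K ^ 3) ∧
      c * K ^ (1/4:ℝ) * (Real.log K) ^ ((3/4) * (β - 1)) ≤ ∑ m ∈ 𝓜, a m := by
  classical
  obtain ⟨c, Y0, hc, hY0, hfam⟩ := hC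
  set t : ℝ := β - 1 with ht
  have ht0 : 0 ≤ t := by rw [ht]; linarith
  set c' : ℝ := min c 1 with hc'
  have hc'0 : 0 < c' := lt_min hc one_pos
  have hc'1 : c' ≤ 1 := min_le_right _ _
  have hc'c : c' ≤ c := min_le_left _ _
  set C1 : ℝ := 2 ^ t / c' with hC1
  have h2t : (1:ℝ) ≤ 2 ^ t := Real.one_le_rpow (by norm_num) ht0
  have hC1one : 1 ≤ C1 := by
    rw [hC1, le_div_iff₀ hc'0]; linarith
  obtain ⟨K0, hK0⟩ := ev_conditions t C1 Y0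
  refine ⟨(b / 2) * (2 * C1) ^ (-(3/4):ℝ), K0, by positivity, ?_⟩
  intro K hK
  obtain ⟨hK2, hlog1, hlogt, hY0K, hC1K⟩ := hK0 K hK
  have hKpos : 0 < K := by linarith
  have hlogpos : 0 < Real.log K := by linarith
  have hLt : 0 < (Real.log K) ^ t := Real.rpow_pos_of_pos hlogpos _
  have hLt1 : 1 ≤ (Real.log K) ^ t := Real.one_le_rpow hlog1 ht0
  set Y : ℝ := C1 * K / (Real.log K) ^ t with hY
  have hYpos : 0 < Y := by rw [hY]; positivity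
  have hKhalf : K ^ (1/2:ℝ) * K ^ (1/2:ℝ) = K := by
    rw [← Real.rpow_add hKpos]; norm_num
  have hKhpos : 0 < K ^ (1/2:ℝ) := Real.rpow_pos_of_pos hKpos _
  have hYK : K ^ (1/2:ℝ) ≤ Y := by
    rw [hY, le_div_iff₀ hLt]
    calc K ^ (1/2:ℝ) * (Real.log K) ^ t ≤ K ^ (1/2:ℝ) * K ^ (1/2:ℝ) := by gcongr
      _ = K := hKhalf
      _ ≤ C1 * K := by nlinarith
  have hYY0 : Y0 ≤ Y := le_trans hY0K hYK
  have hlogY : Real.log K / 2 ≤ Real.log Y := by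
    have := Real.log_le_log hKhpos hYK
    rw [Real.log_rpow hKpos] at this
    linarith
  have hlogYt : (Real.log K / 2) ^ t ≤ (Real.log Y) ^ t :=
    Real.rpow_le_rpow (by positivity) hlogY ht0
  obtain ⟨𝓢, hS, hcard⟩ := hfam Y hYY0
  have hKcard : K ≤ (𝓢.card : ℝ) := by
    refine le_trans ?_ hcard
    have h1 : c' * Y * (Real.log K / 2) ^ t = K := by
      rw [Real.div_rpow hlogpos.le (by norm_num), hY, hC1]
      field_simp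
    calc K = c' * Y * (Real.log K / 2) ^ t := h1.symm
      _ ≤ c * Y * (Real.log Y) ^ t := by gcongr
  have hfl : ⌊K⌋₊ ≤ 𝓢.card := by
    have : ((⌊K⌋₊ : ℕ) : ℝ) ≤ (𝓢.card : ℝ) := le_trans (Nat.floor_le hKpos.le) hKcard
    exact_mod_cast this
  obtain ⟨𝓣, hTS, hTcard⟩ := Finset.exists_subset_card_eq hfl
  have hinj : Set.InjOn (fun S : Finset ℕ => ∏ p ∈ S, p) (𝓣 : Set (Finset ℕ)) := by
    intro S hS1 T hT1 h
    exact prod_inj (fun p hp => ((hS S (hTS hS1)).1 p hp).1)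
      (fun p hp => ((hS T (hTS hT1)).1 p hp).1) h
  refine ⟨𝓣.image (fun S : Finset ℕ => ∏ p ∈ S, p), ?_, ?_, ?_⟩
  · rw [Finset.card_image_of_injOn hinj, hTcard]
    exact Nat.floor_le hKpos.le
  · intro m hm
    obtain ⟨S, hST, rfl⟩ := Finset.mem_image.mp hm
    have hS' := hS S (hTS hST)
    refine ⟨?_, ?_, ?_⟩
    · refine Finset.squarefree_prod_of_pairwise_isCoprime (fun p hp q hq hpq ↦ ?_)
        fun p hp ↦ (hS'.1 p hp).1.squarefree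
      simp only [← Nat.coprime_iff_isRelPrime]
      exact (Nat.coprime_primes (hS'.1 p hp).1 (hS'.1 q hq).1).mpr hpq
    · exact Nat.one_le_iff_ne_zero.mpr
        (Finset.prod_ne_zero_iff.mpr (fun p hp => (hS'.1 p hp).1.ne_zero))
    · refine le_trans hS'.2.2 ?_
      have hYle : Y ≤ C1 * K := by
        rw [hY, div_le_iff₀ hLt]
        have : 0 ≤ C1 * K := by positivity
        nlinarith
      calc Y ^ 2 ≤ (C1 * K) ^ 2 := by gcongr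
        _ = C1 ^ 2 * K ^ 2 := by ring
        _ ≤ K * K ^ 2 := by gcongr
        _ = K ^ 3 := by ring
  · rw [Finset.sum_image hinj]
    have hterm : ∀ S ∈ 𝓣, b * (2 * Y) ^ (-(3/4):ℝ) ≤ a (∏ p ∈ S, p) := by
      intro S hST
      have hS' := hS S (hTS hST)
      refine le_trans ?_ (hlow S hS'.1)
      have hPpos : 0 < ((∏ p ∈ S, p : ℕ) : ℝ) := by
        have : 0 < ∏ p ∈ S, p := Finset.prod_pos (fun p hp => (hS'.1 p hp).1.pos)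
        exact_mod_cast this
      have h1 : (2 * Y * zz ^ S.card) ^ (-(3/4):ℝ) ≤ ((∏ p ∈ S, p : ℕ) : ℝ) ^ (-(3/4):ℝ) :=
        Real.rpow_le_rpow_of_nonpos hPpos hS'.2.1 (by norm_num)
      have h2 : (2 * Y * zz ^ S.card) ^ (-(3/4):ℝ) = (2 * Y) ^ (-(3/4):ℝ) * ((2:ℝ) ^ S.card)⁻¹ := by
        rw [Real.mul_rpow (by positivity) (pow_nonneg zz_pos.le _), zz_pow]
      have h3 : (0:ℝ) < 2 ^ S.card := by positivity
      calc b * (2 * Y) ^ (-(3/4):ℝ) = b * 2 ^ S.card * ((2 * Y) ^ (-(3/4):ℝ) * ((2:ℝ) ^ S.card)⁻¹) := by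
            field_simp
        _ = b * 2 ^ S.card * (2 * Y * zz ^ S.card) ^ (-(3/4):ℝ) := by rw [h2]
        _ ≤ b * 2 ^ S.card * ((∏ p ∈ S, p : ℕ) : ℝ) ^ (-(3/4):ℝ) := by gcongr
    have hsum : (⌊K⌋₊ : ℝ) * (b * (2 * Y) ^ (-(3/4):ℝ)) ≤ ∑ S ∈ 𝓣, a (∏ p ∈ S, p) := by
      rw [← hTcard, ← nsmul_eq_mul, ← Finset.sum_const]
      exact Finset.sum_le_sum hterm
    refine le_trans ?_ hsum
    have hfloor : K / 2 ≤ (⌊K⌋₊ : ℝ) := by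
      have := Nat.lt_floor_add_one K
      linarith
    have hYrw : (2 * Y) ^ (-(3/4):ℝ) = (2 * C1) ^ (-(3/4):ℝ) * (K ^ (-(3/4):ℝ) * (Real.log K) ^ ((3/4) * t)) := by
      have : 2 * Y = (2 * C1) * (K * ((Real.log K) ^ t)⁻¹) := by rw [hY]; field_simp
      have hL0 : 0 ≤ ((Real.log K) ^ t)⁻¹ := inv_nonneg.mpr hLt.le
      rw [this, Real.mul_rpow (by positivity) (by positivity), Real.mul_rpow hKpos.le hL0,
        Real.inv_rpow hLt.le, ← Real.rpow_mul hlogpos.le, ← Real.rpow_neg hlogpos.le]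
      congr 3
      ring
    have hKq : K ^ (1/4:ℝ) = K * K ^ (-(3/4):ℝ) := by
      conv_rhs => rw [← Real.rpow_one K]
      rw [← Real.rpow_mul hKpos.le, ← Real.rpow_add hKpos]
      norm_num
    calc (b / 2) * (2 * C1) ^ (-(3/4):ℝ) * K ^ (1/4:ℝ) * (Real.log K) ^ ((3/4) * t)
        = (K / 2) * (b * ((2 * C1) ^ (-(3/4):ℝ) * (K ^ (-(3/4):ℝ) * (Real.log K) ^ ((3/4) * t)))) := by
          rw [hKq]; ring
      _ = (K / 2) * (b * (2 * Y) ^ (-(3/4):ℝ)) := by rw [hYrw]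
      _ ≤ (⌊K⌋₊ : ℝ) * (b * (2 * Y) ^ (-(3/4):ℝ)) := by gcongr


section
open Pool.Agent.H383.Div

lemma div_sets2 : ∃ c K0 : ℝ, 0 < c ∧ ∀ K : ℝ, K0 ≤ K → ∃ 𝓜 : Finset ℕ, (𝓜.card : ℝ) ≤ K ∧
      (∀ m ∈ 𝓜, Squarefree m ∧ 1 ≤ m ∧ (m:ℝ) ≤ K ^ 3) ∧
      c * K ^ (1/4:ℝ) * (Real.log K) ^ ((3/4) * (zz - 1)) ≤ ∑ m ∈ 𝓜, ad m := by
  have hpi := Real.pi_pos
  refine extract2 ad_nonneg (b := 1 / (Real.pi * √2)) (by positivity) (fun _ => True) (β := zz) (by linarith [zz_ge_two])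
    (count_sets (fun _ => True) zz_pos' mert_all) ?_
  intro S hS
  unfold ad
  have h1 := dv_prod (S := S) (fun p hp => (hS p hp).1)
  have h2 : 0 ≤ ((∏ p ∈ S, p : ℕ) : ℝ) ^ (-(3/4):ℝ) := by positivity
  have h3 : 0 ≤ 1 / (Real.pi * √2) := by positivity
  calc 1 / (Real.pi * √2) * 2 ^ S.card * ((∏ p ∈ S, p : ℕ) : ℝ) ^ (-(3/4):ℝ)
      = 2 ^ S.card * ((∏ p ∈ S, p : ℕ) : ℝ) ^ (-(3/4):ℝ) * (1 / (Real.pi * √2)) := by ring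
    _ ≤ _ := by gcongr

end

section
open Pool.Agent.H383.Circ

lemma circ_sets2 : ∃ c K0 : ℝ, 0 < c ∧ ∀ K : ℝ, K0 ≤ K → ∃ 𝓜 : Finset ℕ, (𝓜.card : ℝ) ≤ K ∧
      (∀ m ∈ 𝓜, Squarefree m ∧ 1 ≤ m ∧ (m:ℝ) ≤ K ^ 3) ∧
      c * K ^ (1/4:ℝ) * (Real.log K) ^ ((3/4) * (zz / 2 - 1)) ≤ ∑ m ∈ 𝓜, ag m := by
  have hpi := Real.pi_pos
  refine extract2 ag_nonneg (b := 1 / Real.pi) (by positivity) (fun p => p % 4 = 1) (β := zz / 2) (by linarith [zz_ge_two])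
    (count_sets (fun p => p % 4 = 1) (by have := zz_pos'; positivity) mert_one) ?_
  intro S hS
  unfold ag
  have h1 := rA_prod_ge S (fun p hp => ⟨(hS p hp).1, by rcases (hS p hp).2.2 with h | h <;> exact h⟩)
  have h2 : 0 ≤ ((∏ p ∈ S, p : ℕ) : ℝ) ^ (-(3/4):ℝ) := by positivity
  have h4 : (√((∏ p ∈ S, p : ℕ) : ℝ)) ^ (-(3/2):ℝ) = ((∏ p ∈ S, p : ℕ) : ℝ) ^ (-(3/4):ℝ) := by
    rw [Real.sqrt_eq_rpow, ← Real.rpow_mul (Nat.cast_nonneg _)]; norm_num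
  rw [h4]
  calc 1 / Real.pi * 2 ^ S.card * ((∏ p ∈ S, p : ℕ) : ℝ) ^ (-(3/4):ℝ)
      = 2 ^ S.card / Real.pi * ((∏ p ∈ S, p : ℕ) : ℝ) ^ (-(3/4):ℝ) := by ring
    _ ≤ _ := by gcongr

end

end Pool.Agent.NH14.LI
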