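import Mathlib
import Pool.Agent.NH14.LI.N18
import Pool.Agent.NH14.LI.N9
import Pool.Agent.R306.GP.CircIID
import Pool.Agent.H383.DivF

/-! The exact maximal order along almost all sequences: circle and divisor problem. -/

set_option autoImplicit false

open MeasureTheory Filter Topology Set Real
open scoped ENNReal
open Pool.Agent.H383.Gen (U Bd)
open Pool.Agent.Y969.TM
open Pool.Agent.R306.GP

namespace Pool.Agent.NH14.LI

variable {E : ℝ → ℝ} {φ : ℝ} {af : ℕ → ℝ}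

/-- general form -/
theorem lil_gen (hX : Ctx E af φ) (hpos : ∀ m, 0 ≤ af m) {γ : ℝ} (hγ : 0 ≤ γ) {C1 : ℝ} (hC1 : 0 < C1) {k0 : ℕ} (hk0 : 3 ≤ k0)
    (hZ : ∀ k : ℕ, k0 ≤ k → ∀ M : ℕ, ‖ZZ af φ (2 * k) M‖ ≤ (C1 * psi γ k) ^ (2 * k)) {c1 : ℝ} (hc1 : 0 < c1)
    (hs : HSet af γ c1) :
    ∃ c C : ℝ, 0 < c ∧ 0 < C ∧ ∀ (a b : ℕ → ℝ) (δ : ℝ), 0 < δ → (∀ n, a n + δ ≤ a (n + 1)) → (∀ n, 0 < b n) → Monotone b →
      ∀ᵐ α : ℝ, 1 < α → (∀ᶠ n : ℕ in atTop, |E (b n * α ^ (a n))| ≤ C * psi γ (Real.log n)) ∧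
        (∃ᶠ n : ℕ in atTop, c * psi γ (Real.log n) ≤ E (b n * α ^ (a n))) ∧
        (∃ᶠ n : ℕ in atTop, E (b n * α ^ (a n)) ≤ -(c * psi γ (Real.log n))) := by
  set C : ℝ := 2 * (max C1 1 * exp 16) with hC
  set c2 : ℝ := c1 / (16 * (16 * 2 ^ γ)) with hc2
  have hc2p : 0 < c2 := by positivity
  have hCp : 0 < C := by positivity
  refine ⟨c2 / (2 * 2 ^ γ), C, by positivity, hCp, ?_⟩
  intro a b δ hδ hgap hb hmono
  have hlow : ∀ n : ℕ, a 0 + δ * n ≤ a n := by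
    intro n
    induction n with
    | zero => simp
    | succ n ih =>
      have := hgap n
      push_cast
      linarith
  obtain ⟨n0, hn0⟩ := exists_nat_ge ((1 - a 0) / δ)
  have hone : ∀ n : ℕ, 1 ≤ a (n + n0) := by
    intro n
    have h1 := hlow (n + n0)
    rw [div_le_iff₀ hδ] at hn0
    push_cast at h1
    have h2 : (0:ℝ) ≤ n := Nat.cast_nonneg n
    nlinarith
  have hSq : Sq (fun n => a (n + n0)) (fun n => b (n + n0)) (min δ 1) :=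
    ⟨lt_min hδ one_pos, min_le_right _ _, hone, fun n => by
      have h1 := hgap (n + n0)
      have h2 := min_le_left δ 1
      show a (n + n0) + min δ 1 ≤ a (n + 1 + n0)
      have h3 : n + 1 + n0 = n + n0 + 1 := by ring
      rw [h3]
      linarith, fun n => hb _, fun n m hnm => hmono (by omega)⟩
  apply ae_exp
  have hup : ∀ᵐ y : ℝ, 0 < y → ∀ᶠ n : ℕ in atTop,
      |E (pt (fun n => a (n + n0)) (fun n => b (n + n0)) n y)| ≤ C * psi γ (Real.log n) :=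
    ae_pos fun c d hc hcd => ae_upper hX hγ hC1 hk0 hZ hSq hc hcd.le
  have hl1 := ae_lower (σ := 1) hX (Or.inl rfl) hpos hγ hc1 hs hSq
  have hl2 := ae_lower (σ := -1) hX (Or.inr rfl) hpos hγ hc1 hs hSq
  have hpt : ∀ (n : ℕ) (y : ℝ), pt (fun n => a (n + n0)) (fun n => b (n + n0)) n y = b (n + n0) * (exp y) ^ (a (n + n0)) := by
    intro n y
    unfold pt
    rw [← Real.exp_mul, mul_comm y]
  -- comparison of the normalisations
  have hlogt : Tendsto (fun n : ℕ => Real.log n) atTop atTop := Real.tendsto_log_atTop.comp tendsto_natCast_atTop_atTop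
  have hcmp : ∀ᶠ n : ℕ in atTop, psi γ (Real.log n) ≤ psi γ (Real.log ((n + n0 : ℕ) : ℝ)) ∧
      psi γ (Real.log ((n + n0 : ℕ) : ℝ)) ≤ 2 * 2 ^ γ * psi γ (Real.log n) := by
    filter_upwards [hlogt.eventually_ge_atTop 2, eventually_ge_atTop (max n0 2)] with n h1 h2
    have hn0' : n0 ≤ n := (le_max_left _ _).trans h2
    have hn2 : 2 ≤ n := (le_max_right _ _).trans h2
    have hnr : (2:ℝ) ≤ n := by exact_mod_cast hn2
    have hle : (n:ℝ) ≤ ((n + n0 : ℕ) : ℝ) := by exact_mod_cast Nat.le_add_right n n0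
    have hll : Real.log n ≤ Real.log ((n + n0 : ℕ) : ℝ) := Real.log_le_log (by linarith) hle
    have hlu : Real.log ((n + n0 : ℕ) : ℝ) ≤ 2 * Real.log n := by
      have h3 : ((n + n0 : ℕ) : ℝ) ≤ (n:ℝ) ^ 2 := by
        have : n + n0 ≤ n ^ 2 := by nlinarith
        exact_mod_cast this
      calc Real.log ((n + n0 : ℕ) : ℝ) ≤ Real.log ((n:ℝ) ^ 2) := Real.log_le_log (by linarith) h3
        _ = 2 * Real.log n := by rw [Real.log_pow]; norm_num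
    exact ⟨psi_mono hγ (by linarith) hll, psi_two hγ h1 (by norm_num) hlu (by linarith) h1⟩
  have h2γ : (0:ℝ) < 2 ^ γ := by positivity
  have hshift : ∀ p : ℕ → Prop, (∃ᶠ n in atTop, p (n + n0)) → ∃ᶠ n in atTop, p n := by
    intro p h
    exact (tendsto_add_atTop_nat n0).frequently h
  filter_upwards [hup, hl1, hl2] with y h1 h2 h3 hy0
  refine ⟨?_, ?_, ?_⟩
  · have h4 := (h1 hy0).and hcmp
    rw [eventually_atTop] at h4 ⊢
    obtain ⟨N, hN⟩ := h4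
    refine ⟨N + n0, fun n hn => ?_⟩
    obtain ⟨g1, g2, -⟩ := hN (n - n0) (by omega)
    have e1 : n - n0 + n0 = n := by omega
    rw [hpt, e1] at g1
    rw [e1] at g2
    exact g1.trans (mul_le_mul_of_nonneg_left g2 hCp.le)
  · apply hshift (fun n => c2 / (2 * 2 ^ γ) * psi γ (Real.log n) ≤ E (b n * (exp y) ^ (a n)))
    refine ((h2 hy0).and_eventually hcmp).mono ?_
    rintro n ⟨g1, -, g2⟩
    rw [hpt, one_mul] at g1
    refine le_trans ?_ g1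
    calc c2 / (2 * 2 ^ γ) * psi γ (Real.log ((n + n0 : ℕ) : ℝ)) ≤ c2 / (2 * 2 ^ γ) * (2 * 2 ^ γ * psi γ (Real.log n)) := by gcongr
      _ = c2 * psi γ (Real.log n) := by field_simp
  · apply hshift (fun n => E (b n * (exp y) ^ (a n)) ≤ -(c2 / (2 * 2 ^ γ) * psi γ (Real.log n)))
    refine ((h3 hy0).and_eventually hcmp).mono ?_
    rintro n ⟨g1, -, g2⟩
    rw [hpt] at g1
    have g3 : c2 / (2 * 2 ^ γ) * psi γ (Real.log ((n + n0 : ℕ) : ℝ)) ≤ c2 * psi γ (Real.log n) := by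
      calc c2 / (2 * 2 ^ γ) * psi γ (Real.log ((n + n0 : ℕ) : ℝ)) ≤ c2 / (2 * 2 ^ γ) * (2 * 2 ^ γ * psi γ (Real.log n)) := by gcongr
        _ = _ := by field_simp
    linarith

end Pool.Agent.NH14.LI

namespace Pool.Agent.NH14.LI

open Pool.Agent.H452R2.Om (zz gam_c gam_d zz_ge_two)
open Pool.Agent.H383.Gauss Pool.Agent.H383.Div Pool.Agent.H383.Circ

lemma two43 : (2:ℝ)^(4/3:ℝ) * (1/2) = (2:ℝ)^(1/3:ℝ) := by
  have : (2:ℝ)^(4/3:ℝ) = 2 * (2:ℝ)^(1/3:ℝ) := by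
    calc (2:ℝ)^(4/3:ℝ) = (2:ℝ)^((1:ℝ) + 1/3) := by norm_num
      _ = 2 * (2:ℝ)^(1/3:ℝ) := by rw [Real.rpow_add (by norm_num), Real.rpow_one]
  rw [this]; ring

lemma one_le_two13 : (1:ℝ) ≤ (2:ℝ)^(1/3:ℝ) := Real.one_le_rpow (by norm_num) (by norm_num)

/-- the circle problem -/
theorem lil_circ : ∃ c C : ℝ, 0 < c ∧ 0 < C ∧ ∀ (a b : ℕ → ℝ) (δ : ℝ), 0 < δ → (∀ n, a n + δ ≤ a (n + 1)) →
    (∀ n, 0 < b n) → Monotone b →
      ∀ᵐ α : ℝ, 1 < α →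
        (∀ᶠ n : ℕ in atTop, |En (b n * α ^ (a n))| ≤ C * psi (3/4 * ((2:ℝ)^(1/3:ℝ) - 1)) (Real.log n)) ∧
        (∃ᶠ n : ℕ in atTop, c * psi (3/4 * ((2:ℝ)^(1/3:ℝ) - 1)) (Real.log n) ≤ En (b n * α ^ (a n))) ∧
        (∃ᶠ n : ℕ in atTop, En (b n * α ^ (a n)) ≤ -(c * psi (3/4 * ((2:ℝ)^(1/3:ℝ) - 1)) (Real.log n))) := by
  obtain ⟨C0, hC0, hS⟩ := En_Sand
  have hX := Ctx.of ag_Bd ag_zero wg_Wt hC0 hS Pool.Agent.R306.Circ.En_meas
  obtain ⟨K, hK, hcls⟩ := ClsBd_circ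
  obtain ⟨C1, hC1, k0, hk0, hZ⟩ := ZZ_mom (a := ag) (3 * Real.pi / 4) hK hcls (b := 1/2) (by norm_num)
    (by rw [two43]; exact one_le_two13) PS_circ
  rw [two43] at hZ
  obtain ⟨c1, K0, hc1, hs⟩ := circ_sets2
  rw [gam_c] at hs
  exact lil_gen hX ag_nonneg (by have := one_le_two13; linarith) hC1 hk0 hZ hc1 ⟨K0, hs⟩

/-- the divisor problem, in the doubled variable -/
theorem lil_div : ∃ c C : ℝ, 0 < c ∧ 0 < C ∧ ∀ (a b : ℕ → ℝ) (δ : ℝ), 0 < δ → (∀ n, a n + δ ≤ a (n + 1)) →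
    (∀ n, 0 < b n) → Monotone b →
      ∀ᵐ α : ℝ, 1 < α →
        (∀ᶠ n : ℕ in atTop, |E2 (b n * α ^ (a n))| ≤ C * psi (3/4 * ((2:ℝ)^(4/3:ℝ) - 1)) (Real.log n)) ∧
        (∃ᶠ n : ℕ in atTop, c * psi (3/4 * ((2:ℝ)^(4/3:ℝ) - 1)) (Real.log n) ≤ E2 (b n * α ^ (a n))) ∧
        (∃ᶠ n : ℕ in atTop, E2 (b n * α ^ (a n)) ≤ -(c * psi (3/4 * ((2:ℝ)^(4/3:ℝ) - 1)) (Real.log n))) := by
  obtain ⟨C0, hC0, hS⟩ := E2_Sand vor
  have hmeas : Measurable E2 := by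
    have h1 : Measurable Pool.Agent.H387R2.Vor.Dsum := by
      have : Pool.Agent.H387R2.Vor.Dsum = (fun n : ℕ => ∑ k ∈ Finset.Icc 1 n, Pool.Agent.H387R2.Vor.dv k) ∘ (fun x : ℝ => ⌊x⌋₊) := rfl
      rw [this]
      exact (measurable_from_top).comp Nat.measurable_floor
    have h2 : Measurable Pool.Agent.H387R2.Vor.Del := by
      unfold Pool.Agent.H387R2.Vor.Del
      fun_prop
    have h3 : Measurable Pool.Agent.H387R2.Vor.Ed := by
      unfold Pool.Agent.H387R2.Vor.Ed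
      fun_prop
    unfold E2
    fun_prop
  have hX := Ctx.of ad_Bd ad_zero wd_Wt hC0 hS hmeas
  obtain ⟨K, hK, hcls⟩ := ClsBd_div
  have h243 : (1:ℝ) ≤ (2:ℝ)^(4/3:ℝ) * 1 := by rw [mul_one]; exact Real.one_le_rpow (by norm_num) (by norm_num)
  obtain ⟨C1, hC1, k0, hk0, hZ⟩ := ZZ_mom (a := ad) (Real.pi / 4) hK hcls (b := 1) (by norm_num) h243 PS_div
  rw [mul_one] at hZ h243
  obtain ⟨c1, K0, hc1, hs⟩ := div_sets2
  rw [gam_d] at hs
  exact lil_gen hX ad_nonneg (by linarith) hC1 hk0 hZ hc1 ⟨K0, hs⟩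

end Pool.Agent.NH14.LI
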